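import Mathlib

/-!
# Definitions used in the statements

* `InnerOn K γ` : the automorphism `γ` of `Γ` induces an inner automorphism of `Γ ⧸ K`.
* `SectionMod K U G` : `G` is a quotient of a subgroup of `U ≤ Aut Γ` by a subgroup containing
  all elements of `U` that induce an inner automorphism of `Γ ⧸ K`.
* `AllFiniteSections Γ` : every finite group is such a section, for every `U` of finite index
  and some characteristic `K` of finite index containing the third derived subgroup.
-/

namespace Run7.h551

/-- `γ` acts on `Γ ⧸ K` as conjugation by some element `g`. -/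
def InnerOn {Γ : Type*} [Group Γ] (K : Subgroup Γ) (γ : MulAut Γ) : Prop :=
  ∃ g : Γ, ∀ f : Γ, (QuotientGroup.mk (γ f) : Γ ⧸ K) = QuotientGroup.mk (g * f * g⁻¹)

/-- Some subgroup `Δ` of `U` maps onto `G` by a homomorphism `φ`, and every element of `U` which
induces an inner automorphism of `Γ ⧸ K` lies in `Δ` and in the kernel of `φ`. -/
def SectionMod {Γ : Type*} [Group Γ] (K : Subgroup Γ) (U : Subgroup (MulAut Γ))
    (G : Type*) [Group G] : Prop :=
  ∃ (Δ : Subgroup (MulAut Γ)) (φ : Δ →* G), Δ ≤ U ∧ Function.Surjective φ ∧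
    ∀ γ ∈ U, InnerOn K γ → ∃ h : γ ∈ Δ, φ ⟨γ, h⟩ = 1

/-- For every finite group `G` and every finite-index subgroup `U` of `Aut Γ` there is a
characteristic finite-index subgroup `K` of `Γ` containing the third derived subgroup such that
`SectionMod K U G` holds. -/
def AllFiniteSections (Γ : Type) [Group Γ] : Prop :=
  ∀ (G : Type) [Group G] [Finite G] (U : Subgroup (MulAut Γ)), U.FiniteIndex →
    ∃ K : Subgroup Γ, K.Characteristic ∧ K.FiniteIndex ∧ derivedSeries Γ 3 ≤ K ∧ SectionMod K U G

end Run7.h551
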