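import Mathlib
import Pool.Agent.Run7.h551.Defs

/-!
# Congruence kernels and sections

* `InnerOn K γ` : the automorphism `γ` induces an inner automorphism of `G ⧸ K`.
* `homKer G W` : the intersection of the kernels of all homomorphisms `G → W`.
-/

namespace Run7.h551

/-- The intersection of the kernels of all homomorphisms `G → W`. -/
def homKer (G W : Type*) [Group G] [Group W] : Subgroup G := ⨅ θ : G →* W, θ.ker

theorem homKer_le {G W : Type*} [Group G] [Group W] (θ : G →* W) : homKer G W ≤ θ.ker :=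
  iInf_le _ θ

instance homKer_char (G W : Type*) [Group G] [Group W] : (homKer G W).Characteristic := by
  rw [Subgroup.characteristic_iff_le_comap]
  intro φ f hf
  rw [Subgroup.mem_comap, homKer, Subgroup.mem_iInf]
  intro θ
  exact homKer_le (θ.comp φ.toMonoidHom) hf

theorem homKer_finiteIndex {G W : Type*} [Group G] [Group W] [Finite W] [Finite (G →* W)] :
    (homKer G W).FiniteIndex := by
  exact Subgroup.finiteIndex_iInf fun θ => Subgroup.finiteIndex_ker θ

theorem finite_hom_freeGroup_quot {n : ℕ} (N : Subgroup (FreeGroup (Fin n))) [N.Normal]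
    (W : Type*) [Group W] [Finite W] : Finite ((FreeGroup (Fin n) ⧸ N) →* W) := by
  refine Finite.of_injective
    (fun θ : (FreeGroup (Fin n) ⧸ N) →* W => fun i : Fin n => θ (QuotientGroup.mk (FreeGroup.of i)))
    ?_
  intro θ θ' h
  have h2 : θ.comp (QuotientGroup.mk' N) = θ'.comp (QuotientGroup.mk' N) := by
    apply FreeGroup.ext_hom
    intro i
    exact congrFun h i
  ext f
  exact DFunLike.congr_fun h2 (FreeGroup.of f)

/-- The automorphisms inducing an inner automorphism on the quotient by `K`. -/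
def congSub {G : Type*} [Group G] (K : Subgroup G) [K.Characteristic] : Subgroup (MulAut G) where
  carrier := {γ | InnerOn K γ}
  one_mem' := ⟨1, fun f => by simp⟩
  mul_mem' := by
    rintro γ δ ⟨g, hg⟩ ⟨h, hh⟩
    refine ⟨g * h, fun f => ?_⟩
    have h1 : (QuotientGroup.mk (γ (δ f)) : G ⧸ K) = QuotientGroup.mk (γ (h * f * h⁻¹)) := by
      have := hh f
      rw [QuotientGroup.eq] at this ⊢
      rw [← map_inv, ← map_mul]
      exact (Subgroup.characteristic_iff_le_comap.mp inferInstance γ) this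
    rw [MulAut.mul_apply, h1]
    simp only [map_mul, map_inv, QuotientGroup.mk_mul, QuotientGroup.mk_inv, hg]
    group
  inv_mem' := by
    rintro γ ⟨g, hg⟩
    refine ⟨g⁻¹, fun f => ?_⟩
    have h1 := hg (γ⁻¹ f)
    rw [MulAut.apply_inv_self] at h1
    have h3 : (QuotientGroup.mk f : G ⧸ K) =
        QuotientGroup.mk g * QuotientGroup.mk (γ⁻¹ f) * (QuotientGroup.mk g)⁻¹ := by
      rw [h1]; rfl
    simp only [QuotientGroup.mk_mul, QuotientGroup.mk_inv, h3]
    group

theorem mem_congSub {G : Type*} [Group G] {K : Subgroup G} [K.Characteristic] {γ : MulAut G} :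
    γ ∈ congSub K ↔ InnerOn K γ := Iff.rfl

instance congSub_normal {G : Type*} [Group G] (K : Subgroup G) [K.Characteristic] :
    (congSub K).Normal := by
  refine ⟨fun γ hγ δ => ?_⟩
  obtain ⟨g, hg⟩ := hγ
  refine ⟨δ g, fun f => ?_⟩
  have h1 := hg (δ⁻¹ f)
  rw [QuotientGroup.eq] at h1 ⊢
  have h2 := (Subgroup.characteristic_iff_le_comap.mp (inferInstance : K.Characteristic) δ) h1
  rw [Subgroup.mem_comap] at h2
  have h3 : δ ((γ (δ⁻¹ f))⁻¹ * (g * δ⁻¹ f * g⁻¹)) =
      ((δ * γ * δ⁻¹) f)⁻¹ * (δ g * f * (δ g)⁻¹) := by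
    simp [MulAut.mul_apply, map_mul, map_inv]
  rw [← h3]
  exact h2

/-- Turning a correspondence into a section. -/
theorem exists_section {A G₀ : Type*} [Group A] [Group G₀] (Γ : Subgroup A) [Γ.Normal]
    (L : Subgroup (A × G₀)) (hL : ∀ t ∈ L, t.1 ∈ Γ → t.2 = 1) (hs : ∀ g : G₀, ∃ t ∈ L, t.2 = g) :
    ∃ (Δ : Subgroup A) (φ : Δ →* G₀), Function.Surjective φ ∧
      ∀ γ ∈ Γ, ∃ h : γ ∈ Δ, φ ⟨γ, h⟩ = 1 := by
  classical
  set L' : Subgroup (A × G₀) := L ⊔ Γ.prod ⊥ with hL'
  have hmem : ∀ t ∈ L', ∃ y ∈ L, y.1⁻¹ * t.1 ∈ Γ ∧ y.2 = t.2 := by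
    intro t ht
    obtain ⟨y, hy, z, hz, rfl⟩ := Subgroup.mem_sup_of_normal_right.mp ht
    obtain ⟨hz1, hz2⟩ := Subgroup.mem_prod.mp hz
    refine ⟨y, hy, by simpa using hz1, ?_⟩
    rw [Subgroup.mem_bot] at hz2
    simp [hz2]
  have hinj : Function.Injective ((MonoidHom.fst A G₀).comp L'.subtype) := by
    rw [injective_iff_map_eq_one]
    rintro ⟨t, ht⟩ h1
    simp only [MonoidHom.coe_comp, Subgroup.coe_subtype, Function.comp_apply,
      MonoidHom.coe_fst] at h1
    obtain ⟨y, hy, h2, h3⟩ := hmem t ht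
    rw [h1, mul_one] at h2
    have h4 := hL y hy (by simpa using h2)
    apply Subtype.ext
    apply Prod.ext
    · exact h1
    · rw [← h3, h4]; rfl
  set e := MonoidHom.ofInjective hinj
  refine ⟨_, ((MonoidHom.snd A G₀).comp L'.subtype).comp e.symm.toMonoidHom, ?_, ?_⟩
  · intro g
    obtain ⟨t, ht, rfl⟩ := hs g
    refine ⟨e ⟨t, Subgroup.mem_sup_left ht⟩, ?_⟩
    simp
  · intro γ hγ
    have h5 : ((γ, 1) : A × G₀) ∈ L' := by
      apply Subgroup.mem_sup_right
      rw [Subgroup.mem_prod]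
      exact ⟨hγ, rfl⟩
    refine ⟨⟨⟨(γ, 1), h5⟩, rfl⟩, ?_⟩
    have h6 : e.symm ⟨γ, ⟨⟨(γ, 1), h5⟩, rfl⟩⟩ = ⟨(γ, 1), h5⟩ := by
      rw [MulEquiv.symm_apply_eq]
      rfl
    simp only [MonoidHom.coe_comp, Function.comp_apply, MulEquiv.coe_toMonoidHom]
    rw [h6]
    rfl

end Run7.h551
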