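import Mathlib

/-!
# A wreath-type group

`Wr I R M` is the group of triples `(s, a, b)` with `s : I`, `a : I → Rˣ`, `b : I → M`;
such a triple acts on `I × M` by `(i, v) ↦ (i + s, a i • v + b i)`.
Its third derived subgroup is trivial.
-/

set_option linter.unusedSectionVars false

open scoped commutatorElement

namespace Run7.h551

/-- Triples `(s, a, b)`. -/
@[ext]
structure Wr (I R M : Type*) [Monoid R] where
  /-- the shift -/
  s : I
  /-- the multipliers -/
  a : I → Rˣ
  /-- the translations -/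
  b : I → M

namespace Wr

variable {I R M : Type*} [AddCommGroup I] [CommRing R] [AddCommGroup M] [Module R M]

instance : Mul (Wr I R M) :=
  ⟨fun f g => ⟨f.s + g.s, fun i => f.a (i + g.s) * g.a i,
    fun i => f.a (i + g.s) • g.b i + f.b (i + g.s)⟩⟩

instance : One (Wr I R M) := ⟨⟨0, fun _ => 1, fun _ => 0⟩⟩

instance : Inv (Wr I R M) :=
  ⟨fun f => ⟨-f.s, fun i => (f.a (i - f.s))⁻¹, fun i => -((f.a (i - f.s))⁻¹ • f.b (i - f.s))⟩⟩

@[simp] theorem mul_s (f g : Wr I R M) : (f * g).s = f.s + g.s := rfl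
theorem mul_a (f g : Wr I R M) (i : I) : (f * g).a i = f.a (i + g.s) * g.a i := rfl
theorem mul_b (f g : Wr I R M) (i : I) :
    (f * g).b i = f.a (i + g.s) • g.b i + f.b (i + g.s) := rfl
@[simp] theorem one_s : (1 : Wr I R M).s = 0 := rfl
@[simp] theorem one_a (i : I) : (1 : Wr I R M).a i = 1 := rfl
@[simp] theorem one_b (i : I) : (1 : Wr I R M).b i = 0 := rfl
@[simp] theorem inv_s (f : Wr I R M) : (f⁻¹).s = -f.s := rfl
theorem inv_a (f : Wr I R M) (i : I) : (f⁻¹).a i = (f.a (i - f.s))⁻¹ := rfl
theorem inv_b (f : Wr I R M) (i : I) :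
    (f⁻¹).b i = -((f.a (i - f.s))⁻¹ • f.b (i - f.s)) := rfl

instance : Group (Wr I R M) :=
  Group.ofLeftAxioms
    (by
      intro f g h
      have e : ∀ i : I, i + h.s + g.s = i + (g.s + h.s) := fun i => by abel
      ext i
      · simp [add_assoc]
      · simp only [mul_a, mul_s, e, mul_assoc]
      · simp only [mul_b, mul_a, mul_s, e, smul_add, mul_smul, add_assoc])
    (by
      intro f
      ext i
      · simp
      · simp [mul_a]
      · simp [mul_b])
    (by
      intro f
      ext i
      · simp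
      · simp [mul_a, inv_a]
      · simp [mul_b, inv_a, inv_b])

instance [Finite I] [Finite R] [Finite M] : Finite (Wr I R M) :=
  Finite.of_injective (fun f : Wr I R M => (f.s, (f.a, f.b))) (by
    intro f g h
    simp only [Prod.mk.injEq] at h
    exact Wr.ext h.1 h.2.1 h.2.2)

/-- The shift homomorphism. -/
def sh : Wr I R M →* Multiplicative I where
  toFun f := Multiplicative.ofAdd f.s
  map_one' := rfl
  map_mul' _ _ := rfl

theorem derived_one_s {f : Wr I R M} (hf : f ∈ derivedSeries (Wr I R M) 1) : f.s = 0 := by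
  rw [derivedSeries_one] at hf
  have h := Abelianization.commutator_subset_ker (sh : Wr I R M →* Multiplicative I) hf
  exact h

theorem comm_s (f g : Wr I R M) : ⁅f, g⁆.s = 0 := by
  simp [commutatorElement_def]

/-- The subgroup of elements without shift and multipliers. -/
def N2 : Subgroup (Wr I R M) where
  carrier := {f | f.s = 0 ∧ ∀ i, f.a i = 1}
  one_mem' := ⟨rfl, fun _ => rfl⟩
  mul_mem' := by
    rintro f g ⟨h1, h2⟩ ⟨h3, h4⟩
    exact ⟨by simp [h1, h3], fun i => by simp [mul_a, h2, h4]⟩
  inv_mem' := by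
    rintro f ⟨h1, h2⟩
    exact ⟨by simp [h1], fun i => by simp [inv_a, h2]⟩

theorem derived_two_le : derivedSeries (Wr I R M) 2 ≤ N2 := by
  rw [derivedSeries_succ, Subgroup.commutator_le]
  intro f hf g hg
  have h1 := derived_one_s hf
  have h2 := derived_one_s hg
  refine ⟨comm_s f g, fun i => ?_⟩
  simp [commutatorElement_def, mul_a, inv_a, h1, h2]

theorem derived_three : derivedSeries (Wr I R M) 3 = ⊥ := by
  rw [eq_bot_iff, derivedSeries_succ, Subgroup.commutator_le]
  intro f hf g hg
  obtain ⟨h1, h2⟩ := derived_two_le hf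
  obtain ⟨h3, h4⟩ := derived_two_le hg
  rw [Subgroup.mem_bot]
  ext i
  · simp [comm_s]
  · simp [commutatorElement_def, mul_a, inv_a, h1, h3, h2, h4]
  · simp [commutatorElement_def, mul_a, mul_b, inv_a, inv_b, h1, h3, h2, h4]

end Wr

end Run7.h551
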