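import Mathlib
import Pool.Agent.Run7.h551.Wr
import Pool.Agent.Run7.h551.Cong

/-!
# The Artin-Schreier family of metabelian local systems on the punctured torus

`R` is a commutative ring of characteristic `p` with an element `u` such that `u ^ p = u + 1`.
-/

set_option linter.unusedSectionVars false

namespace Run7.h551.AS

open Run7.h551

/-- The free group of rank two. -/
abbrev F := FreeGroup (Fin 2)

/-- first generator -/
abbrev x : F := FreeGroup.of 0
/-- second generator -/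
abbrev y : F := FreeGroup.of 1

variable {p : ℕ} [hp : Fact p.Prime] {R : Type*} [CommRing R] [Algebra (ZMod p) R] [CharP R p]

/-- `w i = u + i`. -/
def w (u : R) (i : ZMod p) : R := u + algebraMap (ZMod p) R i

theorem w_zero (u : R) : w u (0 : ZMod p) = u := by simp [w]

theorem w_succ (u : R) (i : ZMod p) : w u (i + 1) = w u i + 1 := by simp [w, add_assoc]

theorem w_pow {u : R} (hu : u ^ p = u + 1) (i : ZMod p) : w u i ^ p = w u i + 1 := by
  unfold w
  rw [add_pow_char, hu, ← map_pow, ZMod.pow_card]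
  ring

theorem w_mul {u : R} (hu : u ^ p = u + 1) (i : ZMod p) :
    w u i * (w u i ^ (p - 1) - 1) = 1 := by
  have h := w_pow hu i
  have h2 : w u i * w u i ^ (p - 1) = w u i ^ p := by
    rw [← pow_succ']
    congr 1
    have := hp.out.pos
    omega
  rw [mul_sub, h2, h]
  ring

/-- `w i` as a unit. -/
def om {u : R} (hu : u ^ p = u + 1) (i : ZMod p) : Rˣ :=
  ⟨w u i, w u i ^ (p - 1) - 1, w_mul hu i, by rw [mul_comm]; exact w_mul hu i⟩

@[simp] theorem om_val {u : R} (hu : u ^ p = u + 1) (i : ZMod p) : ((om hu i : Rˣ) : R) = w u i :=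
  rfl

variable {u : R} (hu : u ^ p = u + 1)

/-- The multiplier in the fibre over `i`. -/
def chi (i : ZMod p) : Rˣ := om hu i * (om hu (i + 1))⁻¹

/-- The universal module of coefficients. -/
abbrev Mo (p : ℕ) (R : Type*) := Option (ZMod p) → R

/-- image of `x` -/
def X : Wr (ZMod p) R (Mo p R) :=
  ⟨1, fun _ => 1, fun i => if i = -1 then Pi.single none 1 else 0⟩

/-- image of `y` -/
def Y : Wr (ZMod p) R (Mo p R) :=
  ⟨0, fun i => chi hu i, fun i => Pi.single (some i) 1⟩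

/-- The universal homomorphism. -/
def Th : F →* Wr (ZMod p) R (Mo p R) := FreeGroup.lift ![X, Y hu]

@[simp] theorem Th_x : Th hu x = X := by simp [Th]
@[simp] theorem Th_y : Th hu y = Y hu := by simp [Th]

/-- Cocycles on the subgroup `H` of elements with trivial shift. -/
def IsCoc (κ : F → Mo p R) : Prop :=
  ∀ f g, (Th hu f).s = 0 → (Th hu g).s = 0 → κ (f * g) = κ f + ((Th hu f).a 0 : R) • κ g

theorem Th_xpow_s (k : ℕ) : (Th hu (x ^ k)).s = k := by
  induction k with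
  | zero => simp
  | succ k ih => rw [pow_succ', map_mul, Wr.mul_s, ih]; simp [X]; ring

theorem Th_xpow_a (k : ℕ) (i : ZMod p) : (Th hu (x ^ k)).a i = 1 := by
  induction k generalizing i with
  | zero => simp
  | succ k ih => rw [pow_succ', map_mul, Wr.mul_a, ih]; simp [X]

/-- conjugates of `y` -/
def yi (k : ℕ) : F := (x ^ k)⁻¹ * y * x ^ k

theorem Th_yi_s (k : ℕ) : (Th hu (yi k)).s = 0 := by
  simp [yi, Y]

theorem Th_yi_a (k : ℕ) : (Th hu (yi k)).a 0 = chi hu (k : ZMod p) := by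
  rw [yi, map_mul, Wr.mul_a, map_mul, Wr.mul_a, map_inv, Wr.inv_a, Th_xpow_a, Th_xpow_a,
    Th_xpow_s]
  simp [Y]

/-- products of conjugates of `y ^ j` -/
def Q (j : ℕ) : ℕ → F
  | 0 => 1
  | k + 1 => yi k ^ j * Q j k

theorem xy_pow (j k : ℕ) : (x * y ^ j) ^ k = x ^ k * Q j k := by
  induction k with
  | zero => simp [Q]
  | succ k ih =>
    have h : yi k ^ j = (x ^ k)⁻¹ * y ^ j * x ^ k := by
      have := conj_pow (i := j) (a := (x ^ k)⁻¹) (b := y)
      rw [inv_inv] at this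
      exact this
    rw [pow_succ', ih, Q, h, pow_succ']
    group

theorem Th_yipow_s (k j : ℕ) : (Th hu (yi k ^ j)).s = 0 := by
  induction j with
  | zero => simp
  | succ j ih => rw [pow_succ', map_mul, Wr.mul_s, ih, Th_yi_s]; simp

theorem Th_yipow_a (k j : ℕ) : (Th hu (yi k ^ j)).a 0 = chi hu (k : ZMod p) ^ j := by
  induction j with
  | zero => simp
  | succ j ih =>
    rw [pow_succ', map_mul, Wr.mul_a, Th_yipow_s, zero_add, ih, Th_yi_a, pow_succ']

theorem Th_Q_s (j k : ℕ) : (Th hu (Q j k)).s = 0 := by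
  induction k with
  | zero => simp [Q]
  | succ k ih => rw [Q, map_mul, Wr.mul_s, ih, Th_yipow_s]; simp

theorem Th_Q_a (j k : ℕ) : (Th hu (Q j k)).a 0 = (om hu 0 * (om hu (k : ZMod p))⁻¹) ^ j := by
  induction k with
  | zero => simp [Q]
  | succ k ih =>
    rw [Q, map_mul, Wr.mul_a, Th_Q_s, zero_add, ih, Th_yipow_a, ← mul_pow, chi]
    push_cast
    congr 1
    rw [mul_comm (om hu (k : ZMod p)), mul_comm (om hu 0), mul_assoc, mul_comm (om hu 0),
      mul_inv_cancel_left, mul_comm]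

theorem coc_one {κ : F → Mo p R} (hκ : IsCoc hu κ) : κ 1 = 0 := by
  have h := hκ 1 1 (by simp) (by simp)
  simpa using h

theorem w_chi (i : ZMod p) : w u (i + 1) * (chi hu i : R) = w u i := by
  have : (w u (i + 1) : R) = (om hu (i + 1) : Rˣ) := rfl
  rw [this, chi, ← Units.val_mul]
  have h2 : om hu (i + 1) * (om hu i * (om hu (i + 1))⁻¹) = om hu i := by
    rw [mul_comm (om hu i), mul_inv_cancel_left]
  rw [h2]
  rfl

theorem coc_yipow {κ : F → Mo p R} (hκ : IsCoc hu κ) (k j : ℕ) :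
    (w u ((k : ZMod p) + 1) ^ j) • κ (yi k ^ j) =
      (w u ((k : ZMod p) + 1) * (w u ((k : ZMod p) + 1) ^ j - w u (k : ZMod p) ^ j)) •
        κ (yi k) := by
  induction j with
  | zero => simp [coc_one hu hκ]
  | succ j ih =>
    rw [pow_succ' (yi k), hκ _ _ (Th_yi_s hu k) (Th_yipow_s hu k j), Th_yi_a, smul_add, smul_smul]
    have h1 : w u ((k : ZMod p) + 1) ^ (j + 1) * (chi hu (k : ZMod p) : R) =
        w u (k : ZMod p) * w u ((k : ZMod p) + 1) ^ j := by
      rw [pow_succ, mul_assoc, w_chi]; ring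
    rw [h1, mul_smul, ih, smul_smul, ← add_smul]
    congr 1
    have h2 := w_succ u (k : ZMod p)
    set a := w u (k : ZMod p)
    rw [h2]
    ring

theorem coc_Q {κ : F → Mo p R} (hκ : IsCoc hu κ) (j k : ℕ) :
    (w u (k : ZMod p) ^ j) • κ (Q j k) =
      ∑ i ∈ Finset.range k, (w u ((i : ZMod p) + 1) *
        (w u ((i : ZMod p) + 1) ^ j - w u (i : ZMod p) ^ j)) • κ (yi i) := by
  induction k with
  | zero => simp [Q, coc_one hu hκ]
  | succ k ih =>
    rw [Finset.sum_range_succ, ← ih, Q, hκ _ _ (Th_yipow_s hu k j) (Th_Q_s hu j k), smul_add,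
      Th_yipow_a]
    push_cast
    rw [coc_yipow hu hκ, smul_smul, ← mul_pow, w_chi, add_comm]

/-- The words `(x y ^ j) ^ p`. -/
def z (p j : ℕ) : F := (x * y ^ j) ^ p

theorem Th_z_s (j : ℕ) : (Th hu (z p j)).s = 0 := by
  rw [z, xy_pow, map_mul, Wr.mul_s, Th_xpow_s, Th_Q_s]
  simp

theorem Th_z_a (j : ℕ) : (Th hu (z p j)).a 0 = 1 := by
  rw [z, xy_pow, map_mul, Wr.mul_a, Th_xpow_a, Th_Q_a]
  simp

theorem coc_z {κ : F → Mo p R} (hκ : IsCoc hu κ) (j : ℕ) :
    (u ^ j) • κ (z p j) = (u ^ j) • κ (x ^ p) +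
      ∑ i ∈ Finset.range p, (w u ((i : ZMod p) + 1) *
        (w u ((i : ZMod p) + 1) ^ j - w u (i : ZMod p) ^ j)) • κ (yi i) := by
  have h := coc_Q hu hκ j p
  rw [CharP.cast_eq_zero, w_zero] at h
  rw [z, xy_pow, hκ _ _ (by rw [Th_xpow_s]; simp) (Th_Q_s hu j p), smul_add, Th_xpow_a, h.symm]
  simp

/-- The functionals `X_j`. -/
def Xf (u : R) (κ : F → Mo p R) (j : ℕ) : Mo p R := (u ^ j) • κ (z p j)

theorem Xf_zero (κ : F → Mo p R) : Xf u κ 0 = κ (x ^ p) := by
  simp [Xf, z]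

theorem Xf_p {κ : F → Mo p R} (hκ : IsCoc hu κ) : Xf u κ p = Xf u κ 1 + Xf u κ 0 := by
  rw [Xf_zero, Xf, Xf, coc_z hu hκ, coc_z hu hκ, hu]
  have h : ∀ i ∈ Finset.range p, (w u ((i : ZMod p) + 1) *
        (w u ((i : ZMod p) + 1) ^ p - w u (i : ZMod p) ^ p)) • κ (yi i) =
      (w u ((i : ZMod p) + 1) *
        (w u ((i : ZMod p) + 1) ^ 1 - w u (i : ZMod p) ^ 1)) • κ (yi i) := by
    intro i _
    rw [w_pow hu, w_pow hu]
    congr 2
    ring
  rw [Finset.sum_congr rfl h, pow_one, add_smul, one_smul]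
  abel

end Run7.h551.AS
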