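import Mathlib
import Pool.Agent.Run7.h551.AS

/-!
# The Artin-Schreier family, part two: sums, the universal cocycle, the correspondence
-/

set_option linter.unusedSectionVars false

namespace Run7.h551.AS

open Run7.h551

variable {p : ℕ} [hp : Fact p.Prime] {R : Type*} [CommRing R] [Algebra (ZMod p) R] [CharP R p]

theorem sum_range_zmod {M : Type*} [AddCommMonoid M] (f : ZMod p → M) :
    ∑ i ∈ Finset.range p, f (i : ZMod p) = ∑ i : ZMod p, f i := by
  refine Finset.sum_bij' (fun i _ => (i : ZMod p)) (fun a _ => a.val) ?_ ?_ ?_ ?_ ?_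
  · intro i _; exact Finset.mem_univ _
  · intro a _; exact Finset.mem_range.mpr (ZMod.val_lt a)
  · intro i hi; exact ZMod.val_cast_of_lt (Finset.mem_range.mp hi)
  · intro a _; exact ZMod.natCast_zmod_val a
  · intro i _; rfl

theorem sum_zmod_pow {m : ℕ} (hm : m < p - 1) :
    ∑ i : ZMod p, (algebraMap (ZMod p) R i) ^ m = 0 := by
  have h := FiniteField.sum_pow_lt_card_sub_one (ZMod p) m (by rw [ZMod.card]; exact hm)
  have h2 := congrArg (algebraMap (ZMod p) R) h
  rw [map_sum, map_zero] at h2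
  rw [← h2]
  exact Finset.sum_congr rfl fun i _ => by rw [map_pow]

theorem sum_zmod_pow' : ∑ i : ZMod p, (algebraMap (ZMod p) R i) ^ (p - 1) = -1 := by
  classical
  have h0 : p - 1 ≠ 0 := by have := hp.out.two_le; omega
  have h : ∑ i : ZMod p, i ^ (p - 1) = -1 := by
    rw [← Finset.sum_erase_add _ _ (Finset.mem_univ (0 : ZMod p)), zero_pow h0, add_zero]
    rw [Finset.sum_congr rfl (g := fun _ => (1 : ZMod p)) (fun i hi =>
      ZMod.pow_card_sub_one_eq_one (Finset.ne_of_mem_erase hi))]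
    rw [Finset.sum_const, Finset.card_erase_of_mem (Finset.mem_univ _), Finset.card_univ,
      ZMod.card, nsmul_eq_mul, mul_one, Nat.cast_sub hp.out.pos.nat_succ_le]
    simp
  have h2 := congrArg (algebraMap (ZMod p) R) h
  rw [map_sum, map_neg, map_one] at h2
  rw [← h2]
  exact Finset.sum_congr rfl fun i _ => by rw [map_pow]

theorem sum_w_pow (u : R) {j : ℕ} (hj : j < p - 1) : ∑ i : ZMod p, w u i ^ j = 0 := by
  unfold w
  simp_rw [add_pow]
  rw [Finset.sum_comm]
  apply Finset.sum_eq_zero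
  intro l _
  rw [← Finset.sum_mul, ← Finset.mul_sum,
    sum_zmod_pow (by omega : j - l < p - 1)]
  simp

theorem sum_w_pow' (u : R) : ∑ i : ZMod p, w u i ^ (p - 1) = -1 := by
  unfold w
  simp_rw [add_pow]
  rw [Finset.sum_comm, Finset.sum_eq_single 0]
  · simp only [pow_zero, one_mul, Nat.sub_zero, Nat.choose_zero_right, Nat.cast_one, mul_one]
    exact sum_zmod_pow'
  · intro l hl hl0
    rw [← Finset.sum_mul, ← Finset.mul_sum,
      sum_zmod_pow (by have := hp.out.two_le; omega : p - 1 - l < p - 1)]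
    simp
  · intro h
    simp at h

theorem sum_S (u : R) (j : ℕ) :
    ∑ i ∈ Finset.range p, (w u ((i : ZMod p) + 1) *
      (w u ((i : ZMod p) + 1) ^ j - w u (i : ZMod p) ^ j)) = - ∑ i : ZMod p, w u i ^ j := by
  rw [sum_range_zmod (fun i : ZMod p => w u (i + 1) * (w u (i + 1) ^ j - w u i ^ j))]
  have h1 : ∀ i : ZMod p, w u (i + 1) * (w u (i + 1) ^ j - w u i ^ j) =
      w u (i + 1) ^ (j + 1) - w u i ^ (j + 1) - w u i ^ j := by
    intro i
    have h2 : w u (i + 1) * w u i ^ j = w u i ^ (j + 1) + w u i ^ j := by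
      rw [w_succ]; ring
    rw [mul_sub, h2, pow_succ']
    ring
  rw [Finset.sum_congr rfl fun i _ => h1 i, Finset.sum_sub_distrib, Finset.sum_sub_distrib]
  have h3 : ∑ i : ZMod p, w u (i + 1) ^ (j + 1) = ∑ i : ZMod p, w u i ^ (j + 1) :=
    Equiv.sum_comp (Equiv.addRight (1 : ZMod p)) (fun i => w u i ^ (j + 1))
  rw [h3, sub_self, zero_sub]

variable {u : R} (hu : u ^ p = u + 1)

/-- The universal cocycle. -/
def be (f : F) : Mo p R := (Th hu f).b 0

theorem be_coc : IsCoc hu (be hu) := by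
  intro f g _ hg
  unfold be
  rw [map_mul, Wr.mul_b, hg, add_zero, add_comm, Units.smul_def]

theorem be_xpow {k : ℕ} (hk : k < p) : be hu (x ^ k) = 0 := by
  induction k with
  | zero => simp [be]
  | succ k ih =>
    have ih' := ih (by omega)
    unfold be at ih' ⊢
    rw [pow_succ', map_mul, Wr.mul_b, ih', smul_zero, zero_add, Th_xpow_s, Th_x]
    simp only [X, zero_add, ite_eq_right_iff]
    intro h
    exfalso
    have h2 : ((k + 1 : ℕ) : ZMod p) = 0 := by
      push_cast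
      rw [h]
      ring
    rw [ZMod.natCast_eq_zero_iff] at h2
    have := Nat.le_of_dvd (by omega) h2
    omega

theorem be_xp : be hu (x ^ p) = Pi.single none 1 := by
  have h0 := hp.out.pos
  have h := be_xpow hu (k := p - 1) (by omega)
  unfold be at h ⊢
  have e : x ^ p = x * x ^ (p - 1) := by rw [← pow_succ']; congr 1; omega
  rw [e, map_mul, Wr.mul_b, h, smul_zero, zero_add, Th_xpow_s, Th_x]
  simp only [X, zero_add]
  rw [if_pos]
  rw [Nat.cast_sub (by omega)]
  simp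

theorem be_yi {k : ℕ} (hk : k < p) : be hu (yi k) = Pi.single (some (k : ZMod p)) 1 := by
  have h := be_xpow hu hk
  unfold be at h ⊢
  rw [yi, map_mul, Wr.mul_b, h, smul_zero, zero_add, Th_xpow_s, map_mul, Wr.mul_b, map_inv,
    Wr.inv_b, Wr.inv_a, Th_xpow_s, Th_xpow_a, Th_y]
  simp only [Y, add_zero, zero_add, sub_self, h]
  simp

/-- The vector of functionals. -/
def Xv (u : R) (κ : F → Mo p R) (j : ZMod p) : Mo p R := Xf u κ j.val

theorem Xv_be_none (j : ZMod p) : Xv u (be hu) j none = u ^ j.val := by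
  rw [Xv, Xf, coc_z hu (be_coc hu), be_xp, Pi.add_apply, Finset.sum_apply,
    Finset.sum_eq_zero]
  · simp
  · intro i hi
    rw [be_yi hu (Finset.mem_range.mp hi)]
    simp

theorem Xv_be_some (j i : ZMod p) :
    Xv u (be hu) j (some i) = w u (i + 1) * (w u (i + 1) ^ j.val - w u i ^ j.val) := by
  rw [Xv, Xf, coc_z hu (be_coc hu), be_xp, Pi.add_apply, Finset.sum_apply,
    Finset.sum_eq_single i.val]
  · rw [be_yi hu (ZMod.val_lt i), ZMod.natCast_zmod_val]
    simp
  · intro l hl hne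
    rw [be_yi hu (Finset.mem_range.mp hl)]
    have h : some i ≠ some (l : ZMod p) := by
      intro h
      apply hne
      rw [Option.some.inj h, ZMod.val_cast_of_lt (Finset.mem_range.mp hl)]
    simp [Pi.single_eq_of_ne h]
  · intro h
    exact absurd (Finset.mem_range.mpr (ZMod.val_lt i)) h

/-- Matrices act on vectors of functionals. -/
def act (N : Matrix (ZMod p) (ZMod p) (ZMod p)) (V : ZMod p → Mo p R) (j : ZMod p) : Mo p R :=
  ∑ k, algebraMap (ZMod p) R (N j k) • V k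

theorem act_mul (N N' : Matrix (ZMod p) (ZMod p) (ZMod p)) (V : ZMod p → Mo p R) :
    act (N * N') V = act N (act N' V) := by
  funext j
  unfold act
  simp_rw [Finset.smul_sum, smul_smul]
  rw [Finset.sum_comm]
  refine Finset.sum_congr rfl fun k _ => ?_
  rw [Matrix.mul_apply, map_sum, Finset.sum_smul]
  exact Finset.sum_congr rfl fun l _ => by rw [map_mul]

theorem act_one (V : ZMod p → Mo p R) : act 1 V = V := by
  funext j
  unfold act
  rw [Finset.sum_eq_single j]
  · simp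
  · intro k _ hk
    rw [Matrix.one_apply_ne (Ne.symm hk)]
    simp
  · intro h; exact absurd (Finset.mem_univ j) h

theorem act_smul (N : Matrix (ZMod p) (ZMod p) (ZMod p)) (V : ZMod p → Mo p R) (r : R) :
    act N (fun j => r • V j) = fun j => r • act N V j := by
  funext j
  unfold act
  rw [Finset.smul_sum]
  exact Finset.sum_congr rfl fun k _ => smul_comm _ _ _

/-- General linear group. -/
abbrev GLp (p : ℕ) [Fact p.Prime] := (Matrix (ZMod p) (ZMod p) (ZMod p))ˣ

/-- The correspondence between automorphisms and matrices. -/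
def Rel (γ : MulAut F) (M : GLp p) : Prop :=
  (∀ f, (Th hu (γ f)).s = (Th hu f).s) ∧
  (∀ f, (Th hu f).s = 0 → (Th hu (γ f)).a 0 = (Th hu f).a 0) ∧
  ∃ l : Rˣ, ∀ κ : F → Mo p R, IsCoc hu κ →
    (fun j => (l : R) • Xv u (κ ∘ γ) j) = act ((M⁻¹ : GLp p) : Matrix _ _ _) (Xv u κ)

theorem coc_comp {κ : F → Mo p R} (hκ : IsCoc hu κ) {γ : MulAut F}
    (h1 : ∀ f, (Th hu (γ f)).s = (Th hu f).s)
    (h2 : ∀ f, (Th hu f).s = 0 → (Th hu (γ f)).a 0 = (Th hu f).a 0) : IsCoc hu (κ ∘ γ) := by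
  intro f g hf hg
  simp only [Function.comp_apply, map_mul]
  rw [hκ (γ f) (γ g) (by rw [h1, hf]) (by rw [h1, hg]), h2 f hf]

/-- The group of corresponding pairs. -/
def RelG : Subgroup (MulAut F × GLp p) where
  carrier := {t | Rel hu t.1 t.2}
  one_mem' := by
    refine ⟨fun f => rfl, fun f _ => rfl, 1, fun κ _ => ?_⟩
    have h : (((1 : MulAut F × GLp p).2⁻¹ : GLp p) : Matrix (ZMod p) (ZMod p) (ZMod p)) = 1 := by
      simp
    rw [h, act_one]
    funext j
    exact one_smul _ _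
  mul_mem' := by
    rintro ⟨γ, M⟩ ⟨δ, N⟩ ⟨h1, h2, l, h3⟩ ⟨k1, k2, m, k3⟩
    simp only at h1 h2 h3 k1 k2 k3
    refine ⟨fun f => ?_, fun f hf => ?_, l * m, fun κ hκ => ?_⟩
    · change (Th hu (γ (δ f))).s = _
      rw [h1, k1]
    · change (Th hu (γ (δ f))).a 0 = _
      rw [h2 _ (by rw [k1, hf]), k2 f hf]
    · have e1 : κ ∘ (((γ, M) * (δ, N) : MulAut F × GLp p).1 : MulAut F) = (κ ∘ γ) ∘ δ := rfl
      have e2 : (((((γ, M) * (δ, N) : MulAut F × GLp p).2)⁻¹ : GLp p) :
          Matrix (ZMod p) (ZMod p) (ZMod p)) =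
          ((N⁻¹ : GLp p) : Matrix _ _ _) * ((M⁻¹ : GLp p) : Matrix _ _ _) := by
        change (((M * N)⁻¹ : GLp p) : Matrix (ZMod p) (ZMod p) (ZMod p)) = _
        rw [mul_inv_rev, Units.val_mul]
      rw [e1, e2, act_mul, ← h3 κ hκ, act_smul, ← k3 _ (coc_comp hu hκ h1 h2)]
      funext j
      rw [Units.val_mul, mul_smul]
  inv_mem' := by
    rintro ⟨γ, M⟩ ⟨h1, h2, l, h3⟩
    simp only at h1 h2 h3
    have g1 : ∀ f, (Th hu (γ⁻¹ f)).s = (Th hu f).s := by
      intro f
      rw [← h1 (γ⁻¹ f), MulAut.apply_inv_self]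
    have g2 : ∀ f, (Th hu f).s = 0 → (Th hu (γ⁻¹ f)).a 0 = (Th hu f).a 0 := by
      intro f hf
      rw [← h2 (γ⁻¹ f) (by rw [g1, hf]), MulAut.apply_inv_self]
    refine ⟨g1, g2, l⁻¹, fun κ hκ => ?_⟩
    have h4 := h3 _ (coc_comp hu hκ g1 g2)
    have e1 : (κ ∘ (γ⁻¹ : MulAut F)) ∘ γ = κ := by
      funext f
      simp
    rw [e1] at h4
    have e2 : ((((γ, M)⁻¹ : MulAut F × GLp p).2⁻¹ : GLp p) : Matrix (ZMod p) (ZMod p) (ZMod p)) =
        (M : Matrix _ _ _) := by
      change (((M⁻¹)⁻¹ : GLp p) : Matrix (ZMod p) (ZMod p) (ZMod p)) = _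
      rw [inv_inv]
    rw [e2]
    change (fun j => ((l⁻¹ : Rˣ) : R) • Xv u (κ ∘ (γ⁻¹ : MulAut F)) j) = _
    have h5 : act (M : Matrix _ _ _) (act ((M⁻¹ : GLp p) : Matrix _ _ _)
        (Xv u (κ ∘ (γ⁻¹ : MulAut F)))) = Xv u (κ ∘ (γ⁻¹ : MulAut F)) := by
      rw [← act_mul, ← Units.val_mul, mul_inv_cancel, Units.val_one, act_one]
    rw [← h4, act_smul] at h5
    rw [← h5]
    funext j
    rw [smul_smul, Units.inv_mul, one_smul]

theorem mem_RelG {γ : MulAut F} {M : GLp p} : (γ, M) ∈ RelG hu ↔ Rel hu γ M := Iff.rfl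

end Run7.h551.AS
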