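import Mathlib
import Pool.Agent.Run7.h551.AS2

/-!
# The Artin-Schreier family, part three: rigidity and the two generators
-/

set_option linter.unusedSectionVars false

namespace Run7.h551.AS

open Run7.h551

variable {p : ℕ} [hp : Fact p.Prime] {R : Type*} [CommRing R] [Algebra (ZMod p) R] [CharP R p]

section rigid

variable {u : R} (hu : u ^ p = u + 1)

theorem algMap_inj : Function.Injective (algebraMap (ZMod p) R) := by
  have : Nontrivial R := CharP.nontrivial_of_char_ne_one (v := p) hp.out.one_lt.ne'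
  exact (algebraMap (ZMod p) R).injective

theorem w_sub_unit {i j : ZMod p} (h : i ≠ j) : IsUnit (w u i - w u j) := by
  have e : w u i - w u j = algebraMap (ZMod p) R (i - j) := by
    unfold w; rw [map_sub]; ring
  rw [e]
  exact (IsUnit.mk0 _ (sub_ne_zero.mpr h)).map (algebraMap (ZMod p) R)

theorem chi_inj {i : ZMod p} (h : chi hu 0 = chi hu i) : i = 0 := by
  have h1 : om hu 0 * om hu (i + 1) = om hu i * om hu (0 + 1) := by
    unfold chi at h
    rw [← div_eq_mul_inv, ← div_eq_mul_inv, div_eq_div_iff_mul_eq_mul] at h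
    exact h
  have h2 := congrArg (Units.val) h1
  simp only [Units.val_mul, om_val] at h2
  unfold w at h2
  apply algMap_inj (R := R)
  simp only [map_zero, map_add, map_one] at h2 ⊢
  linear_combination -h2

/-- Linear independence of the functionals. -/
theorem lin_indep {r : ZMod p → R} (h : ∑ k, r k • Xv u (be hu) k = 0) : r = 0 := by
  have h0 : ∑ k, r k * w u (0 : ZMod p) ^ k.val = 0 := by
    have := congrFun h none
    rw [Finset.sum_apply] at this
    simp only [Pi.smul_apply, Xv_be_none, smul_eq_mul, Pi.zero_apply] at this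
    rw [w_zero]
    exact this
  have h1 : ∀ i : ZMod p, ∑ k, r k * w u (i + 1) ^ k.val = ∑ k, r k * w u i ^ k.val := by
    intro i
    have h2 := congrFun h (some i)
    rw [Finset.sum_apply] at h2
    simp only [Pi.smul_apply, Xv_be_some, smul_eq_mul, Pi.zero_apply] at h2
    have h3 : w u (i + 1) * (∑ k, r k * w u (i + 1) ^ k.val - ∑ k, r k * w u i ^ k.val) = 0 := by
      rw [← h2, ← Finset.sum_sub_distrib, Finset.mul_sum]
      exact Finset.sum_congr rfl fun k _ => by ring
    have h4 : IsUnit (w u (i + 1)) := (om hu (i + 1)).isUnit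
    have h5 := (h4.mul_right_eq_zero).mp h3
    exact sub_eq_zero.mp h5
  have h2 : ∀ n : ℕ, ∑ k, r k * w u (n : ZMod p) ^ k.val = 0 := by
    intro n
    induction n with
    | zero => simpa using h0
    | succ n ih => rw [Nat.cast_succ, h1, ih]
  have h3 : ∀ n : ℕ, ∑ k : Fin p, r ((k : ℕ) : ZMod p) * w u (n : ZMod p) ^ (k : ℕ) = 0 := by
    intro n
    rw [← h2 n, ← sum_range_zmod (fun k : ZMod p => r k * w u (n : ZMod p) ^ k.val),
      Finset.sum_range (fun k : ℕ => r (k : ZMod p) * w u (n : ZMod p) ^ (k : ZMod p).val)]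
    refine Finset.sum_congr rfl fun k _ => ?_
    rw [ZMod.val_cast_of_lt k.isLt]
  have hdet : IsUnit (Matrix.vandermonde (fun i : Fin p => w u ((i : ℕ) : ZMod p))).det := by
    rw [Matrix.det_vandermonde]
    refine IsUnit.prod_univ_iff.mpr fun i => ?_
    rw [IsUnit.prod_iff]
    intro j hj
    apply w_sub_unit
    intro hij
    have h6 := congrArg ZMod.val hij
    rw [ZMod.val_cast_of_lt j.isLt, ZMod.val_cast_of_lt i.isLt] at h6
    rw [Finset.mem_Ioi] at hj
    exact absurd (Fin.ext h6) hj.ne'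
  have h4 : Matrix.mulVec (Matrix.vandermonde (fun i : Fin p => w u ((i : ℕ) : ZMod p)))
      (fun k : Fin p => r ((k : ℕ) : ZMod p)) = 0 := by
    funext i
    simp only [Matrix.mulVec, dotProduct, Matrix.vandermonde_apply, Pi.zero_apply]
    rw [← h3 i]
    exact Finset.sum_congr rfl fun k _ => mul_comm _ _
  have h5 := Matrix.mulVec_injective_of_isUnit ((Matrix.isUnit_iff_isUnit_det _).mpr hdet)
    (h4.trans (Matrix.mulVec_zero _).symm)
  funext k
  have h6 := congrFun h5 ⟨k.val, ZMod.val_lt k⟩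
  simpa using h6

theorem conj_be {g f : F} (hg : (Th hu g).s = 0) (hf : (Th hu f).s = 0)
    (ha : (Th hu f).a 0 = 1) :
    (Th hu (g * f * g⁻¹)).b 0 = ((Th hu g).a 0 : R) • (Th hu f).b 0 := by
  simp only [map_mul, map_inv, Wr.mul_b, Wr.mul_a, Wr.inv_b, Wr.inv_s, hg, hf, ha, neg_zero,
    add_zero, sub_zero, mul_one, smul_neg, smul_inv_smul]
  rw [Units.smul_def]
  abel

/-- Rigidity: inner automorphisms correspond to scalar matrices. -/
theorem inner_scalar {γ : MulAut F} {M : GLp p} (h : Rel hu γ M) (g : F)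
    (hg : ∀ f, Th hu (γ f) = Th hu (g * f * g⁻¹)) :
    ∀ i j : ZMod p, i ≠ j →
      ((M⁻¹ : GLp p) : Matrix (ZMod p) (ZMod p) (ZMod p)) i j = 0 := by
  obtain ⟨h1, h2, l, h3⟩ := h
  have hs : (Th hu g).s = 0 := by
    have e1 := h2 y (by simp [Y])
    rw [hg y] at e1
    have e2 : (Th hu (g * y * g⁻¹)).a 0 = chi hu (-(Th hu g).s) := by
      simp only [map_mul, map_inv, Wr.mul_a, Wr.inv_a, Wr.inv_s, Th_y, Y]
      simp only [zero_add, zero_sub, add_zero]
      rw [mul_comm, inv_mul_cancel_left]
    rw [e2] at e1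
    have e3 : (Th hu y).a 0 = chi hu 0 := by simp [Y]
    rw [e3] at e1
    have := chi_inj hu e1.symm
    exact neg_eq_zero.mp this
  have h4 : ∀ j, Xv u (be hu ∘ γ) j = ((Th hu g).a 0 : R) • Xv u (be hu) j := by
    intro j
    unfold Xv Xf
    have : (be hu ∘ γ) (z p j.val) = ((Th hu g).a 0 : R) • be hu (z p j.val) := by
      have e4 := conj_be hu hs (Th_z_s hu j.val) (Th_z_a hu j.val)
      rw [← hg] at e4
      exact e4
    rw [this, smul_comm]
  intro i j hij
  have h5 := congrFun (h3 _ (be_coc hu)) i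
  rw [h4] at h5
  set N := ((M⁻¹ : GLp p) : Matrix (ZMod p) (ZMod p) (ZMod p)) with hN
  have h6 : ∑ k, (algebraMap (ZMod p) R (N i k) -
      (if k = i then (l : R) * ((Th hu g).a 0 : R) else 0)) • Xv u (be hu) k = 0 := by
    simp_rw [sub_smul]
    rw [Finset.sum_sub_distrib]
    have e5 : ∑ k, (if k = i then (l : R) * ((Th hu g).a 0 : R) else 0) • Xv u (be hu) k =
        ((l : R) * ((Th hu g).a 0 : R)) • Xv u (be hu) i := by
      rw [Finset.sum_eq_single i]
      · simp
      · intro k _ hk; simp [hk]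
      · intro hh; exact absurd (Finset.mem_univ i) hh
    rw [e5, mul_smul, h5]
    unfold act
    rw [sub_self]
  have h7 := congrFun (lin_indep hu h6) j
  simp only [Pi.zero_apply] at h7
  rw [if_neg (Ne.symm hij), sub_zero] at h7
  exact algMap_inj (R := R) (by rw [h7, map_zero])

end rigid

end Run7.h551.AS
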