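import Mathlib
import Pool.Agent.Run7.h551.AS3

/-!
# The Artin-Schreier family, part four: the two generators and the matrix group
-/

set_option linter.unusedSectionVars false

namespace Run7.h551.AS

open Run7.h551

/-- The automorphism `x ↦ x`, `y ↦ x ^ n * y`. -/
def Aaut (n : ℕ) : MulAut F :=
  MonoidHom.toMulEquiv (FreeGroup.lift ![x, x ^ n * y]) (FreeGroup.lift ![x, (x ^ n)⁻¹ * y])
    (by
      apply FreeGroup.ext_hom
      intro i
      fin_cases i <;> simp)
    (by
      apply FreeGroup.ext_hom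
      intro i
      fin_cases i <;> simp)

/-- The automorphism `x ↦ x * y`, `y ↦ y`. -/
def Baut : MulAut F :=
  MonoidHom.toMulEquiv (FreeGroup.lift ![x * y, y]) (FreeGroup.lift ![x * y⁻¹, y])
    (by
      apply FreeGroup.ext_hom
      intro i
      fin_cases i <;> simp)
    (by
      apply FreeGroup.ext_hom
      intro i
      fin_cases i <;> simp)

@[simp] theorem Aaut_x (n : ℕ) : Aaut n x = x := by
  change (FreeGroup.lift ![x, x ^ n * y]) x = x
  simp
@[simp] theorem Aaut_y (n : ℕ) : Aaut n y = x ^ n * y := by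
  change (FreeGroup.lift ![x, x ^ n * y]) y = _
  simp
@[simp] theorem Baut_x : Baut x = x * y := by
  change (FreeGroup.lift ![x * y, y]) x = _
  simp
@[simp] theorem Baut_y : Baut y = y := by
  change (FreeGroup.lift ![x * y, y]) y = _
  simp

variable {p : ℕ} [hp : Fact p.Prime] {R : Type*} [CommRing R] [Algebra (ZMod p) R] [CharP R p]

section gens

variable {u : R} (hu : u ^ p = u + 1)

/-- Twisted compatibility on generators propagates. -/
theorem twisted {γ : MulAut F} (D : ZMod p → Rˣ)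
    (h : ∀ t : Fin 2, (Th hu (γ (FreeGroup.of t))).s = (Th hu (FreeGroup.of t)).s ∧
      ∀ i, (Th hu (γ (FreeGroup.of t))).a i * D i =
        D (i + (Th hu (FreeGroup.of t)).s) * (Th hu (FreeGroup.of t)).a i) (f : F) :
    (Th hu (γ f)).s = (Th hu f).s ∧
      ∀ i, (Th hu (γ f)).a i * D i = D (i + (Th hu f).s) * (Th hu f).a i := by
  have hinv : ∀ g : F, ((Th hu (γ g)).s = (Th hu g).s ∧
      ∀ i, (Th hu (γ g)).a i * D i = D (i + (Th hu g).s) * (Th hu g).a i) →
      ((Th hu (γ g⁻¹)).s = (Th hu g⁻¹).s ∧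
      ∀ i, (Th hu (γ g⁻¹)).a i * D i = D (i + (Th hu g⁻¹).s) * (Th hu g⁻¹).a i) := by
    rintro g ⟨h1, h2⟩
    refine ⟨by simp [h1], fun i => ?_⟩
    have h3 := h2 (i - (Th hu g).s)
    rw [sub_add_cancel] at h3
    simp only [map_inv, Wr.inv_a, Wr.inv_s, h1]
    rw [← sub_eq_add_neg, inv_mul_eq_iff_eq_mul, ← mul_assoc, h3, mul_inv_cancel_right]
  induction f using FreeGroup.induction_on with
  | C1 => exact ⟨by simp, fun i => by simp⟩
  | of t => exact h t
  | inv_of t _ => exact hinv _ (h t)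
  | mul f g ihf ihg =>
    refine ⟨by simp [ihf.1, ihg.1], fun i => ?_⟩
    simp only [map_mul, Wr.mul_a, Wr.mul_s, ihg.1]
    rw [mul_assoc, ihg.2 i, ← mul_assoc, ihf.2, mul_assoc, add_assoc,
      add_comm (Th hu g).s (Th hu f).s]

theorem twisted_a {γ : MulAut F} (D : ZMod p → Rˣ)
    (h : ∀ t : Fin 2, (Th hu (γ (FreeGroup.of t))).s = (Th hu (FreeGroup.of t)).s ∧
      ∀ i, (Th hu (γ (FreeGroup.of t))).a i * D i =
        D (i + (Th hu (FreeGroup.of t)).s) * (Th hu (FreeGroup.of t)).a i) (f : F)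
    (hf : (Th hu f).s = 0) : (Th hu (γ f)).a 0 = (Th hu f).a 0 := by
  have h2 := (twisted hu D h f).2 0
  rw [hf, add_zero, mul_comm (D 0)] at h2
  exact mul_right_cancel h2

theorem A_tw : ∀ t : Fin 2, (Th hu (Aaut p (FreeGroup.of t))).s = (Th hu (FreeGroup.of t)).s ∧
      ∀ i, (Th hu (Aaut p (FreeGroup.of t))).a i * (fun _ => (1 : Rˣ)) i =
        (fun _ => (1 : Rˣ)) (i + (Th hu (FreeGroup.of t)).s) * (Th hu (FreeGroup.of t)).a i := by
  intro t
  fin_cases t
  · change (Th hu (Aaut p x)).s = (Th hu x).s ∧ ∀ i, (Th hu (Aaut p x)).a i * 1 =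
      1 * (Th hu x).a i
    simp
  · change (Th hu (Aaut p y)).s = (Th hu y).s ∧ ∀ i, (Th hu (Aaut p y)).a i * 1 =
      1 * (Th hu y).a i
    rw [Aaut_y, map_mul]
    refine ⟨?_, fun i => ?_⟩
    · rw [Wr.mul_s, Th_xpow_s]; simp
    · rw [Wr.mul_a, Th_xpow_a]; simp

theorem B_tw : ∀ t : Fin 2, (Th hu (Baut (FreeGroup.of t))).s = (Th hu (FreeGroup.of t)).s ∧
      ∀ i, (Th hu (Baut (FreeGroup.of t))).a i * (fun i => (om hu i)⁻¹) i =
        (fun i => (om hu i)⁻¹) (i + (Th hu (FreeGroup.of t)).s) *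
          (Th hu (FreeGroup.of t)).a i := by
  intro t
  fin_cases t
  · change (Th hu (Baut x)).s = (Th hu x).s ∧ ∀ i, (Th hu (Baut x)).a i * (om hu i)⁻¹ =
      (om hu (i + (Th hu x).s))⁻¹ * (Th hu x).a i
    rw [Baut_x, map_mul]
    refine ⟨?_, fun i => ?_⟩
    · simp [X, Y]
    · rw [Wr.mul_a]
      simp only [Th_x, Th_y, X, Y, chi]
      rw [one_mul, mul_one, mul_comm (om hu i), mul_inv_cancel_right]
  · change (Th hu (Baut y)).s = (Th hu y).s ∧ ∀ i, (Th hu (Baut y)).a i * (om hu i)⁻¹ =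
      (om hu (i + (Th hu y).s))⁻¹ * (Th hu y).a i
    rw [Baut_y]
    refine ⟨rfl, fun i => ?_⟩
    simp only [Th_y, Y, add_zero]
    rw [mul_comm]

/-- Elementary matrices as units. -/
def tv (i j : ZMod p) (h : i ≠ j) (c : ZMod p) : GLp p where
  val := Matrix.transvection i j c
  inv := Matrix.transvection i j (-c)
  val_inv := by
    rw [Matrix.transvection_mul_transvection_same _ _ h, add_neg_cancel, Matrix.transvection_zero]
  inv_val := by
    rw [Matrix.transvection_mul_transvection_same _ _ h, neg_add_cancel, Matrix.transvection_zero]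

/-- The cyclic permutation matrix. -/
def Cy : GLp p where
  val := Matrix.of fun j k => if k = j + 1 then 1 else 0
  inv := Matrix.of fun j k => if j = k + 1 then 1 else 0
  val_inv := by
    ext i j
    simp [Matrix.mul_apply, Matrix.one_apply, eq_comm]
  inv_val := by
    ext i j
    rw [Matrix.mul_apply, Finset.sum_eq_single (i - 1)]
    · simp [Matrix.one_apply, eq_comm]
    · intro k _ hk
      simp only [Matrix.of_apply]
      rw [if_neg]
      · simp
      · intro h; apply hk; rw [h]; ring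
    · intro h; exact absurd (Finset.mem_univ _) h

theorem act_transv (i j : ZMod p) (c : ZMod p) (V : ZMod p → Mo p R) (k : ZMod p) :
    act (Matrix.transvection i j c) V k =
      V k + if k = i then algebraMap (ZMod p) R c • V j else 0 := by
  unfold act Matrix.transvection
  simp_rw [Matrix.add_apply, map_add, add_smul]
  rw [Finset.sum_add_distrib]
  congr 1
  · have := congrFun (act_one V) k
    exact this
  · by_cases h : k = i
    · subst h
      rw [if_pos rfl, Finset.sum_eq_single j]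
      · simp [Matrix.single]
      · intro l _ hl
        simp [Matrix.single, Ne.symm hl]
      · intro hh; exact absurd (Finset.mem_univ _) hh
    · rw [if_neg h]
      apply Finset.sum_eq_zero
      intro l _
      simp [Matrix.single, Ne.symm h]

theorem act_Cy (V : ZMod p → Mo p R) (k : ZMod p) :
    act ((Cy : GLp p) : Matrix (ZMod p) (ZMod p) (ZMod p)) V k = V (k + 1) := by
  unfold act Cy
  simp only [Matrix.of_apply]
  rw [Finset.sum_eq_single (k + 1)]
  · simp
  · intro l _ hl; simp [hl]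
  · intro hh; exact absurd (Finset.mem_univ _) hh

theorem neg_one_ne_zero' : (-1 : ZMod p) ≠ 0 := neg_ne_zero.mpr one_ne_zero

theorem Aaut_yi (k : ℕ) : Aaut p (yi k) = x ^ p * yi k := by
  unfold yi
  simp only [map_mul, map_inv, map_pow, Aaut_x, Aaut_y]
  have h : (x ^ k)⁻¹ * x ^ p = x ^ p * (x ^ k)⁻¹ := by group
  rw [← mul_assoc, h]
  group

theorem rel_A : Rel hu (Aaut p) (tv (-1) 0 neg_one_ne_zero' 1)⁻¹ := by
  have h1 : ∀ f, (Th hu (Aaut p f)).s = (Th hu f).s := fun f => (twisted hu _ (A_tw hu) f).1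
  have h2 : ∀ f, (Th hu f).s = 0 → (Th hu (Aaut p f)).a 0 = (Th hu f).a 0 :=
    fun f hf => twisted_a hu _ (A_tw hu) f hf
  refine ⟨h1, h2, 1, fun κ hκ => ?_⟩
  rw [inv_inv]
  change _ = act (Matrix.transvection (-1) 0 1) _
  funext j
  rw [act_transv, map_one, one_smul, Units.val_one, one_smul]
  have hc := coc_comp hu hκ h1 h2
  have e0 : Xv u κ 0 = κ (x ^ p) := by
    unfold Xv; rw [ZMod.val_zero, Xf_zero]
  rw [e0]
  have e1 : ∀ i : ℕ, (κ ∘ (Aaut p)) (yi i) = κ (x ^ p) + κ (yi i) := by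
    intro i
    simp only [Function.comp_apply]
    rw [Aaut_yi, hκ _ _ (by rw [Th_xpow_s]; simp) (Th_yi_s hu i), Th_xpow_a]
    simp
  have e2 : (κ ∘ (Aaut p)) (x ^ p) = κ (x ^ p) := by simp
  unfold Xv Xf
  rw [coc_z hu hc, coc_z hu hκ, e2]
  simp_rw [e1, smul_add]
  rw [Finset.sum_add_distrib, ← Finset.sum_smul, sum_S]
  have e3 : (-∑ i : ZMod p, w u i ^ j.val) • κ (x ^ p) = if j = -1 then κ (x ^ p) else 0 := by
    have hlt := ZMod.val_lt j
    have h2p := hp.out.two_le
    by_cases hj : j.val = p - 1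
    · have hj' : j = -1 := by
        rw [← ZMod.natCast_zmod_val j, hj, Nat.cast_sub (by omega)]
        simp
      rw [if_pos hj', hj, sum_w_pow', neg_neg, one_smul]
    · have hj' : j ≠ -1 := by
        intro h
        apply hj
        rw [h, ZMod.neg_val, ZMod.val_one, if_neg one_ne_zero]
      rw [if_neg hj', sum_w_pow u (by omega), neg_zero, zero_smul]
  rw [e3]
  abel

theorem rel_B : Rel hu Baut (Cy * tv 0 1 zero_ne_one 1)⁻¹ := by
  have h1 : ∀ f, (Th hu (Baut f)).s = (Th hu f).s := fun f => (twisted hu _ (B_tw hu) f).1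
  have h2 : ∀ f, (Th hu f).s = 0 → (Th hu (Baut f)).a 0 = (Th hu f).a 0 :=
    fun f hf => twisted_a hu _ (B_tw hu) f hf
  refine ⟨h1, h2, om hu 0, fun κ hκ => ?_⟩
  rw [inv_inv, Units.val_mul, act_mul]
  change _ = act _ (act (Matrix.transvection 0 1 1) _)
  funext j
  rw [act_Cy, act_transv, map_one, one_smul, om_val, w_zero]
  have e1 : u • Xv u (κ ∘ Baut) j = Xf u κ (j.val + 1) := by
    unfold Xv Xf
    rw [smul_smul, ← pow_succ']
    congr 1
    simp only [Function.comp_apply, z, map_pow, map_mul, Baut_x, Baut_y]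
    rw [mul_assoc, ← pow_succ']
  rw [e1]
  have hlt := ZMod.val_lt j
  have h2p := hp.out.two_le
  have hv1 : (1 : ZMod p).val = 1 := by
    have : Fact (1 < p) := ⟨hp.out.one_lt⟩
    exact ZMod.val_one p
  by_cases hj : j.val = p - 1
  · have hj' : j + 1 = 0 := by
      rw [← ZMod.natCast_zmod_val j, hj, Nat.cast_sub (by omega)]
      simp
    rw [hj', if_pos rfl, hj]
    have e2 : p - 1 + 1 = p := by omega
    rw [e2, Xf_p hu hκ]
    unfold Xv
    rw [hv1, ZMod.val_zero]
    abel
  · have hval : (j + 1).val = j.val + 1 := by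
      rw [ZMod.val_add_of_lt] <;> rw [hv1]
      omega
    have hj' : j + 1 ≠ 0 := by
      intro h
      rw [h, ZMod.val_zero] at hval
      omega
    rw [if_neg hj', add_zero]
    unfold Xv
    rw [hval]

end gens

end Run7.h551.AS
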