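import Mathlib
import Pool.Agent.Run7.h551.AS4

/-!
# The Artin-Schreier family, part five: permutations
-/

set_option linter.unusedSectionVars false
set_option linter.unusedSimpArgs false

namespace Run7.h551.AS

open Run7.h551

variable {p : ℕ} [hp : Fact p.Prime] {R : Type*} [CommRing R] [Algebra (ZMod p) R] [CharP R p]

theorem tv_Cy (i j : ZMod p) (h : i ≠ j) (h' : i + 1 ≠ j + 1) (c : ZMod p) :
    tv i j h c * Cy = Cy * tv (i + 1) (j + 1) h' c := by
  apply Units.ext
  rw [Units.val_mul, Units.val_mul]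
  ext a b
  change (Matrix.transvection i j c * ((Cy : GLp p) : Matrix (ZMod p) (ZMod p) (ZMod p))) a b =
    (((Cy : GLp p) : Matrix (ZMod p) (ZMod p) (ZMod p)) *
      Matrix.transvection (i + 1) (j + 1) c) a b
  by_cases ha : a = i
  · subst ha
    rw [Matrix.transvection_mul_apply_same]
    by_cases hb : b = j + 1
    · subst hb
      rw [Matrix.mul_transvection_apply_same]
      simp [Cy]
    · rw [Matrix.mul_transvection_apply_of_ne _ _ _ _ hb]
      simp [Cy, hb]
  · rw [Matrix.transvection_mul_apply_of_ne _ _ _ _ ha]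
    by_cases hb : b = j + 1
    · subst hb
      rw [Matrix.mul_transvection_apply_same]
      simp [Cy, Ne.symm ha]
    · rw [Matrix.mul_transvection_apply_of_ne _ _ _ _ hb]

theorem tv_comm {i j k : ZMod p} (hij : i ≠ j) (hjk : j ≠ k) (hik : i ≠ k) :
    tv i j hij 1 * tv j k hjk 1 * (tv i j hij 1)⁻¹ * (tv j k hjk 1)⁻¹ = tv i k hik 1 := by
  have h : tv i j hij 1 * tv j k hjk 1 = tv i k hik 1 * tv j k hjk 1 * tv i j hij 1 := by
    apply Units.ext
    simp only [Units.val_mul]
    change Matrix.transvection i j (1 : ZMod p) * Matrix.transvection j k 1 =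
      Matrix.transvection i k 1 * Matrix.transvection j k 1 * Matrix.transvection i j 1
    unfold Matrix.transvection
    simp only [Matrix.add_mul, Matrix.mul_add, Matrix.one_mul, Matrix.mul_one]
    rw [Matrix.single_mul_single_same, Matrix.single_mul_single_of_ne _ _ _ _ hjk.symm,
      Matrix.single_mul_single_of_ne _ _ _ _ hik.symm,
      Matrix.single_mul_single_of_ne _ _ _ _ hik.symm]
    simp only [Matrix.zero_mul, mul_one]
    abel
  rw [h]
  group

/-- `M` is monomial with underlying permutation `π`. -/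
def IsMono (M : GLp p) (π : Equiv.Perm (ZMod p)) : Prop :=
  ∀ a b, (M : Matrix (ZMod p) (ZMod p) (ZMod p)) a b ≠ 0 ↔ a = π b

theorem IsMono.one : IsMono (1 : GLp p) 1 := by
  intro a b
  rw [Units.val_one, Matrix.one_apply]
  simp

theorem IsMono.mul {M N : GLp p} {π ρ : Equiv.Perm (ZMod p)} (hM : IsMono M π)
    (hN : IsMono N ρ) : IsMono (M * N) (π * ρ) := by
  intro a b
  rw [Units.val_mul, Matrix.mul_apply, Finset.sum_eq_single (ρ b)]
  · rw [mul_ne_zero_iff, hM, hN]
    simp
  · intro k _ hk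
    have : (N : Matrix (ZMod p) (ZMod p) (ZMod p)) k b = 0 := by
      by_contra h
      exact hk ((hN k b).mp h)
    rw [this, mul_zero]
  · intro h; exact absurd (Finset.mem_univ _) h

theorem IsMono.inv {M : GLp p} {π : Equiv.Perm (ZMod p)} (hM : IsMono M π) :
    IsMono M⁻¹ π⁻¹ := by
  intro a b
  have h : (M : Matrix (ZMod p) (ZMod p) (ZMod p)) * (M⁻¹ : GLp p).val = 1 := by
    rw [← Units.val_mul, mul_inv_cancel, Units.val_one]
  have h2 := congrFun (congrFun h (π a)) b
  rw [Matrix.mul_apply, Finset.sum_eq_single a] at h2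
  · have h3 : (M : Matrix (ZMod p) (ZMod p) (ZMod p)) (π a) a ≠ 0 := (hM _ _).mpr rfl
    have h4 : (M⁻¹ : GLp p).val a b ≠ 0 ↔ (M : Matrix (ZMod p) (ZMod p) (ZMod p)) (π a) a *
        (M⁻¹ : GLp p).val a b ≠ 0 := by
      rw [mul_ne_zero_iff]; simp [h3]
    rw [h4, h2, Matrix.one_apply]
    rw [Equiv.Perm.eq_inv_iff_eq]
    simp
  · intro k _ hk
    have : (M : Matrix (ZMod p) (ZMod p) (ZMod p)) (π a) k = 0 := by
      by_contra h5
      have := (hM (π a) k).mp h5
      exact hk (π.injective this).symm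
    rw [this, zero_mul]
  · intro h; exact absurd (Finset.mem_univ _) h

theorem w_mono {i j : ZMod p} (hij : i ≠ j) :
    IsMono (tv i j hij 1 * (tv j i hij.symm 1)⁻¹ * tv i j hij 1) (Equiv.swap i j) := by
  intro a b
  have e : ((tv i j hij 1 * (tv j i hij.symm 1)⁻¹ * tv i j hij 1 : GLp p) :
      Matrix (ZMod p) (ZMod p) (ZMod p)) =
      1 + Matrix.single i j 1 - Matrix.single j i 1 - Matrix.single i i 1 -
        Matrix.single j j 1 := by
    simp only [Units.val_mul]
    change Matrix.transvection i j (1 : ZMod p) * Matrix.transvection j i (-1) *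
      Matrix.transvection i j 1 = _
    unfold Matrix.transvection
    simp only [Matrix.add_mul, Matrix.mul_add, Matrix.one_mul, Matrix.mul_one]
    rw [Matrix.single_mul_single_same, Matrix.single_mul_single_same,
      Matrix.single_mul_single_same, Matrix.single_mul_single_of_ne _ _ _ _ hij.symm]
    have hs : ∀ a b : ZMod p, Matrix.single a b (-1 : ZMod p) = -Matrix.single a b 1 := by
      intro a b
      ext c d
      rw [Matrix.neg_apply, Matrix.single_apply, Matrix.single_apply]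
      split_ifs <;> simp
    simp only [mul_neg, mul_one, hs]
    abel
  rw [e]
  simp only [Matrix.add_apply, Matrix.sub_apply, Matrix.one_apply, Matrix.single_apply]
  by_cases hb : b = i
  · subst hb
    rw [Equiv.swap_apply_left]
    by_cases ha : a = b
    · subst ha; simp [hij, hij.symm]
    · by_cases ha' : a = j
      · subst ha'; simp [hij, hij.symm]
      · simp [ha, ha', Ne.symm ha, Ne.symm ha', hij, hij.symm]
  · by_cases hb' : b = j
    · subst hb'
      rw [Equiv.swap_apply_right]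
      by_cases ha : a = i
      · subst ha; simp [hij, hij.symm]
      · by_cases ha' : a = b
        · subst ha'; simp [hij, hij.symm, ha, Ne.symm ha]
        · simp [ha, ha', Ne.symm ha, Ne.symm ha', hij, hij.symm]
    · rw [Equiv.swap_apply_of_ne_of_ne hb hb']
      by_cases ha : a = b
      · subst ha; simp [hb, hb', Ne.symm hb, Ne.symm hb']
      · simp [hb, hb', Ne.symm hb, Ne.symm hb', ha]

section grp

variable {u : R} (hu : u ^ p = u + 1)

/-- The matrices in the correspondence. -/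
def matG : Subgroup (GLp p) := (RelG hu).map (MonoidHom.snd (MulAut F) (GLp p))

theorem mem_matG {M : GLp p} : M ∈ matG hu ↔ ∃ γ, Rel hu γ M := by
  constructor
  · rintro ⟨⟨γ, N⟩, h, rfl⟩
    exact ⟨γ, h⟩
  · rintro ⟨γ, h⟩
    exact ⟨(γ, M), h, rfl⟩

theorem g1 : tv (-1) 0 neg_one_ne_zero' 1 ∈ matG hu := by
  have h : (tv (-1) 0 neg_one_ne_zero' 1 : GLp p)⁻¹ ∈ matG hu :=
    (mem_matG hu).mpr ⟨_, rel_A hu⟩
  simpa using inv_mem h

theorem g2 : Cy * tv 0 1 zero_ne_one 1 ∈ matG hu := by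
  have h : (Cy * tv 0 1 zero_ne_one 1 : GLp p)⁻¹ ∈ matG hu :=
    (mem_matG hu).mpr ⟨_, rel_B hu⟩
  simpa only [inv_inv] using inv_mem h

theorem g3 : tv 0 1 zero_ne_one 1 ∈ matG hu := by
  have h := mul_mem (mul_mem (inv_mem (g2 hu)) (g1 hu)) (g2 hu)
  have hc := tv_Cy (p := p) (-1) 0 neg_one_ne_zero' (by simp) 1
  have e : (Cy * tv 0 1 zero_ne_one 1 : GLp p)⁻¹ * tv (-1) 0 neg_one_ne_zero' 1 *
      (Cy * tv 0 1 zero_ne_one 1) = tv 0 1 zero_ne_one 1 := by
    have hc' : tv (-1) 0 neg_one_ne_zero' 1 * Cy = Cy * (tv 0 1 zero_ne_one 1 : GLp p) := by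
      rw [hc]
      congr 1
      apply Units.ext
      change Matrix.transvection (-1 + 1) (0 + 1) (1 : ZMod p) = Matrix.transvection 0 1 1
      rw [neg_add_cancel, zero_add]
    rw [mul_inv_rev, mul_assoc, mul_assoc, ← mul_assoc (tv (-1) 0 neg_one_ne_zero' 1) Cy, hc']
    group
  rw [e] at h
  exact h

theorem g4 : Cy ∈ matG hu := by
  have h := mul_mem (g2 hu) (inv_mem (g3 hu))
  rw [mul_inv_cancel_right] at h
  exact h

theorem add_one_ne (i : ZMod p) : i ≠ i + 1 := by
  intro h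
  exact one_ne_zero (left_eq_add.mp h)

theorem g5 (n : ℕ) : tv (n : ZMod p) (n + 1) (add_one_ne _) 1 ∈ matG hu := by
  induction n with
  | zero =>
    have e : tv ((0 : ℕ) : ZMod p) ((0 : ℕ) + 1) (add_one_ne _) 1 = tv 0 1 zero_ne_one 1 := by
      apply Units.ext
      change Matrix.transvection ((0 : ℕ) : ZMod p) (((0 : ℕ) : ZMod p) + 1) (1 : ZMod p) =
        Matrix.transvection 0 1 1
      rw [Nat.cast_zero, zero_add]
    rw [e]
    exact g3 hu
  | succ n ih =>
    have hc := tv_Cy (n : ZMod p) (n + 1) (add_one_ne _) (add_one_ne _) 1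
    have h := mul_mem (mul_mem (inv_mem (g4 hu)) ih) (g4 hu)
    rw [mul_assoc, hc, inv_mul_cancel_left] at h
    have e : tv ((n + 1 : ℕ) : ZMod p) ((n + 1 : ℕ) + 1) (add_one_ne _) 1 =
        tv ((n : ZMod p) + 1) ((n : ZMod p) + 1 + 1) (add_one_ne _) 1 := by
      apply Units.ext
      change Matrix.transvection ((n + 1 : ℕ) : ZMod p) (((n + 1 : ℕ) : ZMod p) + 1) (1 : ZMod p) =
        Matrix.transvection ((n : ZMod p) + 1) ((n : ZMod p) + 1 + 1) 1
      rw [Nat.cast_succ]
    rw [e]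
    exact h

theorem g5' (i : ZMod p) : tv i (i + 1) (add_one_ne _) 1 ∈ matG hu := by
  have h := g5 hu i.val
  have e : tv ((i.val : ℕ) : ZMod p) ((i.val : ℕ) + 1) (add_one_ne _) 1 =
      tv i (i + 1) (add_one_ne _) 1 := by
    apply Units.ext
    change Matrix.transvection ((i.val : ℕ) : ZMod p) (((i.val : ℕ) : ZMod p) + 1) (1 : ZMod p) =
        Matrix.transvection i (i + 1) 1
    rw [ZMod.natCast_zmod_val]
  rw [e] at h
  exact h

theorem natCast_ne_zero' {k : ℕ} (h1 : 1 ≤ k) (h2 : k < p) : (k : ZMod p) ≠ 0 := by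
  intro h
  rw [ZMod.natCast_eq_zero_iff] at h
  have := Nat.le_of_dvd (by omega) h
  omega

theorem ne_add_nat (i : ZMod p) {k : ℕ} (h1 : 1 ≤ k) (h2 : k < p) : i ≠ i + (k : ZMod p) := by
  intro h
  exact natCast_ne_zero' h1 h2 (left_eq_add.mp h)

theorem g6 (k : ℕ) (h1 : 1 ≤ k) (h2 : k < p) (i : ZMod p) :
    tv i (i + (k : ZMod p)) (ne_add_nat i h1 h2) 1 ∈ matG hu := by
  induction k, h1 using Nat.le_induction with
  | base =>
    have e : tv i (i + ((1 : ℕ) : ZMod p)) (ne_add_nat i le_rfl h2) 1 =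
        tv i (i + 1) (add_one_ne _) 1 := by
      apply Units.ext
      change Matrix.transvection i (i + ((1 : ℕ) : ZMod p)) (1 : ZMod p) =
        Matrix.transvection i (i + 1) 1
      rw [Nat.cast_one]
    rw [e]
    exact g5' hu i
  | succ k hk ih =>
    have ih' := ih (by omega)
    have h3 : i + (k : ZMod p) ≠ i + (k : ZMod p) + 1 := add_one_ne _
    have h4 : i ≠ i + (k : ZMod p) + 1 := by
      have := ne_add_nat i (k := k + 1) (by omega) h2
      rw [Nat.cast_succ, ← add_assoc] at this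
      exact this
    have hc := tv_comm (ne_add_nat i hk (by omega)) h3 h4
    have e : tv i (i + ((k + 1 : ℕ) : ZMod p)) (ne_add_nat i (by omega) h2) 1 =
        tv i (i + (k : ZMod p) + 1) h4 1 := by
      apply Units.ext
      change Matrix.transvection i (i + ((k + 1 : ℕ) : ZMod p)) (1 : ZMod p) =
        Matrix.transvection i (i + (k : ZMod p) + 1) 1
      rw [Nat.cast_succ, add_assoc]
    rw [e, ← hc]
    exact mul_mem (mul_mem (mul_mem ih' (g5' hu _)) (inv_mem ih')) (inv_mem (g5' hu _))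

theorem g7 (i j : ZMod p) (h : i ≠ j) : tv i j h 1 ∈ matG hu := by
  have hlt := ZMod.val_lt (j - i)
  have h1 : 1 ≤ (j - i).val := by
    rcases Nat.eq_zero_or_pos (j - i).val with h0 | h0
    · rw [ZMod.val_eq_zero, sub_eq_zero] at h0
      exact absurd h0.symm h
    · exact h0
  have h2 := g6 hu _ h1 hlt i
  have e : tv i (i + ((j - i).val : ZMod p)) (ne_add_nat i h1 hlt) 1 = tv i j h 1 := by
    apply Units.ext
    change Matrix.transvection i (i + ((j - i).val : ZMod p)) (1 : ZMod p) =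
        Matrix.transvection i j 1
    rw [ZMod.natCast_zmod_val, add_sub_cancel]
  rw [e] at h2
  exact h2

/-- The correspondence between automorphisms and permutations. -/
def permG : Subgroup (MulAut F × Equiv.Perm (ZMod p)) where
  carrier := {t | ∃ M : GLp p, Rel hu t.1 M ∧ IsMono M t.2}
  one_mem' := ⟨1, (RelG hu).one_mem, IsMono.one⟩
  mul_mem' := by
    rintro ⟨γ, π⟩ ⟨δ, ρ⟩ ⟨M, h1, h2⟩ ⟨N, h3, h4⟩
    exact ⟨M * N, (RelG hu).mul_mem (x := (γ, M)) (y := (δ, N)) h1 h3, h2.mul h4⟩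
  inv_mem' := by
    rintro ⟨γ, π⟩ ⟨M, h1, h2⟩
    exact ⟨M⁻¹, (RelG hu).inv_mem (x := (γ, M)) h1, h2.inv⟩

theorem permG_surj (π : Equiv.Perm (ZMod p)) : ∃ t ∈ permG hu, t.2 = π := by
  have h : (permG hu).map (MonoidHom.snd _ _) = ⊤ := by
    rw [eq_top_iff, ← Equiv.Perm.closure_isSwap, Subgroup.closure_le]
    rintro σ ⟨i, j, hij, rfl⟩
    have hm : tv i j hij 1 * (tv j i hij.symm 1)⁻¹ * tv i j hij 1 ∈ matG hu :=
      mul_mem (mul_mem (g7 hu i j hij) (inv_mem (g7 hu j i hij.symm))) (g7 hu i j hij)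
    obtain ⟨γ, hγ⟩ := (mem_matG hu).mp hm
    exact ⟨(γ, Equiv.swap i j), ⟨_, hγ, w_mono hij⟩, rfl⟩
  have h2 : π ∈ (permG hu).map (MonoidHom.snd _ _) := by rw [h]; trivial
  obtain ⟨t, ht, rfl⟩ := h2
  exact ⟨t, ht, rfl⟩

theorem permG_rigid {γ : MulAut F} {π : Equiv.Perm (ZMod p)} (h : (γ, π) ∈ permG hu) (g : F)
    (hg : ∀ f, Th hu (γ f) = Th hu (g * f * g⁻¹)) : π = 1 := by
  obtain ⟨M, h1, h2⟩ := h
  have h3 := inner_scalar hu h1 g hg
  have h4 := h2.inv
  have h5 : π⁻¹ = 1 := by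
    ext1 b
    by_contra hb
    have h6 := (h4 (π⁻¹ b) b).mpr rfl
    exact h6 (h3 _ _ (by simpa using hb))
  simpa using h5

end grp

end Run7.h551.AS
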