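import Mathlib
import Pool.Agent.Run7.h551.AS5

/-!
# The Artin-Schreier family, part six: assembly
-/

set_option linter.unusedSectionVars false

namespace Run7.h551

/-- Internal form of `PhiQ r`. -/
abbrev PhiQ (r : ℕ) := FreeGroup (Fin 2) ⧸ derivedSeries (FreeGroup (Fin 2)) r

/-- Induced automorphisms on the quotient by a characteristic subgroup. -/
def indAut {G : Type*} [Group G] (N : Subgroup G) [N.Characteristic] :
    MulAut G →* MulAut (G ⧸ N) where
  toFun γ := QuotientGroup.congr N N γ (Subgroup.characteristic_iff_map_eq.mp inferInstance γ)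
  map_one' := by
    ext f
    induction f using QuotientGroup.induction_on
    rfl
  map_mul' γ δ := by
    ext f
    induction f using QuotientGroup.induction_on
    rfl

theorem indAut_mk {G : Type*} [Group G] (N : Subgroup G) [N.Characteristic] (γ : MulAut G)
    (f : G) : indAut N γ (QuotientGroup.mk f) = QuotientGroup.mk (γ f) := rfl

/-- Factor a homomorphism into a group of derived length at most three through `PhiQ r`. -/
def factor {W : Type*} [Group W] (θ : FreeGroup (Fin 2) →* W) {s r : ℕ}
    (hW : derivedSeries W s = ⊥) (hr : s ≤ r) : PhiQ r →* W :=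
  QuotientGroup.lift _ θ (by
    intro f hf
    have h1 : f ∈ derivedSeries (FreeGroup (Fin 2)) s := derivedSeries_antitone _ hr hf
    have h2 := map_derivedSeries_le_derivedSeries θ s (Subgroup.mem_map_of_mem θ h1)
    rw [hW] at h2
    simpa using h2)

theorem factor_mk {W : Type*} [Group W] (θ : FreeGroup (Fin 2) →* W) {s r : ℕ}
    (hW : derivedSeries W s = ⊥) (hr : s ≤ r) (f : FreeGroup (Fin 2)) :
    factor θ hW hr (QuotientGroup.mk f) = θ f := rfl

/-- Transfer: an automorphism which is inner modulo `homKer` is inner after any homomorphism. -/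
theorem inner_transfer {W : Type*} [Group W] (θ : FreeGroup (Fin 2) →* W) {s r : ℕ}
    (hW : derivedSeries W s = ⊥) (hr : s ≤ r) {γ : MulAut (FreeGroup (Fin 2))}
    (h : InnerOn (homKer (PhiQ r) W) (indAut _ γ)) :
    ∃ g : FreeGroup (Fin 2), ∀ f, θ (γ f) = θ (g * f * g⁻¹) := by
  obtain ⟨g, hg⟩ := h
  obtain ⟨g, rfl⟩ := QuotientGroup.mk_surjective g
  refine ⟨g, fun f => ?_⟩
  have h1 := hg (QuotientGroup.mk f)
  rw [indAut_mk, QuotientGroup.eq] at h1
  have h2 := homKer_le (factor θ hW hr) h1
  rw [MonoidHom.mem_ker, map_mul, map_inv] at h2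
  have h3 : (QuotientGroup.mk g : PhiQ r) * QuotientGroup.mk f * (QuotientGroup.mk g)⁻¹ =
      QuotientGroup.mk (g * f * g⁻¹) := rfl
  rw [h3, factor_mk, factor_mk, inv_mul_eq_one] at h2
  exact h2

namespace ASring

open Polynomial

/-- The Artin-Schreier polynomial. -/
noncomputable def asPoly (p : ℕ) : (ZMod p)[X] := X ^ p - X - 1

theorem asPoly_monic (p : ℕ) [hp : Fact p.Prime] : (asPoly p).Monic := by
  unfold asPoly
  have h : (X ^ p - X - 1 : (ZMod p)[X]) = X ^ p + (-(X + 1)) := by ring
  rw [h]
  apply monic_X_pow_add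
  rw [degree_neg]
  have h1 : (X + 1 : (ZMod p)[X]).degree = 1 := by
    have := degree_X_add_C (1 : ZMod p)
    simpa using this
  rw [h1]
  exact_mod_cast hp.out.one_lt

theorem asPoly_degree (p : ℕ) [hp : Fact p.Prime] : (asPoly p).natDegree = p := by
  unfold asPoly
  have h : (X ^ p - X - 1 : (ZMod p)[X]) = X ^ p - (X + 1) := by ring
  rw [h, natDegree_sub_eq_left_of_natDegree_lt]
  · simp
  · have h1 : (X + 1 : (ZMod p)[X]).natDegree = 1 := by
      have := natDegree_X_add_C (1 : ZMod p)
      simpa using this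
    rw [h1, natDegree_X_pow]
    exact hp.out.one_lt

/-- Existence of a finite ring with an Artin-Schreier element. -/
theorem exists_ring (p : ℕ) [hp : Fact p.Prime] :
    ∃ (R : Type) (_ : CommRing R) (_ : Algebra (ZMod p) R) (_ : CharP R p) (_ : Finite R) (u : R),
      u ^ p = u + 1 := by
  have hnt : Nontrivial (AdjoinRoot (asPoly p)) := by
    apply AdjoinRoot.nontrivial
    rw [degree_eq_natDegree (asPoly_monic p).ne_zero, asPoly_degree]
    exact_mod_cast hp.out.ne_zero
  have hfin : Module.Finite (ZMod p) (AdjoinRoot (asPoly p)) := (asPoly_monic p).finite_adjoinRoot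
  refine ⟨AdjoinRoot (asPoly p), inferInstance, inferInstance, ?_, ?_, AdjoinRoot.root _, ?_⟩
  · exact charP_of_injective_algebraMap (algebraMap (ZMod p) _).injective p
  · exact Module.finite_of_finite (ZMod p)
  · have h := AdjoinRoot.eval₂_root (asPoly p)
    unfold asPoly at h ⊢
    simp only [eval₂_sub, eval₂_X_pow, eval₂_X, eval₂_one] at h
    linear_combination h

end ASring

end Run7.h551
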