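import Mathlib
import Pool.Agent.Run7.h551.AS6

/-!
# Every finite group is a section of the congruence completion, assembly
-/

set_option linter.unusedSectionVars false

namespace Run7.h551

open AS

theorem exists_embedding (G : Type) [Group G] [Finite G] (p : ℕ) [hp : Fact p.Prime]
    (h : Nat.card G ≤ p) : ∃ ι : G →* Equiv.Perm (ZMod p), Function.Injective ι := by
  classical
  have : Fintype G := Fintype.ofFinite G
  have hc : Fintype.card G ≤ Fintype.card (ZMod p) := by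
    rw [ZMod.card, ← Nat.card_eq_fintype_card]
    exact h
  obtain ⟨e⟩ := Function.Embedding.nonempty_of_card_le hc
  refine ⟨(Equiv.Perm.viaEmbeddingHom e).comp (MulAction.toPermHom G G), ?_⟩
  rw [MonoidHom.coe_comp]
  exact (Equiv.Perm.viaEmbeddingHom_injective e).comp MulAction.toPerm_injective

theorem derived_le_homKer {G W : Type*} [Group G] [Group W] {s : ℕ}
    (hW : derivedSeries W s = ⊥) : derivedSeries G s ≤ homKer G W := by
  refine le_iInf fun θ => ?_
  intro f hf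
  have h2 := map_derivedSeries_le_derivedSeries θ s (Subgroup.mem_map_of_mem θ hf)
  rw [hW] at h2
  simpa using h2

theorem section_basic (r : ℕ) (hr : 3 ≤ r) (G : Type) [Group G] [Finite G] :
    ∃ K : Subgroup (PhiQ r), K.Characteristic ∧ K.FiniteIndex ∧ derivedSeries (PhiQ r) 3 ≤ K ∧
      ∃ (Δ : Subgroup (MulAut (PhiQ r))) (φ : Δ →* G), Function.Surjective φ ∧
        ∀ γ : MulAut (PhiQ r), InnerOn K γ → ∃ h : γ ∈ Δ, φ ⟨γ, h⟩ = 1 := by
  obtain ⟨p, hp1, hp2⟩ := Nat.exists_infinite_primes (Nat.card G)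
  have hp : Fact p.Prime := ⟨hp2⟩
  obtain ⟨R, i1, i2, i3, i4, u, hu⟩ := ASring.exists_ring p
  obtain ⟨ι, hι⟩ := exists_embedding G p hp1
  let W := Wr (ZMod p) R (Mo p R)
  have hfin : Finite (PhiQ r →* W) := finite_hom_freeGroup_quot _ W
  refine ⟨homKer (PhiQ r) W, inferInstance, homKer_finiteIndex, derived_le_homKer Wr.derived_three,
    ?_⟩
  let L : Subgroup (MulAut (PhiQ r) × G) :=
    ((permG hu).map (MonoidHom.prodMap (indAut (derivedSeries (FreeGroup (Fin 2)) r))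
      (MonoidHom.id (Equiv.Perm (ZMod p))))).comap
        (MonoidHom.prodMap (MonoidHom.id (MulAut (PhiQ r))) ι)
  have h1 : ∀ t ∈ L, t.1 ∈ congSub (homKer (PhiQ r) W) → t.2 = 1 := by
    rintro ⟨δ, g⟩ ht hδ
    obtain ⟨⟨γ, π⟩, hγ, he⟩ := ht
    have e1 : indAut (derivedSeries (FreeGroup (Fin 2)) r) γ = δ := congrArg Prod.fst he
    have e2 : π = ι g := congrArg Prod.snd he
    have h2 : InnerOn (homKer (PhiQ r) W) (indAut (derivedSeries (FreeGroup (Fin 2)) r) γ) := by
      rw [e1]; exact hδ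
    obtain ⟨g', hg'⟩ := inner_transfer (Th hu) Wr.derived_three hr h2
    have h3 := permG_rigid hu hγ g' hg'
    rw [h3] at e2
    exact hι (by rw [← e2, map_one])
  have h2 : ∀ g : G, ∃ t ∈ L, t.2 = g := by
    intro g
    obtain ⟨⟨γ, π⟩, hγ, he⟩ := permG_surj hu (ι g)
    refine ⟨(indAut (derivedSeries (FreeGroup (Fin 2)) r) γ, g), ⟨(γ, π), hγ, ?_⟩, rfl⟩
    exact Prod.ext rfl he
  obtain ⟨Δ, φ, h3, h4⟩ := exists_section (congSub (homKer (PhiQ r) W)) L h1 h2
  exact ⟨Δ, φ, h3, h4⟩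

/-- Passing to finite-index subgroups. -/
theorem exists_coord {A : Type*} [Group A] (G : Type) [Group G] (U Δ : Subgroup A) [U.FiniteIndex]
    (φ : Δ →* (Fin (U.index + 1) → G)) (hφ : Function.Surjective φ) :
    ∃ i : Fin (U.index + 1), ∀ g : G, ∃ t : Δ, (t : A) ∈ U ∧ φ t i = g := by
  classical
  by_contra hcon
  push Not at hcon
  choose g hg using hcon
  let m := U.index
  let e : (Fin (U.index + 1) → Bool) → (Fin (U.index + 1) → G) := fun s i => if s i then g i else 1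
  choose t ht using hφ
  have hfin : Finite (A ⧸ U) := Subgroup.finite_quotient_of_finiteIndex
  have : Fintype (A ⧸ U) := Fintype.ofFinite _
  have hlt : Fintype.card (A ⧸ U) < Fintype.card (Fin (U.index + 1) → Bool) := by
    rw [Fintype.card_fun, Fintype.card_bool, Fintype.card_fin, ← Nat.card_eq_fintype_card]
    change U.index < 2 ^ (U.index + 1)
    have h1 : U.index + 1 < 2 ^ (U.index + 1) := Nat.lt_two_pow_self
    omega
  obtain ⟨s, s', hne, heq⟩ := Fintype.exists_ne_map_eq_of_card_lt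
    (fun s : Fin (U.index + 1) → Bool => (QuotientGroup.mk ((t (e s) : Δ) : A) : A ⧸ U)) hlt
  obtain ⟨i, hi⟩ := Function.ne_iff.mp hne
  wlog hsi : s i = true ∧ s' i = false generalizing s s'
  · apply this s' s hne.symm heq.symm hi.symm
    revert hsi hi
    cases s i <;> cases s' i <;> simp
  have h1 : ((t (e s') : Δ) : A)⁻¹ * ((t (e s) : Δ) : A) ∈ U := QuotientGroup.eq.mp heq.symm
  apply hg i ((t (e s'))⁻¹ * t (e s)) (by simpa using h1)
  rw [map_mul, map_inv, ht, ht]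
  simp [e, hsi.1, hsi.2]

theorem section_main (r : ℕ) (hr : 3 ≤ r) (G : Type) [Group G] [Finite G]
    (U : Subgroup (MulAut (PhiQ r))) [U.FiniteIndex] :
    ∃ K : Subgroup (PhiQ r), K.Characteristic ∧ K.FiniteIndex ∧ derivedSeries (PhiQ r) 3 ≤ K ∧
      SectionMod K U G := by
  obtain ⟨K, hK1, hK2, hK3, Δ, φ, h1, h2⟩ := section_basic r hr (Fin (U.index + 1) → G)
  obtain ⟨i, hi⟩ := exists_coord G U Δ φ h1
  refine ⟨K, hK1, hK2, hK3, U ⊓ Δ,
    (Pi.evalMonoidHom _ i).comp (φ.comp (Subgroup.inclusion inf_le_right)), inf_le_left, ?_, ?_⟩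
  · intro g
    obtain ⟨t, ht, rfl⟩ := hi g
    exact ⟨⟨t, ht, t.2⟩, rfl⟩
  · intro γ hγ hin
    obtain ⟨h, he⟩ := h2 γ hin
    refine ⟨⟨hγ, h⟩, ?_⟩
    change φ ⟨γ, h⟩ i = 1
    rw [he]
    rfl

end Run7.h551
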