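import Mathlib

/-!
# Definitions: openness in the congruence topology of `Φ_{2,r}`

Here `F = FreeGroup (Fin 2)` and `Φ_{2,r} = F ⧸ derivedSeries F r`.

* `expSum i f` : the exponent sum of the `i`-th generator in `f`.
* `MatrixIn N γ` : the automorphism `γ` of `F` acts on `F / F' = ℤ ^ 2` by a matrix in `N ≤ SL(2, ℤ)`.
* `InnerMod r K γ` : `γ` induces an inner automorphism of `Φ_{2,r} / K`.
* `CongOpen r N` : for some characteristic subgroup `K` of finite index in `Φ_{2,r}`, every
  automorphism `γ` of `F` inducing an inner automorphism of `Φ_{2,r} / K` acts on `ℤ ^ 2` by a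
  matrix in `N`.
-/

namespace Run7.h551

/-- The exponent sum of the `i`-th generator. -/
def expSum (i : Fin 2) (f : FreeGroup (Fin 2)) : ℤ :=
  Multiplicative.toAdd
    (FreeGroup.lift (fun j : Fin 2 => Multiplicative.ofAdd (if j = i then (1 : ℤ) else 0)) f)

/-- The matrix of `γ` on exponent sums lies in `N`. -/
def MatrixIn (N : Subgroup (Matrix.SpecialLinearGroup (Fin 2) ℤ))
    (γ : MulAut (FreeGroup (Fin 2))) : Prop :=
  ∃ M ∈ N, ∀ i j : Fin 2, M.1 i j = expSum i (γ (FreeGroup.of j))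

/-- `γ` induces an inner automorphism of the quotient of `Φ_{2,r}` by `K`. -/
def InnerMod (r : ℕ) (K : Subgroup (FreeGroup (Fin 2) ⧸ derivedSeries (FreeGroup (Fin 2)) r))
    (γ : MulAut (FreeGroup (Fin 2))) : Prop :=
  ∃ g : FreeGroup (Fin 2), ∀ f : FreeGroup (Fin 2),
    (QuotientGroup.mk (γ f * (g * f * g⁻¹)⁻¹) :
      FreeGroup (Fin 2) ⧸ derivedSeries (FreeGroup (Fin 2)) r) ∈ K

/-- The subgroup `N` of `SL(2, ℤ)` is open in the congruence topology defined by the
characteristic finite-index subgroups of `Φ_{2,r}`. -/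
def CongOpen (r : ℕ) (N : Subgroup (Matrix.SpecialLinearGroup (Fin 2) ℤ)) : Prop :=
  ∃ K : Subgroup (FreeGroup (Fin 2) ⧸ derivedSeries (FreeGroup (Fin 2)) r),
    K.Characteristic ∧ K.FiniteIndex ∧
      ∀ γ : MulAut (FreeGroup (Fin 2)), InnerMod r K γ → MatrixIn N γ

end Run7.h551
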