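import Mathlib

/-!
# Wreath products and affine groups

* `WE I E` : the regular wreath product of a group `E` by an abelian group `I`
  (written additively): pairs `(s, e)` with `s : I`, `e : I → E`.
* `Ax ι` : pairs `(b, a)` with `a : Q` and `b` in a ring `R`, for a homomorphism `ι : Q → R`.
-/

set_option linter.unusedSectionVars false

open scoped commutatorElement

namespace Run7.h551

/-- Pairs `(s, e)`. -/
@[ext]
structure WE (I E : Type*) where
  /-- the shift -/
  s : I
  /-- the coordinates -/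
  e : I → E

namespace WE

variable {I E : Type*} [AddCommGroup I] [Group E]

instance : Mul (WE I E) := ⟨fun f g => ⟨f.s + g.s, fun i => f.e i * g.e (i + f.s)⟩⟩
instance : One (WE I E) := ⟨⟨0, fun _ => 1⟩⟩
instance : Inv (WE I E) := ⟨fun f => ⟨-f.s, fun i => (f.e (i - f.s))⁻¹⟩⟩

@[simp] theorem mul_s (f g : WE I E) : (f * g).s = f.s + g.s := rfl
theorem mul_e (f g : WE I E) (i : I) : (f * g).e i = f.e i * g.e (i + f.s) := rfl
@[simp] theorem one_s : (1 : WE I E).s = 0 := rfl
@[simp] theorem one_e (i : I) : (1 : WE I E).e i = 1 := rfl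
@[simp] theorem inv_s (f : WE I E) : (f⁻¹).s = -f.s := rfl
theorem inv_e (f : WE I E) (i : I) : (f⁻¹).e i = (f.e (i - f.s))⁻¹ := rfl

instance : Group (WE I E) :=
  Group.ofLeftAxioms
    (by
      intro f g h
      have e : ∀ i : I, i + (f.s + g.s) = i + f.s + g.s := fun i => by abel
      ext i
      · simp [add_assoc]
      · simp only [mul_e, mul_s, e, mul_assoc])
    (by
      intro f
      ext i
      · simp
      · simp [mul_e])
    (by
      intro f
      ext i
      · simp
      · simp [mul_e, inv_e, sub_eq_add_neg])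

instance [Finite I] [Finite E] : Finite (WE I E) :=
  Finite.of_injective (fun f : WE I E => (f.s, f.e)) (by
    intro f g h
    simp only [Prod.mk.injEq] at h
    exact WE.ext h.1 h.2)

/-- The shift homomorphism. -/
def sh : WE I E →* Multiplicative I where
  toFun f := Multiplicative.ofAdd f.s
  map_one' := rfl
  map_mul' _ _ := rfl

theorem comm_s (f g : WE I E) : ⁅f, g⁆.s = 0 := by
  simp [commutatorElement_def]

/-- Elements of trivial shift with coordinates in a subgroup. -/
def base (N : Subgroup E) : Subgroup (WE I E) where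
  carrier := {f | f.s = 0 ∧ ∀ i, f.e i ∈ N}
  one_mem' := ⟨rfl, fun _ => N.one_mem⟩
  mul_mem' := by
    rintro f g ⟨h1, h2⟩ ⟨h3, h4⟩
    exact ⟨by simp [h1, h3], fun i => by rw [mul_e]; exact N.mul_mem (h2 _) (h4 _)⟩
  inv_mem' := by
    rintro f ⟨h1, h2⟩
    exact ⟨by simp [h1], fun i => by rw [inv_e]; exact N.inv_mem (h2 _)⟩

theorem derived_le (n : ℕ) : derivedSeries (WE I E) (n + 1) ≤ base (derivedSeries E n) := by
  induction n with
  | zero =>
    intro f hf
    rw [zero_add, derivedSeries_one] at hf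
    refine ⟨?_, fun i => by rw [derivedSeries_zero]; trivial⟩
    exact Abelianization.commutator_subset_ker (sh : WE I E →* Multiplicative I) hf
  | succ n ih =>
    rw [derivedSeries_succ, Subgroup.commutator_le]
    intro f hf g hg
    obtain ⟨h1, h2⟩ := ih hf
    obtain ⟨h3, h4⟩ := ih hg
    refine ⟨comm_s f g, fun i => ?_⟩
    have : ⁅f, g⁆.e i = ⁅f.e i, g.e i⁆ := by
      simp [commutatorElement_def, mul_e, inv_e, h1, h3]
    rw [this, derivedSeries_succ]
    exact Subgroup.commutator_mem_commutator (h2 i) (h4 i)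

theorem derived_bot {n : ℕ} (h : derivedSeries E n = ⊥) : derivedSeries (WE I E) (n + 1) = ⊥ := by
  rw [eq_bot_iff]
  intro f hf
  obtain ⟨h1, h2⟩ := derived_le n hf
  rw [Subgroup.mem_bot]
  ext i
  · exact h1
  · have := h2 i
    rw [h, Subgroup.mem_bot] at this
    exact this

end WE

/-- Pairs `(b, a)`. -/
@[ext]
structure Ax {Q R : Type*} [Group Q] [Ring R] (ι : Q →* R) where
  /-- the translation -/
  b : R
  /-- the linear part -/
  a : Q

namespace Ax

variable {Q R : Type*} [Group Q] [Ring R] {ι : Q →* R}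

instance : Mul (Ax ι) := ⟨fun f g => ⟨f.b + ι f.a * g.b, f.a * g.a⟩⟩
instance : One (Ax ι) := ⟨⟨0, 1⟩⟩
instance : Inv (Ax ι) := ⟨fun f => ⟨-(ι f.a⁻¹ * f.b), f.a⁻¹⟩⟩

@[simp] theorem mul_b (f g : Ax ι) : (f * g).b = f.b + ι f.a * g.b := rfl
@[simp] theorem mul_a (f g : Ax ι) : (f * g).a = f.a * g.a := rfl
@[simp] theorem one_b : (1 : Ax ι).b = 0 := rfl
@[simp] theorem one_a : (1 : Ax ι).a = 1 := rfl
@[simp] theorem inv_b (f : Ax ι) : (f⁻¹).b = -(ι f.a⁻¹ * f.b) := rfl
@[simp] theorem inv_a (f : Ax ι) : (f⁻¹).a = f.a⁻¹ := rfl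

instance : Group (Ax ι) :=
  Group.ofLeftAxioms
    (by
      intro f g h
      ext
      · simp [mul_add, mul_assoc, add_assoc]
      · simp [mul_assoc])
    (by
      intro f
      ext <;> simp)
    (by
      intro f
      ext <;> simp)

instance [Finite Q] [Finite R] : Finite (Ax ι) :=
  Finite.of_injective (fun f : Ax ι => (f.b, f.a)) (by
    intro f g h
    simp only [Prod.mk.injEq] at h
    exact Ax.ext h.1 h.2)

/-- The linear part as a homomorphism. -/
def lin : Ax ι →* Q where
  toFun f := f.a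
  map_one' := rfl
  map_mul' _ _ := rfl

theorem derived_bot {n : ℕ} (h : derivedSeries Q n = ⊥) : derivedSeries (Ax ι) (n + 1) = ⊥ := by
  have key : ∀ f ∈ derivedSeries (Ax ι) n, f.a = 1 := by
    intro f hf
    have h2 := map_derivedSeries_le_derivedSeries (lin : Ax ι →* Q) n (Subgroup.mem_map_of_mem _ hf)
    rw [h, Subgroup.mem_bot] at h2
    exact h2
  rw [eq_bot_iff, derivedSeries_succ, Subgroup.commutator_le]
  intro f hf g hg
  rw [Subgroup.mem_bot]
  have h1 := key f hf
  have h2 := key g hg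
  ext
  · simp [commutatorElement_def, h1, h2]
  · simp [commutatorElement_def, h1, h2]

end Ax

end Run7.h551
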