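import Mathlib
import Pool.Agent.Run7.h551.WE
import Pool.Agent.Run7.h551.AS6

/-!
# Hurwitz moves

For a group `E` and a triple `(U, P, Q)` of elements of `E` we define a homomorphism from the
free group on `x, y` to the wreath product of `E` by the four-group; the two automorphisms
`y ↦ x ^ 2 y` and `x ↦ x y ^ (-2)` act on these homomorphisms, up to conjugation in the base, by
`Q ↦ (U P) Q (U P)⁻¹` and `P ↦ (Q U) P (Q U)⁻¹`.
-/

set_option linter.unusedSectionVars false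
set_option linter.unusedSimpArgs false

namespace Run7.h551.Hur

open Run7.h551

/-- The free group of rank two. -/
abbrev F := FreeGroup (Fin 2)

/-- first generator -/
abbrev x : F := FreeGroup.of 0
/-- second generator -/
abbrev y : F := FreeGroup.of 1

/-- The four-group, written additively. -/
abbrev I4 := ZMod 2 × ZMod 2

theorem forall_I4 {P : I4 → Prop} : (∀ i, P i) ↔ P (0, 0) ∧ P (0, 1) ∧ P (1, 0) ∧ P (1, 1) := by
  constructor
  · intro h
    exact ⟨h _, h _, h _, h _⟩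
  · rintro ⟨h1, h2, h3, h4⟩ ⟨i, j⟩
    have hi : i = 0 ∨ i = 1 := by revert i; decide
    have hj : j = 0 ∨ j = 1 := by revert j; decide
    rcases hi with rfl | rfl <;> rcases hj with rfl | rfl <;> assumption

variable {E : Type*} [Group E]

/-- A table of four values. -/
def tab (e0 ea ec eb : E) (i : I4) : E :=
  if i.1 = 0 then (if i.2 = 0 then e0 else ea) else (if i.2 = 0 then ec else eb)

@[simp] theorem tab_00 (e0 ea ec eb : E) : tab e0 ea ec eb (0, 0) = e0 := by simp [tab]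
@[simp] theorem tab_01 (e0 ea ec eb : E) : tab e0 ea ec eb (0, 1) = ea := by simp [tab]
@[simp] theorem tab_10 (e0 ea ec eb : E) : tab e0 ea ec eb (1, 0) = ec := by simp [tab]
@[simp] theorem tab_11 (e0 ea ec eb : E) : tab e0 ea ec eb (1, 1) = eb := by simp [tab]

theorem tbl :
    ((0, 0) : I4) + (0, 0) = (0, 0) ∧
    ((0, 0) : I4) - (0, 0) = (0, 0) ∧
    ((0, 0) : I4) + (0, 1) = (0, 1) ∧
    ((0, 0) : I4) - (0, 1) = (0, 1) ∧
    ((0, 0) : I4) + (1, 0) = (1, 0) ∧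
    ((0, 0) : I4) - (1, 0) = (1, 0) ∧
    ((0, 0) : I4) + (1, 1) = (1, 1) ∧
    ((0, 0) : I4) - (1, 1) = (1, 1) ∧
    ((0, 1) : I4) + (0, 0) = (0, 1) ∧
    ((0, 1) : I4) - (0, 0) = (0, 1) ∧
    ((0, 1) : I4) + (0, 1) = (0, 0) ∧
    ((0, 1) : I4) - (0, 1) = (0, 0) ∧
    ((0, 1) : I4) + (1, 0) = (1, 1) ∧
    ((0, 1) : I4) - (1, 0) = (1, 1) ∧
    ((0, 1) : I4) + (1, 1) = (1, 0) ∧
    ((0, 1) : I4) - (1, 1) = (1, 0) ∧
    ((1, 0) : I4) + (0, 0) = (1, 0) ∧
    ((1, 0) : I4) - (0, 0) = (1, 0) ∧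
    ((1, 0) : I4) + (0, 1) = (1, 1) ∧
    ((1, 0) : I4) - (0, 1) = (1, 1) ∧
    ((1, 0) : I4) + (1, 0) = (0, 0) ∧
    ((1, 0) : I4) - (1, 0) = (0, 0) ∧
    ((1, 0) : I4) + (1, 1) = (0, 1) ∧
    ((1, 0) : I4) - (1, 1) = (0, 1) ∧
    ((1, 1) : I4) + (0, 0) = (1, 1) ∧
    ((1, 1) : I4) - (0, 0) = (1, 1) ∧
    ((1, 1) : I4) + (0, 1) = (1, 0) ∧
    ((1, 1) : I4) - (0, 1) = (1, 0) ∧
    ((1, 1) : I4) + (1, 0) = (0, 1) ∧
    ((1, 1) : I4) - (1, 0) = (0, 1) ∧
    ((1, 1) : I4) + (1, 1) = (0, 0) ∧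
    ((1, 1) : I4) - (1, 1) = (0, 0) ∧
    -((0, 0) : I4) = (0, 0) ∧
    -((0, 1) : I4) = (0, 1) ∧
    -((1, 0) : I4) = (1, 0) ∧
    -((1, 1) : I4) = (1, 1) ∧
    (0 : I4) = (0, 0) := by
  refine ⟨?_, ?_, ?_, ?_, ?_, ?_, ?_, ?_, ?_, ?_, ?_, ?_, ?_, ?_, ?_, ?_, ?_, ?_, ?_, ?_, ?_, ?_, ?_, ?_, ?_, ?_, ?_, ?_, ?_, ?_, ?_, ?_, ?_, ?_, ?_, ?_, ?_⟩ <;> decide

/-- image of `x` -/
def XX (U P : E) : WE I4 E := ⟨(1, 0), tab U 1 P (P⁻¹ * U⁻¹)⟩

/-- image of `y` -/
def YY (U Q : E) : WE I4 E := ⟨(0, 1), tab Q U (U⁻¹ * Q⁻¹) 1⟩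

/-- The homomorphism attached to a triple. -/
def Th (t : E × E × E) : F →* WE I4 E := FreeGroup.lift ![XX t.1 t.2.1, YY t.1 t.2.2]

@[simp] theorem Th_x (t : E × E × E) : Th t x = XX t.1 t.2.1 := by simp [Th]
@[simp] theorem Th_y (t : E × E × E) : Th t y = YY t.1 t.2.2 := by simp [Th]

/-- `x ↦ x`, `y ↦ x ^ 2 * y`. -/
def al : MulAut F :=
  MonoidHom.toMulEquiv (FreeGroup.lift ![x, x * x * y]) (FreeGroup.lift ![x, x⁻¹ * x⁻¹ * y])
    (by
      apply FreeGroup.ext_hom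
      intro i
      fin_cases i <;> simp [mul_assoc])
    (by
      apply FreeGroup.ext_hom
      intro i
      fin_cases i <;> simp [mul_assoc])

/-- `x ↦ x * y ^ (-2)`, `y ↦ y`. -/
def be : MulAut F :=
  MonoidHom.toMulEquiv (FreeGroup.lift ![x * y⁻¹ * y⁻¹, y]) (FreeGroup.lift ![x * y * y, y])
    (by
      apply FreeGroup.ext_hom
      intro i
      fin_cases i <;> simp [mul_assoc])
    (by
      apply FreeGroup.ext_hom
      intro i
      fin_cases i <;> simp [mul_assoc])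

@[simp] theorem al_x : al x = x := by
  change (FreeGroup.lift ![x, x * x * y]) x = x
  simp
@[simp] theorem al_y : al y = x * x * y := by
  change (FreeGroup.lift ![x, x * x * y]) y = _
  simp
@[simp] theorem be_x : be x = x * y⁻¹ * y⁻¹ := by
  change (FreeGroup.lift ![x * y⁻¹ * y⁻¹, y]) x = _
  simp
@[simp] theorem be_y : be y = y := by
  change (FreeGroup.lift ![x * y⁻¹ * y⁻¹, y]) y = _
  simp

/-- The move `Q ↦ (U P) Q (U P)⁻¹`. -/
def hal : Equiv.Perm (E × E × E) where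
  toFun t := (t.1, t.2.1, (t.1 * t.2.1) * t.2.2 * (t.1 * t.2.1)⁻¹)
  invFun t := (t.1, t.2.1, (t.1 * t.2.1)⁻¹ * t.2.2 * (t.1 * t.2.1))
  left_inv t := by
    obtain ⟨U, P, Q⟩ := t
    simp [mul_assoc]
  right_inv t := by
    obtain ⟨U, P, Q⟩ := t
    simp [mul_assoc]

/-- The move `P ↦ (Q U) P (Q U)⁻¹`. -/
def hbe : Equiv.Perm (E × E × E) where
  toFun t := (t.1, (t.2.2 * t.1) * t.2.1 * (t.2.2 * t.1)⁻¹, t.2.2)
  invFun t := (t.1, (t.2.2 * t.1)⁻¹ * t.2.1 * (t.2.2 * t.1), t.2.2)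
  left_inv t := by
    obtain ⟨U, P, Q⟩ := t
    simp [mul_assoc]
  right_inv t := by
    obtain ⟨U, P, Q⟩ := t
    simp [mul_assoc]

/-- The correspondence between automorphisms and permutations of triples. -/
def RelH (γ : MulAut F) (h : Equiv.Perm (E × E × E)) : Prop :=
  ∀ t : E × E × E, ∃ G : WE I4 E, G.s = 0 ∧ G.e 0 = 1 ∧
    ∀ f, Th t (γ f) = G * Th (h⁻¹ t) f * G⁻¹

/-- The correspondence as a subgroup. -/
def RelS : Subgroup (MulAut F × Equiv.Perm (E × E × E)) where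
  carrier := {r | RelH r.1 r.2}
  one_mem' := fun t => ⟨1, rfl, rfl, fun f => by simp⟩
  mul_mem' := by
    rintro ⟨γ, h⟩ ⟨δ, k⟩ h1 h2 t
    obtain ⟨G, g1, g2, g3⟩ := h1 t
    obtain ⟨H, k1, k2, k3⟩ := h2 (h⁻¹ t)
    simp only at g3 k3
    refine ⟨G * H, by simp [g1, k1], by rw [WE.mul_e, g1, g2, add_zero, k2, mul_one], fun f => ?_⟩
    change Th t (γ (δ f)) = G * H * Th ((h * k)⁻¹ t) f * (G * H)⁻¹
    rw [g3, k3, mul_inv_rev (h), Equiv.Perm.mul_apply]
    group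
  inv_mem' := by
    rintro ⟨γ, h⟩ h1 t
    obtain ⟨G, g1, g2, g3⟩ := h1 (h t)
    have hh : h⁻¹ (h t) = t := Equiv.symm_apply_apply h t
    simp only [hh] at g3
    refine ⟨G⁻¹, by simp [g1], by rw [WE.inv_e, g1, sub_zero, g2, inv_one], fun f => ?_⟩
    have h4 := g3 (γ⁻¹ f)
    rw [MulAut.apply_inv_self] at h4
    change Th t (γ⁻¹ f) = G⁻¹ * Th ((h⁻¹)⁻¹ t) f * (G⁻¹)⁻¹
    rw [inv_inv h, h4]
    group

theorem RelH_of_gens {γ : MulAut F} {h : Equiv.Perm (E × E × E)}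
    (H : ∀ t : E × E × E, ∃ G : WE I4 E, G.s = 0 ∧ G.e 0 = 1 ∧
      Th t (γ x) = G * Th (h⁻¹ t) x * G⁻¹ ∧ Th t (γ y) = G * Th (h⁻¹ t) y * G⁻¹) :
    RelH γ h := by
  intro t
  obtain ⟨G, g1, g2, g3, g4⟩ := H t
  refine ⟨G, g1, g2, fun f => ?_⟩
  have : (Th t).comp γ.toMonoidHom = (MulAut.conj G).toMonoidHom.comp (Th (h⁻¹ t)) := by
    apply FreeGroup.ext_hom
    intro i
    fin_cases i
    · exact g3
    · exact g4
  exact DFunLike.congr_fun this f

theorem rel_al : RelH (E := E) al hal⁻¹ := by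
  apply RelH_of_gens
  intro t
  rw [inv_inv]
  obtain ⟨U, P, Q⟩ := t
  refine ⟨⟨0, tab 1 (U * P)⁻¹ 1 (U * P)⁻¹⟩, rfl, by simp [tbl], ?_, ?_⟩
  · refine WE.ext ?_ (funext fun i => ?_)
    · simp [hal, XX]
    · revert i
      rw [forall_I4]
      simp only [al_x, Th_x, WE.mul_e, WE.mul_s, WE.inv_e, XX, hal, Equiv.coe_fn_mk, tbl, tab_00, tab_01, tab_10, tab_11]
      refine ⟨?_, ?_, ?_, ?_⟩ <;> group
  · refine WE.ext ?_ (funext fun i => ?_)
    · simp [hal, XX, YY]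
      decide
    · revert i
      rw [forall_I4]
      simp only [al_y, Th_x, Th_y, map_mul, WE.mul_e, WE.mul_s, WE.inv_e, XX, YY, hal,
        Equiv.coe_fn_mk, tbl, tab_00, tab_01, tab_10, tab_11]
      refine ⟨?_, ?_, ?_, ?_⟩ <;> group

theorem rel_be : RelH (E := E) be hbe⁻¹ := by
  apply RelH_of_gens
  intro t
  rw [inv_inv]
  obtain ⟨U, P, Q⟩ := t
  refine ⟨⟨0, tab 1 1 (Q * U)⁻¹ (Q * U)⁻¹⟩, rfl, by simp [tbl], ?_, ?_⟩
  · refine WE.ext ?_ (funext fun i => ?_)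
    · simp [hbe, XX, YY]
      decide
    · revert i
      rw [forall_I4]
      simp only [be_x, Th_x, Th_y, map_mul, map_inv, WE.mul_e, WE.mul_s, WE.inv_e, WE.inv_s, XX, YY,
        hbe, Equiv.coe_fn_mk, tbl, tab_00, tab_01, tab_10, tab_11]
      refine ⟨?_, ?_, ?_, ?_⟩ <;> group
  · refine WE.ext ?_ (funext fun i => ?_)
    · simp [hbe, YY]
    · revert i
      rw [forall_I4]
      simp only [be_y, Th_y, WE.mul_e, WE.mul_s, WE.inv_e, YY, hbe, Equiv.coe_fn_mk, tbl, tab_00, tab_01, tab_10, tab_11]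
      refine ⟨?_, ?_, ?_, ?_⟩ <;> group

/-- Words act by automorphisms. -/
def act : FreeGroup (Fin 2) →* MulAut F := FreeGroup.lift ![al, be]

/-- Words act on triples; the relation of `act w` is with the inverse of `hur w`. -/
def hur : FreeGroup (Fin 2) →* Equiv.Perm (E × E × E) := FreeGroup.lift ![hal⁻¹, hbe⁻¹]

theorem rel_word (w : FreeGroup (Fin 2)) : RelH (E := E) (act w) (hur w) := by
  have h : (act.prod (hur (E := E))).range ≤ RelS := by
    rw [MonoidHom.range_eq_map, ← FreeGroup.closure_range_of, MonoidHom.map_closure,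
      Subgroup.closure_le]
    rintro _ ⟨_, ⟨i, rfl⟩, rfl⟩
    fin_cases i
    · change RelH (act (FreeGroup.of 0)) (hur (FreeGroup.of 0))
      simp only [act, hur, FreeGroup.lift_apply_of]
      exact rel_al
    · change RelH (act (FreeGroup.of 1)) (hur (FreeGroup.of 1))
      simp only [act, hur, FreeGroup.lift_apply_of]
      exact rel_be
  exact h ⟨w, rfl⟩

/-- The shift of an element. -/
def shf (f : F) : I4 := (Th (E := Multiplicative (ZMod 3)) 1 f).s

theorem Th_s (t : E × E × E) (f : F) : (Th t f).s = shf f := by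
  have h : (WE.sh.comp (Th t)) = WE.sh.comp (Th (E := Multiplicative (ZMod 3)) 1) := by
    apply FreeGroup.ext_hom
    intro i
    fin_cases i
    · rfl
    · rfl
  exact DFunLike.congr_fun h f

/-- The peripheral word `x y⁻¹ x⁻¹ y`. -/
def per : F := x * y⁻¹ * x⁻¹ * y

theorem per_e (U P Q : E) : (Th (U, P, Q) per).s = (0, 0) ∧
    (Th (U, P, Q) per).e (0, 0) = U * U ∧ (Th (U, P, Q) per).e (0, 1) = Q * U * U⁻¹ * Q ∧
    (Th (U, P, Q) per).e (1, 0) = P * U⁻¹ * (U * P) ∧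
    (Th (U, P, Q) per).e (1, 1) = P⁻¹ * U⁻¹ * Q⁻¹ * P⁻¹ * (U⁻¹ * Q⁻¹) := by
  simp only [per, Th_x, Th_y, map_mul, map_inv, WE.mul_e, WE.mul_s, WE.inv_e, WE.inv_s, XX, YY,
        tbl, tab_00, tab_01, tab_10, tab_11]
  refine ⟨by decide, ?_, ?_, ?_, ?_⟩ <;> group

theorem test1 (U P Q : E) : (Th (U, P, Q) (x * x)).s = (0, 0) ∧
    (Th (U, P, Q) (x * x)).e (0, 0) = U * P := by
  simp only [Th_x, Th_y, map_mul, map_inv, WE.mul_e, WE.mul_s, WE.inv_e, WE.inv_s, XX, YY,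
        tbl, tab_00, tab_01, tab_10, tab_11]
  exact ⟨trivial, trivial⟩

theorem test2 (U P Q : E) : (Th (U, P, Q) (y⁻¹ * x⁻¹ * x⁻¹ * y)).s = (0, 0) ∧
    (Th (U, P, Q) (y⁻¹ * x⁻¹ * x⁻¹ * y)).e (0, 0) = P * U := by
  simp only [Th_x, Th_y, map_mul, map_inv, WE.mul_e, WE.mul_s, WE.inv_e, WE.inv_s, XX, YY,
        tbl, tab_00, tab_01, tab_10, tab_11]
  exact ⟨trivial, by group⟩

theorem test3 (U P Q : E) : (Th (U, P, Q) (y * y)).s = (0, 0) ∧
    (Th (U, P, Q) (y * y)).e (0, 0) = Q * U := by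
  simp only [Th_x, Th_y, map_mul, map_inv, WE.mul_e, WE.mul_s, WE.inv_e, WE.inv_s, XX, YY,
        tbl, tab_00, tab_01, tab_10, tab_11]
  exact ⟨trivial, trivial⟩

theorem test4 (U P Q : E) : (Th (U, P, Q) (x * y⁻¹ * y⁻¹ * x⁻¹)).s = (0, 0) ∧
    (Th (U, P, Q) (x * y⁻¹ * y⁻¹ * x⁻¹)).e (0, 0) = U * Q := by
  simp only [Th_x, Th_y, map_mul, map_inv, WE.mul_e, WE.mul_s, WE.inv_e, WE.inv_s, XX, YY,
        tbl, tab_00, tab_01, tab_10, tab_11]
  exact ⟨trivial, by group⟩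

theorem conj_e (G T : WE I4 E) (hT : T.s = 0) (i : I4) :
    (G * T * G⁻¹).e i = G.e i * T.e (i + G.s) * (G.e i)⁻¹ := by
  rw [WE.mul_e, WE.mul_e, WE.inv_e, WE.mul_s, hT, add_zero, add_sub_cancel_right]

theorem hur_fst (w : FreeGroup (Fin 2)) (t : E × E × E) : ((hur w)⁻¹ t).1 = t.1 := by
  have h : ∀ w : FreeGroup (Fin 2), ∀ t : E × E × E, (hur w t).1 = t.1 := by
    intro w
    induction w using FreeGroup.induction_on with
    | C1 => intro t; simp
    | of i =>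
      intro t
      fin_cases i
      · change (hur (FreeGroup.of 0) t).1 = t.1
        simp only [hur, FreeGroup.lift_apply_of]
        rfl
      · change (hur (FreeGroup.of 1) t).1 = t.1
        simp only [hur, FreeGroup.lift_apply_of]
        rfl
    | inv_of i _ =>
      intro t
      fin_cases i
      · change (hur (FreeGroup.of 0)⁻¹ t).1 = t.1
        simp only [hur, map_inv, FreeGroup.lift_apply_of]
        rfl
      · change (hur (FreeGroup.of 1)⁻¹ t).1 = t.1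
        simp only [hur, map_inv, FreeGroup.lift_apply_of]
        rfl
    | mul u v hu hv =>
      intro t
      rw [map_mul, Equiv.Perm.mul_apply, hu, hv]
  rw [← map_inv]
  exact h _ t

theorem hur_comm {A : Type*} [CommGroup A] (w : FreeGroup (Fin 2)) :
    hur (E := A) w = 1 := by
  have h : hur (E := A) = 1 := by
    apply FreeGroup.ext_hom
    intro i
    fin_cases i
    · change hur (FreeGroup.of 0) = 1
      simp only [hur, FreeGroup.lift_apply_of]
      change hal⁻¹ = 1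
      rw [inv_eq_one]
      ext1 t
      obtain ⟨U, P, Q⟩ := t
      change (U, P, (U * P) * Q * (U * P)⁻¹) = (U, P, Q)
      rw [mul_inv_cancel_comm]
    · change hur (FreeGroup.of 1) = 1
      simp only [hur, FreeGroup.lift_apply_of]
      change hbe⁻¹ = 1
      rw [inv_eq_one]
      ext1 t
      obtain ⟨U, P, Q⟩ := t
      change (U, (Q * U) * P * (Q * U)⁻¹, Q) = (U, P, Q)
      rw [mul_inv_cancel_comm]
  rw [h]
  rfl

/-- Lifting an inner automorphism of a quotient. -/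
theorem inner_lift {r : ℕ} {K : Subgroup (PhiQ r)} {γ : MulAut F}
    (h : InnerOn K (indAut (derivedSeries F r) γ)) :
    ∃ g : F, ∀ f : F, (QuotientGroup.mk (γ f) : PhiQ r)⁻¹ * QuotientGroup.mk (g * f * g⁻¹) ∈ K := by
  obtain ⟨g, hg⟩ := h
  obtain ⟨g, rfl⟩ := QuotientGroup.mk_surjective g
  refine ⟨g, fun f => ?_⟩
  have h1 := hg (QuotientGroup.mk f)
  rw [indAut_mk, QuotientGroup.eq] at h1
  exact h1

theorem core_shift {w : FreeGroup (Fin 2)} {g : F}
    (hg : ∀ (t : Multiplicative (ZMod 3) × Multiplicative (ZMod 3) × Multiplicative (ZMod 3))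
      (f : F), Th t (act w f) = Th t (g * f * g⁻¹)) : shf g = 0 := by
  set U : Multiplicative (ZMod 3) := 1
  set P : Multiplicative (ZMod 3) := Multiplicative.ofAdd 1
  obtain ⟨G, g1, g2, g3⟩ := rel_word (E := Multiplicative (ZMod 3)) w (U, P, P)
  have h1 := hg (U, P, P) per
  rw [g3 per, hur_comm, inv_one, Equiv.Perm.one_apply] at h1
  have h2 := congrArg (fun T : WE I4 (Multiplicative (ZMod 3)) => T.e 0) h1
  obtain ⟨p1, p2, p3, p4, p5⟩ := per_e U P P
  have hs : (Th (U, P, P) per).s = 0 := p1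
  rw [conj_e _ _ hs, map_mul, map_mul, map_inv, conj_e _ _ hs, g1, g2, Th_s, zero_add, zero_add] at h2
  rw [mul_inv_cancel_comm, mul_inv_cancel_comm] at h2
  have h0 : (Th (U, P, P) per).e 0 = 1 := by
    change (Th (U, P, P) per).e (0, 0) = 1
    rw [p2]; rfl
  rw [h0] at h2
  have key : ∀ i : I4, (Th (U, P, P) per).e i = 1 → i = 0 := by
    rw [forall_I4, p2, p3, p4, p5]
    refine ⟨fun _ => rfl, fun h => ?_, fun h => ?_, fun h => ?_⟩
    · exact absurd h (by decide)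
    · exact absurd h (by decide)
    · exact absurd h (by decide)
  exact key _ h2.symm

theorem core_e {w : FreeGroup (Fin 2)} {g : F} (hs : shf g = 0)
    (hg : ∀ (t : E × E × E) (f : F), Th t (act w f) = Th t (g * f * g⁻¹)) (t : E × E × E) (f : F)
    (hf : shf f = 0) :
    (Th t g).e 0 * (Th t f).e 0 * ((Th t g).e 0)⁻¹ = (Th ((hur w)⁻¹ t) f).e 0 := by
  obtain ⟨G, g1, g2, g3⟩ := rel_word (E := E) w t
  have h1 := hg t f
  rw [g3 f] at h1
  have h2 := congrArg (fun T : WE I4 E => T.e 0) h1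
  rw [conj_e _ _ (by rw [Th_s, hf]), map_mul, map_mul, map_inv, conj_e _ _ (by rw [Th_s, hf]), g1,
    g2, Th_s, hs, zero_add] at h2
  rw [← h2]
  simp

/-- The core lemma. -/
theorem core (E : Type*) [Group E] [Finite E] {n r : ℕ} (hE : derivedSeries E n = ⊥)
    (hr : n + 1 ≤ r) (hr2 : 2 ≤ r) :
    ∃ K : Subgroup (PhiQ r), K.Characteristic ∧ K.FiniteIndex ∧
      ∀ w, InnerOn K (indAut (derivedSeries F r) (act w)) → ∀ U P Q : E, ∃ P' Q' G : E,
        (hur w)⁻¹ (U, P, Q) = (U, P', Q') ∧ G * (U * P) * G⁻¹ = U * P' ∧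
        G * (P * U) * G⁻¹ = P' * U ∧ G * (Q * U) * G⁻¹ = Q' * U ∧
        G * (U * Q) * G⁻¹ = U * Q' ∧ G * (U * U) * G⁻¹ = U * U := by
  have hW1 : derivedSeries (WE I4 E) (n + 1) = ⊥ := WE.derived_bot hE
  have hW2 : derivedSeries (WE I4 (Multiplicative (ZMod 3))) (1 + 1) = ⊥ := by
    apply WE.derived_bot
    rw [derivedSeries_one]
    exact (commutator_eq_bot_iff_center_eq_top _).mpr (CommGroup.center_eq_top)
  have hf1 : Finite (PhiQ r →* WE I4 E) := finite_hom_freeGroup_quot _ _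
  have hf2 : Finite (PhiQ r →* WE I4 (Multiplicative (ZMod 3))) := finite_hom_freeGroup_quot _ _
  have i1 : (homKer (PhiQ r) (WE I4 E)).FiniteIndex := homKer_finiteIndex
  have i2 : (homKer (PhiQ r) (WE I4 (Multiplicative (ZMod 3)))).FiniteIndex := homKer_finiteIndex
  refine ⟨homKer (PhiQ r) (WE I4 E) ⊓ homKer (PhiQ r) (WE I4 (Multiplicative (ZMod 3))),
    inferInstance, inferInstance, ?_⟩
  intro w hw U P Q
  obtain ⟨g, hg⟩ := inner_lift hw
  have t1 : ∀ (t : E × E × E) (f : F), Th t (act w f) = Th t (g * f * g⁻¹) := by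
    intro t f
    have h2 := homKer_le (factor (Th t) hW1 hr) (hg f).1
    rw [MonoidHom.mem_ker, map_mul, map_inv, factor_mk, factor_mk, inv_mul_eq_one] at h2
    exact h2
  have t2 : ∀ (t : Multiplicative (ZMod 3) × Multiplicative (ZMod 3) × Multiplicative (ZMod 3))
      (f : F), Th t (act w f) = Th t (g * f * g⁻¹) := by
    intro t f
    have h2 := homKer_le (factor (Th t) hW2 hr2) (hg f).2
    rw [MonoidHom.mem_ker, map_mul, map_inv, factor_mk, factor_mk, inv_mul_eq_one] at h2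
    exact h2
  have hs := core_shift t2
  have hfst := hur_fst w (U, P, Q)
  rcases h' : (hur w)⁻¹ (U, P, Q) with ⟨U', P', Q'⟩
  rw [h'] at hfst
  simp only at hfst
  subst hfst
  have main : ∀ (f : F) (v : E), (Th (U', P, Q) f).s = (0, 0) →
      (Th (U', P, Q) g).e 0 * (Th (U', P, Q) f).e (0, 0) * ((Th (U', P, Q) g).e 0)⁻¹ =
        (Th (U', P', Q') f).e (0, 0) := by
    intro f v hv
    have := core_e hs t1 (U', P, Q) f (by rw [← Th_s (U', P, Q) f]; exact hv)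
    rw [h'] at this
    exact this
  refine ⟨P', Q', (Th (U', P, Q) g).e 0, rfl, ?_, ?_, ?_, ?_, ?_⟩
  · have := main _ 1 (test1 U' P Q).1
    rw [(test1 U' P Q).2, (test1 U' P' Q').2] at this
    exact this
  · have := main _ 1 (test2 U' P Q).1
    rw [(test2 U' P Q).2, (test2 U' P' Q').2] at this
    exact this
  · have := main _ 1 (test3 U' P Q).1
    rw [(test3 U' P Q).2, (test3 U' P' Q').2] at this
    exact this
  · have := main _ 1 (test4 U' P Q).1
    rw [(test4 U' P Q).2, (test4 U' P' Q').2] at this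
    exact this
  · have := main _ 1 (per_e U' P Q).1
    rw [(per_e U' P Q).2.1, (per_e U' P' Q').2.1] at this
    exact this

end Run7.h551.Hur
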