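import Mathlib
import Pool.Agent.Run7.h551.Defs2
import Pool.Agent.Run7.h551.Hur
import Pool.Agent.H528.MCG.Nielsen

/-!
# From words in the two automorphisms to all automorphisms of the free group
-/

set_option linter.unusedSectionVars false
set_option linter.unusedSimpArgs false

namespace Run7.h551.Brg

open Run7.h551 Run7.h551.Hur

@[simp] theorem expSum_mul (i : Fin 2) (f g : F) : expSum i (f * g) = expSum i f + expSum i g := by
  simp [expSum]
@[simp] theorem expSum_one (i : Fin 2) : expSum i 1 = 0 := by simp [expSum]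
@[simp] theorem expSum_inv (i : Fin 2) (f : F) : expSum i f⁻¹ = - expSum i f := by simp [expSum]
@[simp] theorem expSum_of (i j : Fin 2) : expSum i (FreeGroup.of j) = if j = i then 1 else 0 := by
  simp [expSum]

theorem expSum_map (γ : MulAut F) (i : Fin 2) (f : F) :
    expSum i (γ f) = expSum i (γ x) * expSum 0 f + expSum i (γ y) * expSum 1 f := by
  induction f using FreeGroup.induction_on with
  | C1 => simp
  | of j => fin_cases j <;> simp
  | inv_of j h => fin_cases j <;> simp
  | mul u v hu hv => rw [map_mul, expSum_mul, hu, hv, expSum_mul, expSum_mul]; ring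

/-- The matrix of an automorphism. -/
def mat : MulAut F →* Matrix (Fin 2) (Fin 2) ℤ where
  toFun γ := fun i j => expSum i (γ (FreeGroup.of j))
  map_one' := by
    ext i j
    simp [Matrix.one_apply, eq_comm]
  map_mul' γ δ := by
    ext i j
    rw [Matrix.mul_apply, Fin.sum_univ_two, MulAut.mul_apply, expSum_map]

theorem mat_apply (γ : MulAut F) (i j : Fin 2) : mat γ i j = expSum i (γ (FreeGroup.of j)) := rfl

theorem mat_conj (g : F) : mat (MulAut.conj g) = 1 := by
  ext i j
  rw [mat_apply]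
  simp [Matrix.one_apply, eq_comm]

/-- The homomorphism to `SL(2, ℤ)` on words. -/
def sl : FreeGroup (Fin 2) →* Matrix.SpecialLinearGroup (Fin 2) ℤ :=
  FreeGroup.lift ![⟨!![1, 2; 0, 1], by simp [Matrix.det_fin_two]⟩,
    ⟨!![1, 0; -2, 1], by simp [Matrix.det_fin_two]⟩]

/-- The inclusion of `SL(2, ℤ)` into matrices. -/
def inclM : Matrix.SpecialLinearGroup (Fin 2) ℤ →* Matrix (Fin 2) (Fin 2) ℤ where
  toFun M := M.1
  map_one' := rfl
  map_mul' _ _ := rfl

theorem mat_act (w : FreeGroup (Fin 2)) : mat (act w) = (sl w).1 := by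
  have h : mat.comp act = inclM.comp sl := by
    apply FreeGroup.ext_hom
    intro i
    fin_cases i
    · change mat (act (FreeGroup.of 0)) = (sl (FreeGroup.of 0)).1
      simp only [act, sl, FreeGroup.lift_apply_of]
      ext i j
      rw [mat_apply]
      fin_cases i <;> fin_cases j <;> simp
    · change mat (act (FreeGroup.of 1)) = (sl (FreeGroup.of 1)).1
      simp only [act, sl, FreeGroup.lift_apply_of]
      ext i j
      rw [mat_apply]
      fin_cases i <;> fin_cases j <;> simp
  exact DFunLike.congr_fun h w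

/-- swap -/
def sg : MulAut F :=
  MonoidHom.toMulEquiv (FreeGroup.lift ![y, x]) (FreeGroup.lift ![y, x])
    (by
      apply FreeGroup.ext_hom
      intro i
      fin_cases i <;> simp)
    (by
      apply FreeGroup.ext_hom
      intro i
      fin_cases i <;> simp)

/-- inversion of `x` -/
def ep : MulAut F :=
  MonoidHom.toMulEquiv (FreeGroup.lift ![x⁻¹, y]) (FreeGroup.lift ![x⁻¹, y])
    (by
      apply FreeGroup.ext_hom
      intro i
      fin_cases i <;> simp)
    (by
      apply FreeGroup.ext_hom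
      intro i
      fin_cases i <;> simp)

/-- `x ↦ x y` -/
def mu : MulAut F :=
  MonoidHom.toMulEquiv (FreeGroup.lift ![x * y, y]) (FreeGroup.lift ![x * y⁻¹, y])
    (by
      apply FreeGroup.ext_hom
      intro i
      fin_cases i <;> simp [mul_assoc])
    (by
      apply FreeGroup.ext_hom
      intro i
      fin_cases i <;> simp [mul_assoc])

@[simp] theorem sg_x : sg x = y := by
  change (FreeGroup.lift ![y, x]) x = y
  simp
@[simp] theorem sg_y : sg y = x := by
  change (FreeGroup.lift ![y, x]) y = x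
  simp
@[simp] theorem ep_x : ep x = x⁻¹ := by
  change (FreeGroup.lift ![x⁻¹, y]) x = x⁻¹
  simp
@[simp] theorem ep_y : ep y = y := by
  change (FreeGroup.lift ![x⁻¹, y]) y = y
  simp
@[simp] theorem mu_x : mu x = x * y := by
  change (FreeGroup.lift ![x * y, y]) x = _
  simp
@[simp] theorem mu_y : mu y = y := by
  change (FreeGroup.lift ![x * y, y]) y = _
  simp
@[simp] theorem mui_x : (MulEquiv.symm mu) x = x * y⁻¹ := by
  change (FreeGroup.lift ![x * y⁻¹, y]) x = _
  simp
@[simp] theorem mui_y : (MulEquiv.symm mu) y = y := by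
  change (FreeGroup.lift ![x * y⁻¹, y]) y = _
  simp
@[simp] theorem ali_x : (MulEquiv.symm al) x = x := by
  change (FreeGroup.lift ![x, x⁻¹ * x⁻¹ * y]) x = _
  simp
@[simp] theorem ali_y : (MulEquiv.symm al) y = x⁻¹ * x⁻¹ * y := by
  change (FreeGroup.lift ![x, x⁻¹ * x⁻¹ * y]) y = _
  simp
@[simp] theorem bei_x : (MulEquiv.symm be) x = x * y * y := by
  change (FreeGroup.lift ![x * y * y, y]) x = _
  simp
@[simp] theorem bei_y : (MulEquiv.symm be) y = y := by
  change (FreeGroup.lift ![x * y * y, y]) y = _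
  simp

theorem aut_ext {γ δ : MulAut F} (h0 : γ x = δ x) (h1 : γ y = δ y) : γ = δ := by
  have : γ.toMonoidHom = δ.toMonoidHom := by
    apply FreeGroup.ext_hom
    intro i
    fin_cases i
    · exact h0
    · exact h1
  ext f
  exact DFunLike.congr_fun this f

theorem sg_sq : sg * sg = 1 := aut_ext (by simp) (by simp)
theorem ep_sq : ep * ep = 1 := aut_ext (by simp) (by simp)
theorem sg_inv : sg⁻¹ = sg := inv_eq_of_mul_eq_one_right sg_sq
theorem ep_inv : ep⁻¹ = ep := inv_eq_of_mul_eq_one_right ep_sq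

theorem mul_conj (γ : MulAut F) (g : F) : γ * MulAut.conj g = MulAut.conj (γ g) * γ := by
  ext f
  simp

/-- Products of inner automorphisms and words. -/
def P : Subgroup (MulAut F) where
  carrier := {γ | ∃ (g : F) (w : FreeGroup (Fin 2)), γ = MulAut.conj g * act w}
  one_mem' := ⟨1, 1, by simp⟩
  mul_mem' := by
    rintro _ _ ⟨g, w, rfl⟩ ⟨g', w', rfl⟩
    refine ⟨g * act w g', w * w', ?_⟩
    rw [map_mul, map_mul, mul_assoc (MulAut.conj g) (act w), ← mul_assoc (act w), mul_conj]
    group
  inv_mem' := by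
    rintro _ ⟨g, w, rfl⟩
    refine ⟨(act w)⁻¹ g⁻¹, w⁻¹, ?_⟩
    rw [mul_inv_rev, ← map_inv, ← map_inv, mul_conj]

theorem conj_mem_P (g : F) : MulAut.conj g ∈ P := ⟨g, 1, by simp⟩
theorem act_mem_P (w : FreeGroup (Fin 2)) : act w ∈ P := ⟨1, w, by simp⟩
theorem al_mem_P : al ∈ P := by
  have := act_mem_P (FreeGroup.of 0)
  simpa [act] using this
theorem be_mem_P : be ∈ P := by
  have := act_mem_P (FreeGroup.of 1)
  simpa [act] using this

theorem norm_of_gens {d : MulAut F} (h0 : d * al * d⁻¹ ∈ P) (h1 : d * be * d⁻¹ ∈ P) :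
    ∀ p ∈ P, d * p * d⁻¹ ∈ P := by
  rintro _ ⟨g, w, rfl⟩
  have hw : d * act w * d⁻¹ ∈ P := by
    have : (⊤ : Subgroup (FreeGroup (Fin 2))) ≤
        P.comap ((MulAut.conj d).toMonoidHom.comp act) := by
      rw [← FreeGroup.closure_range_of, Subgroup.closure_le]
      rintro _ ⟨i, rfl⟩
      fin_cases i
      · simpa [act] using h0
      · simpa [act] using h1
    exact this (Subgroup.mem_top w)
  have : d * (MulAut.conj g * act w) * d⁻¹ = MulAut.conj (d g) * (d * act w * d⁻¹) := by
    rw [← mul_assoc, mul_conj]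
    group
  rw [this]
  exact P.mul_mem (conj_mem_P _) hw

theorem mem_normalizer_of_invol {d : MulAut F} (hd : d * d = 1) (h0 : d * al * d⁻¹ ∈ P)
    (h1 : d * be * d⁻¹ ∈ P) : ∀ p, p ∈ P ↔ d * p * d⁻¹ ∈ P := by
  intro p
  refine ⟨norm_of_gens h0 h1 p, fun h => ?_⟩
  have h2 := norm_of_gens h0 h1 _ h
  have : d * (d * p * d⁻¹) * d⁻¹ = (d * d) * p * (d * d)⁻¹ := by group
  rw [this, hd] at h2
  simpa using h2

/-- Signed permutations. -/
def D : Subgroup (MulAut F) := Subgroup.closure {sg, ep}

theorem sg_mem : sg ∈ D := Subgroup.subset_closure (by simp)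
theorem ep_mem : ep ∈ D := Subgroup.subset_closure (by simp)

theorem sg_norm : ∀ p, p ∈ P ↔ sg * p * sg⁻¹ ∈ P := by
  apply mem_normalizer_of_invol sg_sq
  · have : sg * al * sg⁻¹ = MulAut.conj (y * y) * be⁻¹ := by
      rw [sg_inv]
      apply aut_ext <;> simp [mul_assoc]
    rw [this]
    exact P.mul_mem (conj_mem_P _) (P.inv_mem be_mem_P)
  · have : sg * be * sg⁻¹ = MulAut.conj (x * x) * al⁻¹ := by
      rw [sg_inv]
      apply aut_ext <;> simp [mul_assoc]
    rw [this]
    exact P.mul_mem (conj_mem_P _) (P.inv_mem al_mem_P)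

theorem ep_norm : ∀ p, p ∈ P ↔ ep * p * ep⁻¹ ∈ P := by
  apply mem_normalizer_of_invol ep_sq
  · have : ep * al * ep⁻¹ = al⁻¹ := by
      rw [ep_inv]
      apply aut_ext <;> simp [mul_assoc]
    rw [this]
    exact P.inv_mem al_mem_P
  · have : ep * be * ep⁻¹ = MulAut.conj (y * y) * be⁻¹ := by
      rw [ep_inv]
      apply aut_ext <;> simp [mul_assoc]
    rw [this]
    exact P.mul_mem (conj_mem_P _) (P.inv_mem be_mem_P)

theorem D_norm {d : MulAut F} (hd : d ∈ D) {p : MulAut F} (hp : p ∈ P) : d * p * d⁻¹ ∈ P := by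
  have h : ∀ d ∈ D, ∀ p, p ∈ P ↔ d * p * d⁻¹ ∈ P := by
    intro d hd
    induction hd using Subgroup.closure_induction with
    | mem d hd =>
      rcases hd with rfl | rfl
      · exact sg_norm
      · exact ep_norm
    | one => simp
    | mul a b _ _ ha hb =>
      intro p
      rw [hb p, ha (b * p * b⁻¹)]
      have : a * (b * p * b⁻¹) * a⁻¹ = a * b * p * (a * b)⁻¹ := by group
      rw [this]
    | inv a _ ha =>
      intro p
      rw [ha (a⁻¹ * p * a⁻¹⁻¹)]
      have : a * (a⁻¹ * p * a⁻¹⁻¹) * a⁻¹ = p := by group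
      rw [this]
  exact (h d hd p).1 hp

end Run7.h551.Brg
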