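import Mathlib
import Pool.Agent.Run7.h551.Brg

/-!
# From words in the two automorphisms to all automorphisms of the free group, part two
-/

set_option linter.unusedSectionVars false
set_option linter.unusedSimpArgs false

namespace Run7.h551.Brg

open Run7.h551 Run7.h551.Hur

/-- Twenty-four cosets. -/
def S : Set (MulAut F) :=
  {γ | ∃ p ∈ P, ∃ d ∈ D, γ = p * d ∨ γ = p * d * mu ∨ γ = p * d * (mu * sg)}

theorem mem_S1 {p d : MulAut F} (hp : p ∈ P) (hd : d ∈ D) : p * d ∈ S := ⟨p, hp, d, hd, Or.inl rfl⟩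
theorem mem_S2 {p d : MulAut F} (hp : p ∈ P) (hd : d ∈ D) : p * d * mu ∈ S :=
  ⟨p, hp, d, hd, Or.inr (Or.inl rfl)⟩
theorem mem_S3 {p d : MulAut F} (hp : p ∈ P) (hd : d ∈ D) : p * d * (mu * sg) ∈ S :=
  ⟨p, hp, d, hd, Or.inr (Or.inr rfl)⟩

theorem mul_S {p d γ : MulAut F} (hp : p ∈ P) (hd : d ∈ D) (hγ : γ ∈ S) : p * d * γ ∈ S := by
  obtain ⟨p', hp', d', hd', h⟩ := hγ
  have key : p * (d * p' * d⁻¹) ∈ P := P.mul_mem hp (D_norm hd hp')
  have key2 : d * d' ∈ D := D.mul_mem hd hd'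
  rcases h with rfl | rfl | rfl
  · have : p * d * (p' * d') = p * (d * p' * d⁻¹) * (d * d') := by group
    rw [this]
    exact mem_S1 key key2
  · have : p * d * (p' * d' * mu) = p * (d * p' * d⁻¹) * (d * d') * mu := by group
    rw [this]
    exact mem_S2 key key2
  · have : p * d * (p' * d' * (mu * sg)) = p * (d * p' * d⁻¹) * (d * d') * (mu * sg) := by group
    rw [this]
    exact mem_S3 key key2

/-- Right multiplication by `δ` preserves `S` as soon as it does so for three elements. -/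
theorem mul_right_S {δ : MulAut F} (h1 : δ ∈ S) (h2 : mu * δ ∈ S) (h3 : mu * sg * δ ∈ S) :
    ∀ γ ∈ S, γ * δ ∈ S := by
  rintro γ ⟨p, hp, d, hd, rfl | rfl | rfl⟩
  · exact mul_S hp hd h1
  · rw [mul_assoc (p * d)]
    exact mul_S hp hd h2
  · rw [mul_assoc (p * d)]
    exact mul_S hp hd h3

/-- Elements whose right multiplication preserves `S`. -/
def Nn : Subgroup (MulAut F) where
  carrier := {δ | (∀ γ ∈ S, γ * δ ∈ S) ∧ ∀ γ ∈ S, γ * δ⁻¹ ∈ S}
  one_mem' := by simp
  mul_mem' := by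
    rintro a b ⟨h1, h2⟩ ⟨h3, h4⟩
    refine ⟨fun γ hγ => ?_, fun γ hγ => ?_⟩
    · rw [← mul_assoc]
      exact h3 _ (h1 _ hγ)
    · rw [mul_inv_rev, ← mul_assoc]
      exact h2 _ (h4 _ hγ)
  inv_mem' := by
    rintro a ⟨h1, h2⟩
    exact ⟨h2, by simpa using h1⟩

theorem sg_mem_Nn : sg ∈ Nn := by
  have h : ∀ γ ∈ S, γ * sg ∈ S := by
    apply mul_right_S
    · simpa using mem_S1 P.one_mem sg_mem
    · simpa using mem_S3 P.one_mem D.one_mem
    · rw [mul_assoc, sg_sq]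
      simpa using mem_S2 P.one_mem D.one_mem
  exact ⟨h, by rw [sg_inv]; exact h⟩

theorem ep_mem_Nn : ep ∈ Nn := by
  have h : ∀ γ ∈ S, γ * ep ∈ S := by
    apply mul_right_S
    · simpa using mem_S1 P.one_mem ep_mem
    · have : mu * ep = MulAut.conj y * be⁻¹ * ep * mu := by
        apply aut_ext <;> simp [mul_assoc]
      rw [this]
      exact mem_S2 (P.mul_mem (conj_mem_P _) (P.inv_mem be_mem_P)) ep_mem
    · have : mu * sg * ep = be⁻¹ * (sg * ep * sg) * (mu * sg) := by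
        apply aut_ext <;> simp [mul_assoc]
      rw [this]
      exact mem_S3 (P.inv_mem be_mem_P) (D.mul_mem (D.mul_mem sg_mem ep_mem) sg_mem)
  exact ⟨h, by rw [ep_inv]; exact h⟩

theorem mu_mem_Nn : mu ∈ Nn := by
  refine ⟨mul_right_S ?_ ?_ ?_, mul_right_S ?_ ?_ ?_⟩
  · simpa using mem_S2 P.one_mem D.one_mem
  · have : mu * mu = be⁻¹ * 1 := by
      apply aut_ext <;> simp [mul_assoc]
    rw [this]
    exact mem_S1 (P.inv_mem be_mem_P) D.one_mem
  · have : mu * sg * mu = MulAut.conj y * be⁻¹ * (sg * ep) * (mu * sg) := by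
      apply aut_ext <;> simp [mul_assoc]
    rw [this]
    exact mem_S3 (P.mul_mem (conj_mem_P _) (P.inv_mem be_mem_P)) (D.mul_mem sg_mem ep_mem)
  · have : mu⁻¹ = be * 1 * mu := by
      apply aut_ext <;> simp [mul_assoc]
    rw [this]
    exact mem_S2 be_mem_P D.one_mem
  · rw [mul_inv_cancel]
    simpa using mem_S1 P.one_mem D.one_mem
  · have : mu * sg * mu⁻¹ = MulAut.conj x⁻¹ * al * (ep * sg) * (mu * sg) := by
      apply aut_ext <;> simp [mul_assoc]
    rw [this]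
    exact mem_S3 (P.mul_mem (conj_mem_P _) al_mem_P) (D.mul_mem ep_mem sg_mem)

theorem conj_mem_Nn (g : F) : MulAut.conj g ∈ Nn := by
  have h : ∀ g : F, ∀ γ ∈ S, γ * MulAut.conj g ∈ S := by
    intro g
    apply mul_right_S
    · simpa using mem_S1 (conj_mem_P g) D.one_mem
    · rw [mul_conj]
      simpa using mem_S2 (conj_mem_P (mu g)) D.one_mem
    · rw [mul_conj]
      simpa using mem_S3 (conj_mem_P ((mu * sg) g)) D.one_mem
  exact ⟨h g, by rw [← map_inv]; exact h _⟩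

theorem Nn_top : Nn = ⊤ :=
  Pool.Agent.H528.Nielsen.nielsen Nn sg_mem_Nn ep_mem_Nn mu_mem_Nn conj_mem_Nn
    sg_x sg_y ep_x ep_y mu_x mu_y

theorem mem_S (γ : MulAut F) : γ ∈ S := by
  have h1 : (1 : MulAut F) ∈ S := by simpa using mem_S1 P.one_mem D.one_mem
  have h2 : γ ∈ Nn := by rw [Nn_top]; trivial
  simpa using h2.1 1 h1

/-- The four letters. -/
def L4 (f : F) : Prop := f = x ∨ f = x⁻¹ ∨ f = y ∨ f = y⁻¹

theorem L4_inv {f : F} (h : L4 f) : L4 f⁻¹ := by
  rcases h with rfl | rfl | rfl | rfl <;> simp [L4]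

theorem L4_map {γ : MulAut F} (h1 : L4 (γ x)) (h2 : L4 (γ y)) {f : F} (h : L4 f) : L4 (γ f) := by
  rcases h with rfl | rfl | rfl | rfl
  · exact h1
  · rw [map_inv]; exact L4_inv h1
  · exact h2
  · rw [map_inv]; exact L4_inv h2

theorem D_L4 {d : MulAut F} (hd : d ∈ D) : L4 (d x) ∧ L4 (d y) := by
  have h : ∀ d ∈ D, (L4 (d x) ∧ L4 (d y)) ∧ (L4 (d⁻¹ x) ∧ L4 (d⁻¹ y)) := by
    intro d hd
    induction hd using Subgroup.closure_induction with
    | mem d hd =>
      rcases hd with rfl | rfl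
      · rw [sg_inv]; simp [L4]
      · rw [ep_inv]; simp [L4]
    | one => simp [L4]
    | mul a b _ _ ha hb =>
      rw [mul_inv_rev]
      exact ⟨⟨L4_map ha.1.1 ha.1.2 hb.1.1, L4_map ha.1.1 ha.1.2 hb.1.2⟩,
        ⟨L4_map hb.2.1 hb.2.2 ha.2.1, L4_map hb.2.1 hb.2.2 ha.2.2⟩⟩
    | inv a _ ha =>
      rw [inv_inv]
      exact ⟨ha.2, ha.1⟩
  exact (h d hd).1

/-- The matrix modulo four. -/
def mat4 : MulAut F →* Matrix (Fin 2) (Fin 2) (ZMod 4) :=
  (RingHom.toMonoidHom (RingHom.mapMatrix (m := Fin 2) (Int.castRingHom (ZMod 4)))).comp mat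

theorem mat4_apply (γ : MulAut F) (i j : Fin 2) :
    mat4 γ i j = ((expSum i (γ (FreeGroup.of j)) : ℤ) : ZMod 4) := rfl

/-- Matrices modulo four with diagonal one and even entries. -/
def H4 (M : Matrix (Fin 2) (Fin 2) (ZMod 4)) : Prop :=
  ∃ a b : ZMod 2, M = !![1, (2 : ZMod 4) * a.val; (2 : ZMod 4) * b.val, 1]

theorem H4_mul {M N : Matrix (Fin 2) (Fin 2) (ZMod 4)} (hM : H4 M) (hN : H4 N) : H4 (M * N) := by
  obtain ⟨a, b, rfl⟩ := hM
  obtain ⟨c, d, rfl⟩ := hN
  refine ⟨a + c, b + d, ?_⟩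
  rw [Matrix.mul_fin_two]
  revert a b c d
  decide

theorem P_H4 {p : MulAut F} (hp : p ∈ P) : H4 (mat4 p) := by
  obtain ⟨g, w, rfl⟩ := hp
  have h1 : mat4 (MulAut.conj g) = 1 := by
    change RingHom.mapMatrix (m := Fin 2) (Int.castRingHom (ZMod 4)) (mat (MulAut.conj g)) = 1
    rw [mat_conj]
    exact map_one _
  rw [map_mul, h1, one_mul]
  induction w using FreeGroup.induction_on with
  | C1 =>
    rw [map_one, map_one]
    refine ⟨0, 0, ?_⟩
    decide
  | of i =>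
    fin_cases i
    · refine ⟨1, 0, ?_⟩
      ext i j
      simp only [act, FreeGroup.lift_apply_of, mat4_apply]
      fin_cases i <;> fin_cases j <;> simp <;> decide
    · refine ⟨0, 1, ?_⟩
      ext i j
      simp only [act, FreeGroup.lift_apply_of, mat4_apply]
      fin_cases i <;> fin_cases j <;> simp <;> decide
  | inv_of i _ =>
    fin_cases i
    · refine ⟨1, 0, ?_⟩
      ext i j
      simp only [act, map_inv, FreeGroup.lift_apply_of, mat4_apply]
      fin_cases i <;> fin_cases j <;> simp <;> decide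
    · refine ⟨0, 1, ?_⟩
      ext i j
      simp only [act, map_inv, FreeGroup.lift_apply_of, mat4_apply]
      fin_cases i <;> fin_cases j <;> simp <;> decide
  | mul u v hu hv =>
    rw [map_mul, map_mul]
    exact H4_mul hu hv

/-- The letters, enumerated. -/
def lett (c : Fin 4) : F := ![x, x⁻¹, y, y⁻¹] c

theorem exists_lett {f : F} (h : L4 f) : ∃ c, f = lett c := by
  rcases h with rfl | rfl | rfl | rfl
  · exact ⟨0, rfl⟩
  · exact ⟨1, rfl⟩
  · exact ⟨2, rfl⟩
  · exact ⟨3, rfl⟩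

/-- Exponent sums of the letters. -/
def uu (c : Fin 4) : ZMod 4 := ![1, -1, 0, 0] c
/-- Exponent sums of the letters. -/
def vv (c : Fin 4) : ZMod 4 := ![0, 0, 1, -1] c
/-- The matrices of the three coset representatives. -/
def tt (t : Fin 3) : Matrix (Fin 2) (Fin 2) (ZMod 4) :=
  ![!![1, 0; 0, 1], !![1, 0; 1, 1], !![0, 1; 1, 1]] t

theorem lett_u (c : Fin 4) : ((expSum 0 (lett c) : ℤ) : ZMod 4) = uu c := by
  fin_cases c <;> simp [lett, uu]
theorem lett_v (c : Fin 4) : ((expSum 1 (lett c) : ℤ) : ZMod 4) = vv c := by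
  fin_cases c <;> simp [lett, vv]

theorem final_check : ∀ (a b : ZMod 2) (c c' : Fin 4) (t : Fin 3),
    (!![1, (2 : ZMod 4) * a.val; (2 : ZMod 4) * b.val, 1] : Matrix (Fin 2) (Fin 2) (ZMod 4)) *
      !![uu c, uu c'; vv c, vv c'] * tt t = 1 → t = 0 ∧ c = 0 ∧ c' = 2 := by
  decide

theorem mem_P_of_mat4 {γ : MulAut F} (h : mat4 γ = 1) : γ ∈ P := by
  have key : ∀ p ∈ P, ∀ d ∈ D, ∀ (t : Fin 3) (τ : MulAut F), mat4 τ = tt t →
      mat4 (p * d * τ) = 1 → t = 0 ∧ d = 1 := by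
    intro p hp d hd t τ hτ h1
    obtain ⟨a, b, hab⟩ := P_H4 hp
    obtain ⟨⟨c, hc⟩, ⟨c', hc'⟩⟩ := (D_L4 hd).imp exists_lett exists_lett
    have h2 : mat4 d = !![uu c, uu c'; vv c, vv c'] := by
      ext i j
      rw [mat4_apply]
      fin_cases i <;> fin_cases j
      · change ((expSum 0 (d x) : ℤ) : ZMod 4) = _
        rw [hc, lett_u]; rfl
      · change ((expSum 0 (d y) : ℤ) : ZMod 4) = _
        rw [hc', lett_u]; rfl
      · change ((expSum 1 (d x) : ℤ) : ZMod 4) = _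
        rw [hc, lett_v]; rfl
      · change ((expSum 1 (d y) : ℤ) : ZMod 4) = _
        rw [hc', lett_v]; rfl
    rw [map_mul, map_mul, hab, h2, hτ] at h1
    obtain ⟨e1, e2, e3⟩ := final_check a b c c' t h1
    refine ⟨e1, aut_ext ?_ ?_⟩
    · rw [hc, e2]; rfl
    · rw [hc', e3]; rfl
  obtain ⟨p, hp, d, hd, rfl | rfl | rfl⟩ := mem_S γ
  · have := key p hp d hd 0 1 (by rw [map_one]; decide) (by simpa using h)
    rw [this.2, mul_one]
    exact hp
  · have := key p hp d hd 1 mu (by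
      ext i j
      rw [mat4_apply]
      fin_cases i <;> fin_cases j <;> simp <;> decide) h
    exact absurd this.1 (by decide)
  · have := key p hp d hd 2 (mu * sg) (by
      ext i j
      rw [mat4_apply]
      fin_cases i <;> fin_cases j <;> simp <;> decide) h
    exact absurd this.1 (by decide)

end Run7.h551.Brg
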