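import Mathlib
import Pool.Agent.Run7.h551.Brg2

/-!
# From words in the two automorphisms to all automorphisms of the free group, part three
-/

set_option linter.unusedSectionVars false
set_option linter.unusedSimpArgs false

namespace Run7.h551

open Run7.h551.Hur Run7.h551.Brg

theorem innerOn_of_innerMod {r : ℕ} {K : Subgroup (PhiQ r)} [K.Normal] {γ : MulAut F}
    (h : InnerMod r K γ) : InnerOn K (indAut (derivedSeries F r) γ) := by
  obtain ⟨g, hg⟩ := h
  refine ⟨QuotientGroup.mk g, fun f => ?_⟩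
  obtain ⟨f, rfl⟩ := QuotientGroup.mk_surjective f
  rw [indAut_mk, QuotientGroup.eq]
  have h1 := hg f
  rw [QuotientGroup.mk_mul, QuotientGroup.mk_inv] at h1
  have h2 := K.inv_mem h1
  rw [mul_inv_rev, inv_inv] at h2
  exact (‹K.Normal›.mem_comm_iff).1 h2

theorem innerOn_conj_mul {r : ℕ} {K : Subgroup (PhiQ r)} [hK : K.Normal] {γ : MulAut F} {g : F}
    (h : InnerOn K (indAut (derivedSeries F r) (MulAut.conj g * γ))) :
    InnerOn K (indAut (derivedSeries F r) γ) := by
  obtain ⟨a, ha⟩ := h
  refine ⟨(QuotientGroup.mk g)⁻¹ * a, fun f => ?_⟩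
  have h1 := ha f
  obtain ⟨f, rfl⟩ := QuotientGroup.mk_surjective f
  rw [indAut_mk, QuotientGroup.eq] at h1
  rw [indAut_mk, QuotientGroup.eq]
  have h2 := hK.conj_mem _ h1 (QuotientGroup.mk g)⁻¹
  rw [MulAut.mul_apply, MulAut.conj_apply, QuotientGroup.mk_mul, QuotientGroup.mk_mul,
    QuotientGroup.mk_inv] at h2
  convert h2 using 1
  group

theorem congOpen_of_words {r : ℕ} (hr : 1 ≤ r)
    {N : Subgroup (Matrix.SpecialLinearGroup (Fin 2) ℤ)} {K : Subgroup (PhiQ r)}
    (hK : K.Characteristic) (hKf : K.FiniteIndex)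
    (h : ∀ w, InnerOn K (indAut (derivedSeries F r) (act w)) → sl w ∈ N) : CongOpen r N := by
  have hf1 : Finite (PhiQ r →* Multiplicative (ZMod 4)) := finite_hom_freeGroup_quot _ _
  have i1 : (homKer (PhiQ r) (Multiplicative (ZMod 4))).FiniteIndex := homKer_finiteIndex
  have hW : derivedSeries (Multiplicative (ZMod 4)) 1 = ⊥ := by
    rw [derivedSeries_one]
    exact (commutator_eq_bot_iff_center_eq_top _).mpr (CommGroup.center_eq_top)
  refine ⟨K ⊓ homKer (PhiQ r) (Multiplicative (ZMod 4)), inferInstance, inferInstance, ?_⟩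
  intro γ hγ
  have h1 := innerOn_of_innerMod hγ
  obtain ⟨a, ha⟩ := h1
  have hK1 : InnerOn K (indAut (derivedSeries F r) γ) := by
    refine ⟨a, fun f => ?_⟩
    have := ha f
    rw [QuotientGroup.eq] at this ⊢
    exact this.1
  have hK2 : InnerOn (homKer (PhiQ r) (Multiplicative (ZMod 4)))
      (indAut (derivedSeries F r) γ) := by
    refine ⟨a, fun f => ?_⟩
    have := ha f
    rw [QuotientGroup.eq] at this ⊢
    exact this.2
  have h4 : mat4 γ = 1 := by
    ext i j
    rw [mat4_apply]
    have key := inner_transfer (FreeGroup.lift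
      (fun j : Fin 2 => Multiplicative.ofAdd (if j = i then (1 : ZMod 4) else 0))) hW hr hK2
    obtain ⟨g, hg⟩ := key
    have e : ∀ f : F, FreeGroup.lift
        (fun j : Fin 2 => Multiplicative.ofAdd (if j = i then (1 : ZMod 4) else 0)) f =
        Multiplicative.ofAdd ((expSum i f : ℤ) : ZMod 4) := by
      intro f
      induction f using FreeGroup.induction_on with
      | C1 => simp
      | of j => simp
      | inv_of j _ => simp
      | mul u v hu hv => rw [map_mul, hu, hv, expSum_mul]; simp
    have h5 := hg (FreeGroup.of j)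
    rw [e, e] at h5
    have h6 := Multiplicative.ofAdd.injective h5
    rw [h6]
    simp [Matrix.one_apply, eq_comm]
  obtain ⟨g, w, rfl⟩ := mem_P_of_mat4 h4
  refine ⟨sl w, h w (innerOn_conj_mul hK1), fun i j => ?_⟩
  rw [← mat_act w]
  have : mat (MulAut.conj g * act w) = mat (act w) := by rw [map_mul, mat_conj, one_mul]
  rw [← this]
  rfl

end Run7.h551
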