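import Mathlib

/-!
# Invariant elements of group rings die under projections

If an element `y` of the group ring of `Q × ℤ/M` over `ℤ/m` is fixed by left multiplication by
`(g, 1)` and `m * orderOf g` divides `M`, then the projection of `y` to the group ring of `Q`
vanishes.
-/

set_option linter.unusedSectionVars false

namespace Run7.h551

open MonoidAlgebra Finset

theorem sum_periodic {A : Type*} [AddCommMonoid A] (f : ℕ → A) (o : ℕ)
    (h : ∀ a, f (a + o) = f a) (n : ℕ) :
    ∑ a ∈ range (n * o), f a = n • ∑ a ∈ range o, f a := by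
  have h2 : ∀ n a, f (n * o + a) = f a := by
    intro n a
    induction n with
    | zero => simp
    | succ n ih =>
      have : (n + 1) * o + a = (n * o + a) + o := by ring
      rw [this, h, ih]
  induction n with
  | zero => simp
  | succ n ih =>
    rw [add_mul, one_mul, sum_range_add, ih, succ_nsmul]
    congr 1
    exact sum_congr rfl fun a _ => h2 n a

theorem sum_range_zmod' {A : Type*} [AddCommMonoid A] {M : ℕ} [NeZero M] (f : ZMod M → A) :
    ∑ i ∈ range M, f (i : ZMod M) = ∑ i : ZMod M, f i := by
  refine Finset.sum_bij' (fun i _ => (i : ZMod M)) (fun a _ => a.val) ?_ ?_ ?_ ?_ ?_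
  · intro i _; exact Finset.mem_univ _
  · intro a _; exact Finset.mem_range.mpr (ZMod.val_lt a)
  · intro i hi; exact ZMod.val_cast_of_lt (Finset.mem_range.mp hi)
  · intro a _; exact ZMod.natCast_zmod_val a
  · intro i _; rfl

variable {k : Type*} [CommRing k] {Q : Type*} [Group Q] {M : ℕ} [NeZero M]

/-- Projection of group rings. -/
noncomputable abbrev prj : MonoidAlgebra k (Q × Multiplicative (ZMod M)) →+* MonoidAlgebra k Q :=
  mapDomainRingHom k (MonoidHom.fst Q (Multiplicative (ZMod M)))

theorem prj_coeff (y : MonoidAlgebra k (Q × Multiplicative (ZMod M))) (q : Q) :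
    (prj y).coeff q = ∑ a : ZMod M, y.coeff (q, Multiplicative.ofAdd a) := by
  classical
  induction y using MonoidAlgebra.induction_linear with
  | zero => simp
  | add y z hy hz =>
    rw [map_add, MonoidAlgebra.coeff_add, Finsupp.add_apply, hy, hz, ← sum_add_distrib]
    exact sum_congr rfl fun a _ => by rw [MonoidAlgebra.coeff_add, Finsupp.add_apply]
  | single z r =>
    obtain ⟨q', a'⟩ := z
    change (MonoidAlgebra.mapDomain _ _).coeff q = _
    rw [MonoidAlgebra.mapDomain_single]
    simp only [MonoidAlgebra.coeff_single, MonoidHom.coe_fst, Finsupp.single_apply, Prod.mk.injEq]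
    by_cases h : q' = q
    · subst h
      simp only [true_and, if_true]
      rw [Finset.sum_eq_single (Multiplicative.toAdd a')]
      · simp
      · intro b _ hb
        rw [if_neg]
        intro h2
        apply hb
        rw [h2]; rfl
      · intro h2; exact absurd (Finset.mem_univ _) h2
    · simp [h]

theorem ann (m : ℕ) [CharP k m] (g : Q) (hM : m * orderOf g ∣ M)
    {y : MonoidAlgebra k (Q × Multiplicative (ZMod M))}
    (hy : MonoidAlgebra.of k _ (g, Multiplicative.ofAdd (1 : ZMod M)) * y = y) : prj y = 0 := by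
  have h1 : ∀ (q : Q) (a : ZMod M), y.coeff (g⁻¹ * q, Multiplicative.ofAdd a) =
      y.coeff (q, Multiplicative.ofAdd (a + 1)) := by
    intro q a
    have h2 := congrArg (fun t : MonoidAlgebra k (Q × Multiplicative (ZMod M)) =>
      t.coeff (q, Multiplicative.ofAdd (a + 1))) hy
    simp only [MonoidAlgebra.of_apply, MonoidAlgebra.coeff_single_mul_apply, one_mul] at h2
    rw [← h2]
    congr 1
    ext
    · simp
    · simp [ofAdd_add]
  have h2 : ∀ (n : ℕ) (q : Q), y.coeff (q, Multiplicative.ofAdd (n : ZMod M)) =
      y.coeff ((g⁻¹) ^ n * q, Multiplicative.ofAdd 0) := by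
    intro n
    induction n with
    | zero => intro q; simp
    | succ n ih =>
      intro q
      rw [Nat.cast_succ, ← h1, ih, pow_succ, mul_assoc]
  ext q
  rw [prj_coeff, ← sum_range_zmod' (fun a => y.coeff (q, Multiplicative.ofAdd a))]
  obtain ⟨t, ht⟩ := hM
  have h3 : ∑ i ∈ range M, y.coeff (q, Multiplicative.ofAdd (i : ZMod M)) =
      (m * t) • ∑ i ∈ range (orderOf g), y.coeff ((g⁻¹) ^ i * q, Multiplicative.ofAdd 0) := by
    have e : M = (m * t) * orderOf g := by rw [ht]; ring
    have h4 : ∀ N, ∑ i ∈ range N, y.coeff (q, Multiplicative.ofAdd (i : ZMod M)) =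
        ∑ i ∈ range N, y.coeff ((g⁻¹) ^ i * q, Multiplicative.ofAdd 0) :=
      fun N => sum_congr rfl fun i _ => h2 i q
    have h5 : range M = range ((m * t) * orderOf g) := congrArg range e
    rw [h4, h5]
    apply sum_periodic
    intro a
    rw [pow_add, ← orderOf_inv, pow_orderOf_eq_one, mul_one]
  rw [h3, mul_smul, ← Nat.cast_smul_eq_nsmul k, CharP.cast_eq_zero, zero_smul]
  simp

/-- The same with the opposite generator. -/
theorem ann' (m : ℕ) [CharP k m] (g : Q) (hM : m * orderOf g ∣ M)
    {y : MonoidAlgebra k (Q × Multiplicative (ZMod M))}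
    (hy : MonoidAlgebra.of k _ (g, Multiplicative.ofAdd (-1 : ZMod M)) * y = y) : prj y = 0 := by
  apply ann m g⁻¹ (by rw [orderOf_inv]; exact hM)
  conv_lhs => rw [← hy]
  rw [← mul_assoc, ← map_mul]
  have : ((g⁻¹, Multiplicative.ofAdd (1 : ZMod M)) : Q × Multiplicative (ZMod M)) *
      (g, Multiplicative.ofAdd (-1 : ZMod M)) = 1 := by
    ext
    · simp
    · simp
  rw [this, map_one, one_mul]

end Run7.h551
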