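import Mathlib
import Pool.Agent.Run7.h551.Hur
import Pool.Agent.Run7.h551.Ann

/-!
# Hurwitz moves in affine groups over group rings

We describe the action of a word on triples of the affine group of a group ring by two elements
`A, B` of the group ring (its Fox derivatives), and express an arbitrary homomorphism to an
extension of a quotient group by an abelian group in terms of `A` and `B`.
-/

set_option linter.unusedSectionVars false

namespace Run7.h551

open MonoidAlgebra Hur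

section T

variable {k : Type*} [CommRing k] {H : Type*} [Group H] {V : Type*} [AddCommGroup V] [Module k V]

/-- Group ring elements act on functions. -/
noncomputable def TT (v : H → V) (D : MonoidAlgebra k H) : H → V :=
  Finsupp.linearCombination k (fun h x => v (x * h⁻¹)) D.coeff

theorem TT_add (v : H → V) (D D' : MonoidAlgebra k H) : TT v (D + D') = TT v D + TT v D' := by
  unfold TT
  rw [MonoidAlgebra.coeff_add, map_add]

theorem TT_zero (v : H → V) : TT v (0 : MonoidAlgebra k H) = 0 := by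
  unfold TT
  rw [MonoidAlgebra.coeff_zero, map_zero]

theorem TT_neg (v : H → V) (D : MonoidAlgebra k H) : TT v (-D) = -TT v D := by
  have h := TT_add v D (-D)
  rw [add_neg_cancel, TT_zero] at h
  exact (neg_eq_of_add_eq_zero_right h.symm).symm

theorem TT_single (v : H → V) (h : H) (c : k) (x : H) :
    TT v (MonoidAlgebra.single h c) x = c • v (x * h⁻¹) := by
  unfold TT
  rw [MonoidAlgebra.coeff_single, Finsupp.linearCombination_single]
  rfl

theorem TT_one (v : H → V) : TT v (1 : MonoidAlgebra k H) = v := by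
  funext x
  rw [MonoidAlgebra.one_def, TT_single]
  simp

theorem TT_mul_of (v : H → V) (D : MonoidAlgebra k H) (θ : H) (x : H) :
    TT v (D * MonoidAlgebra.of k H θ) x = TT v D (x * θ⁻¹) := by
  induction D using MonoidAlgebra.induction_linear with
  | zero => rw [zero_mul, TT_zero]; rfl
  | add y z hy hz => rw [add_mul, TT_add, TT_add, Pi.add_apply, Pi.add_apply, hy, hz]
  | single h c =>
    rw [MonoidAlgebra.of_apply, MonoidAlgebra.single_mul_single, mul_one, TT_single, TT_single]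
    congr 2
    group

end T

section dyn

variable {k : Type*} [CommRing k] {Q : Type*} [Group Q] (p q : Q)
variable {G H V : Type*} [Group G] [Group H] [AddCommGroup V] [Module k V]
variable (ρ : Q →* H) (π : G →* H) (t : H → G) (j : Multiplicative V →* G) (va vb : H → V)

/-- The affine group of the group ring. -/
abbrev EE (k Q : Type*) [CommRing k] [Group Q] := Ax (MonoidAlgebra.of k Q)

/-- Abbreviation for group elements in the group ring. -/
noncomputable abbrev oo (k : Type*) [CommRing k] {Q : Type*} [Group Q] (g : Q) :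
    MonoidAlgebra k Q := MonoidAlgebra.of k Q g

/-- The invariant `ε`. -/
noncomputable def ep (cu cp cq : MonoidAlgebra k Q) : MonoidAlgebra k Q :=
  cu + oo k (p * q)⁻¹ * cp + oo k q⁻¹ * cq

/-- The triple with given translation parts. -/
def trip (cu cp cq : MonoidAlgebra k Q) : EE k Q × EE k Q × EE k Q :=
  (⟨cu, (p * q)⁻¹⟩, ⟨cp, p⟩, ⟨cq, q⟩)

/-- Formula for the action on triples. -/
def G1 (h : Equiv.Perm (EE k Q × EE k Q × EE k Q)) (A B : MonoidAlgebra k Q) : Prop :=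
  ∀ cu cp cq : MonoidAlgebra k Q, h⁻¹ (trip p q cu cp cq) =
    trip p q cu (cp + (1 - oo k p) * (oo k q * (B * ep p q cu cp cq)))
      (cq + (1 - oo k q) * (A * ep p q cu cp cq))

/-- Fundamental relation. -/
def G3 (A B : MonoidAlgebra k Q) (θ : Q) : Prop :=
  oo k θ - 1 = (oo k q⁻¹ - 1) * A + (oo k (q⁻¹ * p⁻¹ * q) - 1) * B

/-- Relation with a given homomorphism. -/
def G2 (γ : G) (A B : MonoidAlgebra k Q) (θ : Q) : Prop :=
  ρ θ = (π γ)⁻¹ ∧ ∀ x : H,
    j (Multiplicative.ofAdd (TT va (mapDomainRingHom k ρ A) x + TT vb (mapDomainRingHom k ρ B) x)) =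
      t x * γ * (t (x * π γ))⁻¹

theorem ep_evol {A B : MonoidAlgebra k Q} {θ : Q} (h : G3 p q A B θ)
    (cu cp cq : MonoidAlgebra k Q) :
    ep p q cu (cp + (1 - oo k p) * (oo k q * (B * ep p q cu cp cq)))
      (cq + (1 - oo k q) * (A * ep p q cu cp cq)) = oo k θ * ep p q cu cp cq := by
  set e := ep p q cu cp cq with he
  have h1 : oo k θ = 1 + ((oo k q⁻¹ - 1) * A + (oo k (q⁻¹ * p⁻¹ * q) - 1) * B) := by
    unfold G3 at h
    rw [← h]; abel
  have h2 : oo k (p * q)⁻¹ * ((1 - oo k p) * (oo k q * (B * e))) =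
      (oo k (q⁻¹ * p⁻¹ * q) - 1) * B * e := by
    have e1 : oo k (p * q)⁻¹ * oo k q = oo k (q⁻¹ * p⁻¹ * q) := by
      rw [oo, oo, oo, ← map_mul]; congr 1; group
    have e2 : oo k (p * q)⁻¹ * oo k p * oo k q = 1 := by
      rw [oo, oo, oo, ← map_mul, ← map_mul, ← map_one (MonoidAlgebra.of k Q)]; congr 1; group
    calc oo k (p * q)⁻¹ * ((1 - oo k p) * (oo k q * (B * e)))
        = (oo k (p * q)⁻¹ * oo k q - oo k (p * q)⁻¹ * oo k p * oo k q) * B * e := by
          noncomm_ring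
      _ = _ := by rw [e1, e2]
  have h3 : oo k q⁻¹ * ((1 - oo k q) * (A * e)) = (oo k q⁻¹ - 1) * A * e := by
    have e1 : oo k q⁻¹ * oo k q = 1 := by
      rw [oo, oo, ← map_mul, inv_mul_cancel, map_one]
    calc oo k q⁻¹ * ((1 - oo k q) * (A * e)) = (oo k q⁻¹ - oo k q⁻¹ * oo k q) * A * e := by
          noncomm_ring
      _ = _ := by rw [e1]
  have h4 : ep p q cu (cp + (1 - oo k p) * (oo k q * (B * e))) (cq + (1 - oo k q) * (A * e)) =
      e + (oo k (p * q)⁻¹ * ((1 - oo k p) * (oo k q * (B * e))) +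
        oo k q⁻¹ * ((1 - oo k q) * (A * e))) := by
    rw [he]
    unfold ep
    rw [mul_add (oo k (p * q)⁻¹) cp, mul_add (oo k q⁻¹) cq]
    abel
  rw [h4, h2, h3, h1, add_mul 1, one_mul, add_mul]
  abel

/-- The subgroup of compatible pairs. -/
def SS : Subgroup (Equiv.Perm (EE k Q × EE k Q × EE k Q) × G) where
  carrier := {r | ∃ (A B : MonoidAlgebra k Q) (θ : Q), G1 p q r.1 A B ∧ G3 p q A B θ ∧
    G2 ρ π t j va vb r.2 A B θ}
  one_mem' := by
    refine ⟨0, 0, 1, ?_, ?_, ?_, ?_⟩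
    · intro cu cp cq
      change trip p q cu cp cq = _
      simp
    · unfold G3
      rw [oo, map_one, mul_zero, mul_zero, sub_self, add_zero]
    · change ρ 1 = (π 1)⁻¹
      simp
    · intro x
      change _ = t x * 1 * (t (x * π 1))⁻¹
      rw [map_zero, TT_zero, TT_zero]
      simp
  mul_mem' := by
    rintro ⟨h1, γ1⟩ ⟨h2, γ2⟩ ⟨A1, B1, θ1, a1, b1, c1, d1⟩ ⟨A2, B2, θ2, a2, b2, c2, d2⟩
    refine ⟨A1 + A2 * oo k θ1, B1 + B2 * oo k θ1, θ2 * θ1, ?_, ?_, ?_, ?_⟩
    · intro cu cp cq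
      change (h1 * h2)⁻¹ _ = _
      rw [mul_inv_rev, Equiv.Perm.mul_apply]
      have e1 := a1 cu cp cq
      simp only at e1
      rw [e1]
      have e2 := a2 cu (cp + (1 - oo k p) * (oo k q * (B1 * ep p q cu cp cq)))
        (cq + (1 - oo k q) * (A1 * ep p q cu cp cq))
      simp only at e2
      rw [e2, ep_evol p q b1]
      congr 1
      · noncomm_ring
      · noncomm_ring
    · unfold G3 at b1 b2 ⊢
      have e1 : oo k (θ2 * θ1) = oo k θ2 * oo k θ1 := map_mul _ _ _
      have e2 : oo k θ2 = 1 + ((oo k q⁻¹ - 1) * A2 + (oo k (q⁻¹ * p⁻¹ * q) - 1) * B2) := by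
        rw [← b2]; abel
      rw [e1, e2]
      have e3 : oo k θ1 = 1 + ((oo k q⁻¹ - 1) * A1 + (oo k (q⁻¹ * p⁻¹ * q) - 1) * B1) := by
        rw [← b1]; abel
      have e4 : (1 + ((oo k q⁻¹ - 1) * A2 + (oo k (q⁻¹ * p⁻¹ * q) - 1) * B2)) * oo k θ1 - 1 =
          (oo k θ1 - 1) + ((oo k q⁻¹ - 1) * A2 + (oo k (q⁻¹ * p⁻¹ * q) - 1) * B2) * oo k θ1 := by
        noncomm_ring
      rw [e4, b1]
      noncomm_ring
    · change ρ (θ2 * θ1) = (π (γ1 * γ2))⁻¹
      simp only at c1 c2
      rw [map_mul, map_mul, c1, c2]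
      group
    · intro x
      change _ = t x * (γ1 * γ2) * (t (x * π (γ1 * γ2)))⁻¹
      simp only at c1 d1 d2
      have e1 := d1 x
      have e2 := d2 (x * π γ1)
      have e3 : ∀ D : MonoidAlgebra k Q, ∀ v : H → V,
          TT v (mapDomainRingHom k ρ (D * oo k θ1)) x = TT v (mapDomainRingHom k ρ D) (x * π γ1) := by
        intro D v
        have e4 : mapDomainRingHom k ρ (oo k θ1) = MonoidAlgebra.of k H (ρ θ1) := by
          simp [MonoidAlgebra.of_apply]
        rw [map_mul, e4, TT_mul_of, c1, inv_inv]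
      rw [map_add (mapDomainRingHom k ρ), map_add (mapDomainRingHom k ρ), TT_add, TT_add,
        Pi.add_apply, Pi.add_apply, e3, e3]
      have e5 : ∀ a b c d : V, a + b + (c + d) = a + c + (b + d) := fun a b c d => by abel
      rw [e5, ofAdd_add, map_mul, e1, e2, map_mul, mul_assoc x]
      group
  inv_mem' := by
    rintro ⟨h, γ⟩ ⟨A, B, θ, a, b, c, d⟩
    simp only at a c d
    have hθ : oo k θ * oo k θ⁻¹ = 1 := by
      rw [oo, oo, ← map_mul, mul_inv_cancel, map_one]
    have hb : G3 p q (-(A * oo k θ⁻¹)) (-(B * oo k θ⁻¹)) θ⁻¹ := by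
      unfold G3 at b ⊢
      have e1 : oo k θ⁻¹ - 1 = -((oo k θ - 1) * oo k θ⁻¹) := by
        rw [sub_mul, hθ]; noncomm_ring
      rw [e1, b]
      noncomm_ring
    refine ⟨-(A * oo k θ⁻¹), -(B * oo k θ⁻¹), θ⁻¹, ?_, hb, ?_, ?_⟩
    · intro cu cp cq
      change (h⁻¹)⁻¹ _ = _
      rw [inv_inv, ← Equiv.Perm.eq_inv_iff_eq]
      rw [a, ep_evol p q hb]
      congr 1
      · noncomm_ring
      · noncomm_ring
    · change ρ θ⁻¹ = (π γ⁻¹)⁻¹
      rw [map_inv, c, map_inv]
    · intro x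
      change _ = t x * γ⁻¹ * (t (x * π γ⁻¹))⁻¹
      have e1 := d (x * (π γ)⁻¹)
      have e3 : ∀ D : MonoidAlgebra k Q, ∀ v : H → V,
          TT v (mapDomainRingHom k ρ (-(D * oo k θ⁻¹))) x =
            -TT v (mapDomainRingHom k ρ D) (x * (π γ)⁻¹) := by
        intro D v
        have e4 : mapDomainRingHom k ρ (oo k θ⁻¹) = MonoidAlgebra.of k H (ρ θ⁻¹) := by
          simp [MonoidAlgebra.of_apply]
        rw [map_neg, map_mul, e4, TT_neg, Pi.neg_apply, TT_mul_of, map_inv, c, inv_inv]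
      rw [e3, e3, ← neg_add, ofAdd_neg, map_inv, e1, inv_mul_cancel_right, map_inv]
      group

theorem oo_mul (g h : Q) : oo k (g * h) = oo k g * oo k h := map_mul _ _ _

theorem oo_one : oo k (1 : Q) = 1 := map_one _

theorem gen_al (γ : G) (hγ : π γ = ρ q)
    (hva : ∀ x, j (Multiplicative.ofAdd (va x)) = t x * γ * (t (x * π γ))⁻¹) :
    ((hal⁻¹, γ) : Equiv.Perm (EE k Q × EE k Q × EE k Q) × G) ∈ SS p q ρ π t j va vb := by
  refine ⟨1, 0, q⁻¹, ?_, ?_, ?_, ?_⟩
  · intro cu cp cq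
    change (hal⁻¹)⁻¹ _ = _
    rw [inv_inv]
    refine Prod.ext rfl (Prod.ext ?_ ?_)
    · change (⟨cp, p⟩ : EE k Q) = ⟨cp + (1 - oo k p) * (oo k q * (0 * _)), p⟩
      simp
    · apply Ax.ext
      · change ((⟨cu, (p * q)⁻¹⟩ : EE k Q) * ⟨cp, p⟩ * ⟨cq, q⟩ *
          ((⟨cu, (p * q)⁻¹⟩ : EE k Q) * ⟨cp, p⟩)⁻¹).b = cq + (1 - oo k q) * (1 * ep p q cu cp cq)
        have e1 : MonoidAlgebra.of k Q ((p * q)⁻¹ * p) = oo k q⁻¹ := by
          congr 1; group
        have e2 : MonoidAlgebra.of k Q ((p * q)⁻¹ * p * q * ((p * q)⁻¹ * p)⁻¹) = oo k q := by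
          congr 1; group
        have e3 : oo k q * oo k q⁻¹ = (1 : MonoidAlgebra k Q) := by
          rw [← oo_mul, mul_inv_cancel, oo_one]
        simp only [Ax.mul_b, Ax.mul_a, Ax.inv_b, mul_neg]
        rw [← mul_assoc, ← map_mul, e1, e2, one_mul, ep, sub_mul, one_mul, mul_add, mul_add,
          ← mul_assoc (oo k q) (oo k q⁻¹), e3, one_mul, mul_add]
        simp only [oo]
        abel
      · change (p * q)⁻¹ * p * q * ((p * q)⁻¹ * p)⁻¹ = q
        group
  · unfold G3
    rw [mul_one, mul_zero, add_zero]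
  · change ρ q⁻¹ = (π γ)⁻¹
    rw [hγ, map_inv]
  · intro x
    rw [map_one, map_zero, TT_one, TT_zero, Pi.zero_apply, add_zero]
    exact hva x

theorem gen_be (γ : G) (hγ : π γ = ρ (q⁻¹ * p * q))
    (hvb : ∀ x, j (Multiplicative.ofAdd (vb x)) = t x * γ * (t (x * π γ))⁻¹) :
    ((hbe⁻¹, γ) : Equiv.Perm (EE k Q × EE k Q × EE k Q) × G) ∈ SS p q ρ π t j va vb := by
  refine ⟨0, 1, q⁻¹ * p⁻¹ * q, ?_, ?_, ?_, ?_⟩
  · intro cu cp cq
    change (hbe⁻¹)⁻¹ _ = _
    rw [inv_inv]
    refine Prod.ext rfl (Prod.ext ?_ ?_)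
    · apply Ax.ext
      · change ((⟨cq, q⟩ : EE k Q) * ⟨cu, (p * q)⁻¹⟩ * ⟨cp, p⟩ *
          ((⟨cq, q⟩ : EE k Q) * ⟨cu, (p * q)⁻¹⟩)⁻¹).b =
            cp + (1 - oo k p) * (oo k q * (1 * ep p q cu cp cq))
        have e1 : MonoidAlgebra.of k Q (q * (p * q)⁻¹) = oo k p⁻¹ := by
          congr 1; group
        have e2 : MonoidAlgebra.of k Q (q * (p * q)⁻¹ * p * (q * (p * q)⁻¹)⁻¹) = oo k p := by
          congr 1; group
        have e3 : oo k q * oo k q⁻¹ = (1 : MonoidAlgebra k Q) := by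
          rw [← oo_mul, mul_inv_cancel, oo_one]
        have e4 : oo k q * oo k (p * q)⁻¹ = (oo k p⁻¹ : MonoidAlgebra k Q) := by
          have e7 : q * (p * q)⁻¹ = p⁻¹ := by group
          rw [← oo_mul, e7]
        have e5 : oo k p * oo k p⁻¹ = (1 : MonoidAlgebra k Q) := by
          rw [← oo_mul, mul_inv_cancel, oo_one]
        simp only [Ax.mul_b, Ax.mul_a, Ax.inv_b, mul_neg]
        rw [← mul_assoc, ← map_mul, e1, e2, one_mul, ep, mul_add (oo k q), mul_add (oo k q),
          ← mul_assoc (oo k q) (oo k q⁻¹), e3, one_mul, ← mul_assoc (oo k q) (oo k (p * q)⁻¹), e4]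
        have e6 : (1 - oo k p) * (oo k q * cu + oo k p⁻¹ * cp + cq) =
            (oo k q * cu + oo k p⁻¹ * cp + cq) -
              (oo k p * (cq + oo k q * cu) + oo k p * oo k p⁻¹ * cp) := by
          noncomm_ring
        rw [e6, e5, one_mul]
        simp only [oo]
        abel
      · change q * (p * q)⁻¹ * p * (q * (p * q)⁻¹)⁻¹ = p
        group
    · change (⟨cq, q⟩ : EE k Q) = ⟨cq + (1 - oo k q) * (0 * _), q⟩
      simp
  · unfold G3
    rw [mul_one, mul_zero, zero_add]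
  · change ρ (q⁻¹ * p⁻¹ * q) = (π γ)⁻¹
    rw [hγ, ← map_inv]
    congr 1
    group
  · intro x
    rw [map_one, map_zero, TT_one, TT_zero, Pi.zero_apply, zero_add]
    exact hvb x

/-- Words: the action on triples together with the value of a homomorphism. -/
theorem dyn (ψ : FreeGroup (Fin 2) →* G) (h0 : π (ψ (FreeGroup.of 0)) = ρ q)
    (h1 : π (ψ (FreeGroup.of 1)) = ρ (q⁻¹ * p * q))
    (hva : ∀ x, j (Multiplicative.ofAdd (va x)) =
      t x * ψ (FreeGroup.of 0) * (t (x * π (ψ (FreeGroup.of 0))))⁻¹)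
    (hvb : ∀ x, j (Multiplicative.ofAdd (vb x)) =
      t x * ψ (FreeGroup.of 1) * (t (x * π (ψ (FreeGroup.of 1))))⁻¹) (w : FreeGroup (Fin 2)) :
    ∃ (A B : MonoidAlgebra k Q) (θ : Q), G1 p q (hur w) A B ∧ G3 p q A B θ ∧
      G2 ρ π t j va vb (ψ w) A B θ := by
  have h : ((hur (E := EE k Q)).prod ψ).range ≤ SS p q ρ π t j va vb := by
    rw [MonoidHom.range_eq_map, ← FreeGroup.closure_range_of, MonoidHom.map_closure,
      Subgroup.closure_le]
    rintro _ ⟨_, ⟨i, rfl⟩, rfl⟩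
    fin_cases i
    · change (hur (FreeGroup.of 0), ψ (FreeGroup.of 0)) ∈ SS p q ρ π t j va vb
      simp only [hur, FreeGroup.lift_apply_of]
      exact gen_al p q ρ π t j va vb _ h0 hva
    · change (hur (FreeGroup.of 1), ψ (FreeGroup.of 1)) ∈ SS p q ρ π t j va vb
      simp only [hur, FreeGroup.lift_apply_of]
      exact gen_be p q ρ π t j va vb _ h1 hvb
  exact h ⟨w, rfl⟩

/-- If both Fox derivatives vanish after projection, then so does the homomorphism. -/
theorem dyn_trivial [Nontrivial k] {γ : G} {A B : MonoidAlgebra k Q} {θ : Q} (h3 : G3 p q A B θ)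
    (h2 : G2 ρ π t j va vb γ A B θ) (hA : mapDomainRingHom k ρ A = 0)
    (hB : mapDomainRingHom k ρ B = 0) : γ = 1 := by
  obtain ⟨c, d⟩ := h2
  have e1 : ρ θ = 1 := by
    unfold G3 at h3
    have e2 := congrArg (mapDomainRingHom k ρ) h3
    rw [map_add, map_mul, map_mul, hA, hB, mul_zero, mul_zero, add_zero, map_sub, map_one,
      sub_eq_zero] at e2
    have e4 : mapDomainRingHom k ρ (oo k θ) = MonoidAlgebra.of k H (ρ θ) := by
      simp [MonoidAlgebra.of_apply]
    rw [e4, ← map_one (MonoidAlgebra.of k H)] at e2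
    exact MonoidAlgebra.of_injective e2
  rw [e1] at c
  have e3 : π γ = 1 := by
    rw [← inv_inv (π γ), ← c, inv_one]
  have e4 := d 1
  rw [hA, hB, TT_zero, TT_zero, e3] at e4
  simp only [Pi.zero_apply, add_zero, ofAdd_zero, map_one, mul_one] at e4
  have e5 : t 1 * γ = t 1 := by
    have := congrArg (fun z => z * t 1) e4
    simpa [mul_assoc] using this.symm
  exact mul_eq_left.mp e5

end dyn

end Run7.h551
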