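import Mathlib
import Pool.Agent.Run7.h551.Dyn

/-!
# Solvable quotients: the descent

If a word acts on all triples of the affine group of the group ring of `((H × C₁) × C₂) × C₃` as in
the core lemma, then its two Fox derivatives vanish in the group ring of `H`.
-/

set_option linter.unusedSectionVars false

namespace Run7.h551

open MonoidAlgebra Hur

section cases

variable {k : Type*} [CommRing k] {Q : Type*} [Group Q] (p q : Q)

/-- The conclusion of the core lemma for a permutation of triples. -/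
def CoreAt {E : Type*} [Group E] (h : Equiv.Perm (E × E × E)) : Prop :=
  ∀ U P Q : E, ∃ P' Q' G : E,
        h⁻¹ (U, P, Q) = (U, P', Q') ∧ G * (U * P) * G⁻¹ = U * P' ∧
        G * (P * U) * G⁻¹ = P' * U ∧ G * (Q * U) * G⁻¹ = Q' * U ∧
        G * (U * Q) * G⁻¹ = U * Q' ∧ G * (U * U) * G⁻¹ = U * U

theorem comm_u {z : Q} (h1 : z * ((p * q)⁻¹ * p) = (p * q)⁻¹ * p * z)
    (h2 : z * (q * (p * q)⁻¹) = q * (p * q)⁻¹ * z) :
    oo k z * oo k (p * q)⁻¹ = oo k (p * q)⁻¹ * oo k z := by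
  have e1 : (p * q)⁻¹ * p = q⁻¹ := by group
  have e2 : q * (p * q)⁻¹ = p⁻¹ := by group
  rw [e1] at h1
  rw [e2] at h2
  rw [← oo_mul, ← oo_mul]
  congr 1
  rw [mul_inv_rev, ← mul_assoc, h1, mul_assoc, h2, mul_assoc]

theorem caseI {h : Equiv.Perm (EE k Q × EE k Q × EE k Q)} {A B : MonoidAlgebra k Q}
    (hG : G1 p q h A B) (hc : CoreAt h) :
    ∃ y : MonoidAlgebra k Q, oo k q⁻¹ * (y - oo k (p * q)⁻¹ * y) = y - oo k (p * q)⁻¹ * y ∧
      y = (1 - oo k q) * (A * oo k (p * q)⁻¹) + oo k (q * (p * q)⁻¹) * y := by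
  obtain ⟨P', Q', G, g0, g1, g2, g3, -, -⟩ := hc ⟨0, (p * q)⁻¹⟩ ⟨1, p⟩ ⟨0, q⟩
  have g0' := hG 0 1 0
  have hep : ep p q (0 : MonoidAlgebra k Q) 1 0 = oo k (p * q)⁻¹ := by simp [ep]
  rw [hep] at g0'
  change h⁻¹ (⟨0, (p * q)⁻¹⟩, ⟨1, p⟩, ⟨0, q⟩) = _ at g0'
  rw [g0] at g0'
  have hP : P' = ⟨1 + (1 - oo k p) * (oo k q * (B * oo k (p * q)⁻¹)), p⟩ :=
    congrArg (fun t => t.2.1) g0'
  have hQ : Q' = ⟨0 + (1 - oo k q) * (A * oo k (p * q)⁻¹), q⟩ := congrArg (fun t => t.2.2) g0'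
  subst hP hQ
  rw [mul_inv_eq_iff_eq_mul] at g1 g2 g3
  have a1 := congrArg Ax.a g1
  have a3 := congrArg Ax.a g3
  have b1 := congrArg Ax.b g1
  have b2 := congrArg Ax.b g2
  have b3 := congrArg Ax.b g3
  simp only [Ax.mul_a, Ax.mul_b] at a1 a3 b1 b2 b3
  have hz := comm_u (k := k) p q a1 a3
  have e1 : (p * q)⁻¹ * p = q⁻¹ := by group
  rw [e1] at b1
  simp only [mul_one, mul_zero, zero_add, add_zero] at b1 b2 b3
  refine ⟨G.b, ?_, b3⟩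
  have e2 : oo k (p * q)⁻¹ * oo k (p * (p * q)⁻¹) = oo k q⁻¹ * oo k (p * q)⁻¹ := by
    rw [← oo_mul, ← oo_mul]; congr 1; group
  have b2' := congrArg (fun t => oo k (p * q)⁻¹ * t) b2
  simp only [mul_add] at b2'
  rw [← mul_assoc (oo k (p * q)⁻¹) (oo k (p * (p * q)⁻¹)), e2] at b2'
  simp only [mul_add, mul_sub, mul_one] at b1 b2' ⊢
  rw [mul_assoc] at b2'
  have hz' : (MonoidAlgebra.of k Q) G.a * (MonoidAlgebra.of k Q) (p * q)⁻¹ =
    (MonoidAlgebra.of k Q) (p * q)⁻¹ * (MonoidAlgebra.of k Q) G.a := hz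
  rw [hz'] at b1
  have b4 := congrArg₂ (fun a b => a - b) b1 b2'
  have b5 : G.b - oo k (p * q)⁻¹ * G.b =
      (G.b + oo k (p * q)⁻¹ * oo k G.a) - (oo k (p * q)⁻¹ * G.b + oo k (p * q)⁻¹ * oo k G.a) := by
    abel
  rw [b5, b4]
  abel

theorem caseII {h : Equiv.Perm (EE k Q × EE k Q × EE k Q)} {A B : MonoidAlgebra k Q}
    (hG : G1 p q h A B) (hc : CoreAt h) :
    ∃ y : MonoidAlgebra k Q,
      oo k ((p * q)⁻¹ * q) * (y - oo k (p * q)⁻¹ * y) = y - oo k (p * q)⁻¹ * y ∧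
      y = (1 - oo k p) * (oo k q * (B * oo k q⁻¹)) + oo k (p * (p * q)⁻¹) * y := by
  obtain ⟨P', Q', G, g0, g1, g2, g3, g4, -⟩ := hc ⟨0, (p * q)⁻¹⟩ ⟨0, p⟩ ⟨1, q⟩
  have g0' := hG 0 0 1
  have hep : ep p q (0 : MonoidAlgebra k Q) 0 1 = oo k q⁻¹ := by simp [ep]
  rw [hep] at g0'
  change h⁻¹ (⟨0, (p * q)⁻¹⟩, ⟨0, p⟩, ⟨1, q⟩) = _ at g0'
  rw [g0] at g0'
  have hP : P' = ⟨0 + (1 - oo k p) * (oo k q * (B * oo k q⁻¹)), p⟩ :=
    congrArg (fun t => t.2.1) g0'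
  have hQ : Q' = ⟨1 + (1 - oo k q) * (A * oo k q⁻¹), q⟩ := congrArg (fun t => t.2.2) g0'
  subst hP hQ
  rw [mul_inv_eq_iff_eq_mul] at g1 g2 g3 g4
  have a1 := congrArg Ax.a g1
  have a3 := congrArg Ax.a g3
  have b2 := congrArg Ax.b g2
  have b3 := congrArg Ax.b g3
  have b4 := congrArg Ax.b g4
  simp only [Ax.mul_a, Ax.mul_b] at a1 a3 b2 b3 b4
  have hz := comm_u (k := k) p q a1 a3
  simp only [mul_one, mul_zero, zero_add, add_zero] at b2 b3 b4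
  refine ⟨G.b, ?_, b2⟩
  have e2 : oo k (p * q)⁻¹ * oo k (q * (p * q)⁻¹) =
      oo k ((p * q)⁻¹ * q) * oo k (p * q)⁻¹ := by
    rw [← oo_mul, ← oo_mul]; congr 1; group
  have b3' := congrArg (fun t => oo k (p * q)⁻¹ * t) b3
  simp only [mul_add] at b3'
  rw [← mul_assoc (oo k (p * q)⁻¹) (oo k (q * (p * q)⁻¹)), e2] at b3'
  simp only [mul_add, mul_sub, mul_one] at b4 b3' ⊢
  rw [mul_assoc (oo k ((p * q)⁻¹ * q))] at b3'
  have hz' : (MonoidAlgebra.of k Q) G.a * (MonoidAlgebra.of k Q) (p * q)⁻¹ =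
    (MonoidAlgebra.of k Q) (p * q)⁻¹ * (MonoidAlgebra.of k Q) G.a := hz
  rw [hz'] at b4
  have b6 := congrArg₂ (fun a b => a - b) b4 b3'
  have b5 : G.b - oo k (p * q)⁻¹ * G.b =
      (G.b + oo k (p * q)⁻¹ * oo k G.a) - (oo k (p * q)⁻¹ * G.b + oo k (p * q)⁻¹ * oo k G.a) := by
    abel
  rw [b5, b6]
  abel

end cases

end Run7.h551
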