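import Mathlib
import Pool.Agent.Run7.h551.Sol

/-!
# Solvable quotients: assembly
-/

set_option linter.unusedSectionVars false

namespace Run7.h551

open MonoidAlgebra Hur

/-- One cyclic extension step. -/
abbrev Nx (m : ℕ) (Q : Type) := Q × Multiplicative (ZMod (m * Nat.card Q))

section descent

variable {m : ℕ} [NeZero m] {H : Type} [Group H] [Finite H]

instance nx_neZero (Q : Type) [Group Q] [Finite Q] : NeZero (m * Nat.card Q) :=
  ⟨mul_ne_zero (NeZero.ne m) Nat.card_pos.ne'⟩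

theorem dvd_nx {Q : Type} [Group Q] [Finite Q] (g : Q) : m * orderOf g ∣ m * Nat.card Q :=
  Nat.mul_dvd_mul_left m (orderOf_dvd_natCard g)

/-- Attach a class to an element. -/
noncomputable def at1 {Q : Type} (m : ℕ) (g : Q) (a : ℤ) : Nx m Q := (g, Multiplicative.ofAdd (a : ZMod _))

theorem at1_mul {Q : Type} [Group Q] (g h : Q) (a b : ℤ) :
    at1 m g a * at1 m h b = at1 m (g * h) (a + b) := by
  unfold at1
  ext
  · rfl
  · simp [ofAdd_add]

theorem at1_inv {Q : Type} [Group Q] (g : Q) (a : ℤ) : (at1 m g a)⁻¹ = at1 m g⁻¹ (-a) := by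
  unfold at1
  ext
  · rfl
  · simp

theorem prj_oo {Q : Type} [Group Q] [Finite Q] (g : Q) (a : ℤ) :
    prj (oo (ZMod m) (at1 m g a)) = oo (ZMod m) g := by
  simp [at1, MonoidAlgebra.of_apply]

theorem ann1 {Q : Type} [Group Q] [Finite Q] (g : Q)
    {y : MonoidAlgebra (ZMod m) (Nx m Q)} (hy : oo (ZMod m) (at1 m g 1) * y = y) : prj y = 0 := by
  apply ann m g (dvd_nx g)
  have : at1 m g 1 = (g, Multiplicative.ofAdd (1 : ZMod (m * Nat.card Q))) := by simp [at1]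
  rw [← this]
  exact hy

theorem ann2 {Q : Type} [Group Q] [Finite Q] (g : Q)
    {y : MonoidAlgebra (ZMod m) (Nx m Q)} (hy : oo (ZMod m) (at1 m g (-1)) * y = y) :
    prj y = 0 := by
  apply ann' m g (dvd_nx g)
  have : at1 m g (-1) = (g, Multiplicative.ofAdd (-1 : ZMod (m * Nat.card Q))) := by simp [at1]
  rw [← this]
  exact hy

variable (p q : H)

/-- lifts of `p` -/
noncomputable def p1 (m : ℕ) (p : H) : Nx m H := at1 m p 1
/-- lifts of `q` -/
noncomputable def q1 (m : ℕ) (q : H) : Nx m H := at1 m q 1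
/-- lifts of `p` -/
noncomputable def p2 (m : ℕ) (p : H) : Nx m (Nx m H) := at1 m (p1 m p) 1
/-- lifts of `q` -/
noncomputable def q2 (m : ℕ) (q : H) : Nx m (Nx m H) := at1 m (q1 m q) 0
/-- lifts of `p` -/
noncomputable def p3 (m : ℕ) (p : H) : Nx m (Nx m (Nx m H)) := at1 m (p2 m p) 1
/-- lifts of `q` -/
noncomputable def q3 (m : ℕ) (q : H) : Nx m (Nx m (Nx m H)) := at1 m (q2 m q) 1

theorem u3 : (p3 m p * q3 m q)⁻¹ = at1 m (p2 m p * q2 m q)⁻¹ (-2) := by
  rw [p3, q3, at1_mul, at1_inv]; norm_num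
theorem u2 : (p2 m p * q2 m q)⁻¹ = at1 m (p1 m p * q1 m q)⁻¹ (-1) := by
  rw [p2, q2, at1_mul, at1_inv]; norm_num
theorem u1 : (p1 m p * q1 m q)⁻¹ = at1 m (p * q)⁻¹ (-2) := by
  rw [p1, q1, at1_mul, at1_inv]; norm_num

theorem oo_unit_cancel {k : Type*} [CommRing k] {Q : Type*} [Group Q] {y : MonoidAlgebra k Q}
    (g : Q) (h : y * oo k g = 0) : y = 0 := by
  have h2 := congrArg (fun t => t * oo k g⁻¹) h
  simp only [mul_assoc] at h2
  rw [← oo_mul, mul_inv_cancel, oo_one, mul_one, zero_mul] at h2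
  exact h2

theorem oo_unit_cancel' {k : Type*} [CommRing k] {Q : Type*} [Group Q] {y : MonoidAlgebra k Q}
    (g : Q) (h : oo k g * y = 0) : y = 0 := by
  have h2 := congrArg (fun t => oo k g⁻¹ * t) h
  simp only [← mul_assoc] at h2
  rw [← oo_mul, inv_mul_cancel, oo_one, one_mul, mul_zero] at h2
  exact h2

/-- First two steps of the descent. -/
theorem two_steps {y : MonoidAlgebra (ZMod m) (Nx m (Nx m (Nx m H)))} {g : Nx m (Nx m H)}
    (h : oo (ZMod m) (at1 m g (-1)) * (y - oo (ZMod m) (p3 m p * q3 m q)⁻¹ * y) =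
      y - oo (ZMod m) (p3 m p * q3 m q)⁻¹ * y) : prj (prj y) = 0 := by
  have h1 := ann2 g h
  rw [map_sub, map_mul, u3, prj_oo, sub_eq_zero] at h1
  rw [u2] at h1
  exact ann2 _ h1.symm

theorem descentA {h : Equiv.Perm (EE (ZMod m) (Nx m (Nx m (Nx m H))) ×
      EE (ZMod m) (Nx m (Nx m (Nx m H))) × EE (ZMod m) (Nx m (Nx m (Nx m H))))}
    {A B : MonoidAlgebra (ZMod m) (Nx m (Nx m (Nx m H)))}
    (hG : G1 (p3 m p) (q3 m q) h A B) (hc : CoreAt h) : prj (prj (prj A)) = 0 := by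
  obtain ⟨y, hy1, hy2⟩ := caseI _ _ hG hc
  have e1 : (q3 m q)⁻¹ = at1 m (q2 m q)⁻¹ (-1) := by rw [q3, at1_inv]
  rw [e1] at hy1
  have hy := two_steps p q hy1
  have h2 := congrArg (fun t => prj (prj t)) hy2
  simp only [map_add, map_mul, map_sub, map_one, hy, mul_zero, add_zero] at h2
  rw [q3, prj_oo, q2, prj_oo, ← q2, ← q3, u3, prj_oo, u2, prj_oo] at h2
  have h3 : oo (ZMod m) (at1 m q 1) * (prj (prj A) * oo (ZMod m) (p1 m p * q1 m q)⁻¹) =
      prj (prj A) * oo (ZMod m) (p1 m p * q1 m q)⁻¹ := by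
    rw [sub_mul, one_mul] at h2
    exact (sub_eq_zero.mp h2.symm).symm
  have h4 := ann1 q h3
  rw [map_mul, u1, prj_oo] at h4
  exact oo_unit_cancel _ h4

theorem descentB {h : Equiv.Perm (EE (ZMod m) (Nx m (Nx m (Nx m H))) ×
      EE (ZMod m) (Nx m (Nx m (Nx m H))) × EE (ZMod m) (Nx m (Nx m (Nx m H))))}
    {A B : MonoidAlgebra (ZMod m) (Nx m (Nx m (Nx m H)))}
    (hG : G1 (p3 m p) (q3 m q) h A B) (hc : CoreAt h) : prj (prj (prj B)) = 0 := by
  obtain ⟨y, hy1, hy2⟩ := caseII _ _ hG hc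
  have e1 : (p3 m p * q3 m q)⁻¹ * q3 m q = at1 m ((p2 m p * q2 m q)⁻¹ * q2 m q) (-1) := by
    rw [u3, q3, at1_mul]; norm_num
  rw [e1] at hy1
  have hy := two_steps p q hy1
  have h2 := congrArg (fun t => prj (prj t)) hy2
  simp only [map_add, map_mul, map_sub, map_one, hy, mul_zero, add_zero] at h2
  have e2 : prj (prj (oo (ZMod m) (p3 m p))) = oo (ZMod m) (at1 m p 1) := by
    rw [p3, prj_oo, p2, prj_oo, p1]
  have e3 : prj (prj (oo (ZMod m) (q3 m q))) = oo (ZMod m) (q1 m q) := by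
    rw [q3, prj_oo, q2, prj_oo]
  have e4 : prj (prj (oo (ZMod m) (q3 m q)⁻¹)) = oo (ZMod m) (q1 m q)⁻¹ := by
    rw [q3, at1_inv, prj_oo, q2, at1_inv, prj_oo]
  rw [e2, e3, e4, sub_mul, one_mul] at h2
  have h3 := (sub_eq_zero.mp h2.symm).symm
  have h4 := ann1 p h3
  rw [map_mul, map_mul, q1, at1_inv, prj_oo, prj_oo] at h4
  exact oo_unit_cancel _ (oo_unit_cancel' _ h4)

end descent

end Run7.h551
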