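import Mathlib
import Pool.Agent.Run7.h551.Sol2

/-!
# Solvable quotients: the theorem for words
-/

set_option linter.unusedSectionVars false
set_option linter.style.haveILetI false

namespace Run7.h551

open MonoidAlgebra Hur
open scoped commutatorElement

instance finite_monoidAlgebra (k Q : Type*) [CommRing k] [Finite k] [Finite Q] :
    Finite (MonoidAlgebra k Q) := by
  refine Finite.of_injective (fun y : MonoidAlgebra k Q => fun x : Q => y.coeff x) ?_
  intro y z h
  ext x
  exact congrFun h x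

theorem derived_prod {Q C : Type*} [Group Q] [CommGroup C] {n : ℕ} (hn : 1 ≤ n)
    (h : derivedSeries Q n = ⊥) : derivedSeries (Q × C) n = ⊥ := by
  rw [eq_bot_iff]
  intro x hx
  have h1 := map_derivedSeries_le_derivedSeries (MonoidHom.fst Q C) n (Subgroup.mem_map_of_mem _ hx)
  have h2 := map_derivedSeries_le_derivedSeries (MonoidHom.snd Q C) n (Subgroup.mem_map_of_mem _ hx)
  have h3 : derivedSeries C n = ⊥ := by
    rw [eq_bot_iff]
    have h4 : derivedSeries C 1 = ⊥ := by
      rw [derivedSeries_one]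
      exact (commutator_eq_bot_iff_center_eq_top _).mpr CommGroup.center_eq_top
    rw [← h4]
    exact derivedSeries_antitone _ hn
  rw [h, Subgroup.mem_bot] at h1
  rw [h3, Subgroup.mem_bot] at h2
  rw [Subgroup.mem_bot]
  exact Prod.ext h1 h2

theorem derived_quot {G : Type*} [Group G] (N : Subgroup G) [N.Normal] {n : ℕ}
    (h : derivedSeries G n ≤ N) : derivedSeries (G ⧸ N) n = ⊥ := by
  rw [← map_derivedSeries_eq (QuotientGroup.mk'_surjective N), eq_bot_iff]
  rintro _ ⟨x, hx, rfl⟩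
  rw [Subgroup.mem_bot, QuotientGroup.mk'_apply, QuotientGroup.eq_one_iff]
  exact h hx

theorem finite_nx (m : ℕ) [NeZero m] (Q : Type) [Group Q] [Finite Q] : Finite (Nx m Q) := by
  haveI : Finite (ZMod (m * Nat.card Q)) := inferInstance
  haveI : Finite (Multiplicative (ZMod (m * Nat.card Q))) := inferInstance
  infer_instance

theorem solv_word (r : ℕ) (hr : 3 ≤ r) (G : Type) [Group G] [Finite G]
    (hG : derivedSeries G (r - 1) = ⊥) (ψ : FreeGroup (Fin 2) →* G) :
    ∃ K : Subgroup (PhiQ r), K.Characteristic ∧ K.FiniteIndex ∧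
      ∀ w, InnerOn K (indAut (derivedSeries F r) (act w)) → ψ w = 1 := by
  classical
  set N : Subgroup G := derivedSeries G (r - 2) with hN
  have hNc : ∀ a b : N, a * b = b * a := by
    intro a b
    have h1 : ⁅(a : G), (b : G)⁆ ∈ derivedSeries G (r - 2 + 1) := by
      rw [derivedSeries_succ]
      exact Subgroup.commutator_mem_commutator a.2 b.2
    have h2 : r - 2 + 1 = r - 1 := by omega
    rw [h2, hG, Subgroup.mem_bot, commutatorElement_eq_one_iff_mul_comm] at h1
    exact Subtype.ext h1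
  letI : CommGroup N := { (inferInstance : Group N) with mul_comm := hNc }
  let m : ℕ := 2 * Nat.card G
  have hm : 1 < m := by
    have := Nat.card_pos (α := G)
    omega
  haveI : Fact (1 < m) := ⟨hm⟩
  haveI : NeZero m := ⟨by omega⟩
  letI : Module (ZMod m) (Additive N) := AddCommGroup.zmodModule (by
    intro v
    have h1 : (Additive.toMul v) ^ m = 1 := by
      apply Subtype.ext
      rw [Subgroup.coe_pow, pow_mul', pow_card_eq_one', one_pow]
      rfl
    exact h1)
  let π : G →* G ⧸ N := QuotientGroup.mk' N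
  let t : G ⧸ N → G := fun x => Quotient.out x
  have ht : ∀ x, π (t x) = x := fun x => QuotientGroup.out_eq' x
  let j : Multiplicative (Additive N) →* G :=
    { toFun := fun v => ((Additive.toMul (Multiplicative.toAdd v) : N) : G)
      map_one' := rfl
      map_mul' := fun _ _ => rfl }
  have hj : ∀ (γ : G) (x : G ⧸ N), ∃ v : Additive N, j (Multiplicative.ofAdd v) =
      t x * γ * (t (x * π γ))⁻¹ := by
    intro γ x
    have h1 : t x * γ * (t (x * π γ))⁻¹ ∈ N := by
      rw [← QuotientGroup.eq_one_iff]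
      change π (t x * γ * (t (x * π γ))⁻¹) = 1
      rw [map_mul, map_mul, map_inv, ht, ht, mul_inv_cancel]
    exact ⟨Additive.ofMul ⟨_, h1⟩, rfl⟩
  choose va hva using hj (ψ (FreeGroup.of 0))
  choose vb hvb using hj (ψ (FreeGroup.of 1))
  let q0 : G ⧸ N := π (ψ (FreeGroup.of 0))
  let p0 : G ⧸ N := π (ψ (FreeGroup.of 0)) * π (ψ (FreeGroup.of 1)) * (π (ψ (FreeGroup.of 0)))⁻¹
  let ρ : Nx m (Nx m (Nx m (G ⧸ N))) →* G ⧸ N :=
    (MonoidHom.fst _ _).comp ((MonoidHom.fst _ _).comp (MonoidHom.fst _ _))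
  have hρ : ∀ A : MonoidAlgebra (ZMod m) (Nx m (Nx m (Nx m (G ⧸ N)))),
      mapDomainRingHom (ZMod m) ρ A = prj (prj (prj A)) := by
    intro A
    simp only [ρ, mapDomainRingHom_comp]
    rfl
  have hd1 : derivedSeries (G ⧸ N) (r - 2) = ⊥ := derived_quot N le_rfl
  have hr2 : 1 ≤ r - 2 := by omega
  have hd4 : derivedSeries (Nx m (Nx m (Nx m (G ⧸ N)))) (r - 2) = ⊥ :=
    derived_prod hr2 (derived_prod hr2 (derived_prod hr2 hd1))
  have hE : derivedSeries (EE (ZMod m) (Nx m (Nx m (Nx m (G ⧸ N))))) (r - 2 + 1) = ⊥ :=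
    Ax.derived_bot hd4
  haveI f1 : Finite (Nx m (G ⧸ N)) := finite_nx m _
  haveI f2 : Finite (Nx m (Nx m (G ⧸ N))) := finite_nx m _
  haveI f3 : Finite (Nx m (Nx m (Nx m (G ⧸ N)))) := finite_nx m _
  haveI f4 : Finite (EE (ZMod m) (Nx m (Nx m (Nx m (G ⧸ N))))) := inferInstance
  obtain ⟨K, hK1, hK2, hK3⟩ := core (EE (ZMod m) (Nx m (Nx m (Nx m (G ⧸ N)))))
    (n := r - 2 + 1) (r := r) hE (by omega) (by omega)
  refine ⟨K, hK1, hK2, fun w hw => ?_⟩
  have hc : CoreAt (hur (E := EE (ZMod m) (Nx m (Nx m (Nx m (G ⧸ N))))) w) := hK3 w hw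
  obtain ⟨A, B, θ, g1, g3, g2⟩ := dyn (k := ZMod m) (p3 m p0) (q3 m q0) ρ π t j va vb ψ rfl
    (by
      change π (ψ (FreeGroup.of 1)) = q0⁻¹ * p0 * q0
      simp only [q0, p0]
      group) hva hvb w
  apply dyn_trivial (k := ZMod m) (p3 m p0) (q3 m q0) ρ π t j va vb g3 g2
  · rw [hρ]; exact descentA p0 q0 g1 hc
  · rw [hρ]; exact descentB p0 q0 g1 hc

end Run7.h551
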