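import Mathlib
import Pool.Agent.Run7.h551.Brg3
import Pool.Agent.Run7.h551.Sol3

/-!
# Finite-index subgroups containing a term of the derived series of `Γ(2)`
-/

set_option linter.unusedSectionVars false
set_option linter.unusedSimpArgs false

namespace Run7.h551

open Run7.h551.Hur Run7.h551.Brg

theorem sl_mem (w : FreeGroup (Fin 2)) : sl w ∈ CongruenceSubgroup.Gamma 2 := by
  have h : (⊤ : Subgroup (FreeGroup (Fin 2))) ≤ (CongruenceSubgroup.Gamma 2).comap sl := by
    rw [← FreeGroup.closure_range_of, Subgroup.closure_le]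
    rintro _ ⟨i, rfl⟩
    change sl (FreeGroup.of i) ∈ CongruenceSubgroup.Gamma 2
    rw [CongruenceSubgroup.Gamma_mem]
    fin_cases i
    · simp [sl]
      decide
    · simp [sl]
      decide
  exact h (Subgroup.mem_top w)

/-- Words as elements of `Γ(2)`. -/
def slG : FreeGroup (Fin 2) →* CongruenceSubgroup.Gamma 2 := sl.codRestrict _ sl_mem

theorem open_of_hom {r : ℕ} (hr : 1 ≤ r) (N : Subgroup (Matrix.SpecialLinearGroup (Fin 2) ℤ))
    (C : Subgroup (CongruenceSubgroup.Gamma 2)) [C.Normal]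
    (hC : ∀ m ∈ C, (m : Matrix.SpecialLinearGroup (Fin 2) ℤ) ∈ N)
    (h : ∃ K : Subgroup (PhiQ r), K.Characteristic ∧ K.FiniteIndex ∧
      ∀ w, InnerOn K (indAut (derivedSeries F r) (act w)) →
        (QuotientGroup.mk' C).comp slG w = 1) : CongOpen r N := by
  obtain ⟨K, hK, hKf, hw⟩ := h
  refine congOpen_of_words hr hK hKf fun w hi => ?_
  have h1 := hw w hi
  rw [MonoidHom.comp_apply, QuotientGroup.mk'_apply, QuotientGroup.eq_one_iff] at h1
  exact hC _ h1

theorem solv_main (r : ℕ) (hr : 3 ≤ r) (N : Subgroup (Matrix.SpecialLinearGroup (Fin 2) ℤ))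
    (hf : N.FiniteIndex)
    (hN : ∀ m ∈ derivedSeries (CongruenceSubgroup.Gamma 2) (r - 1),
      (m : Matrix.SpecialLinearGroup (Fin 2) ℤ) ∈ N) : CongOpen r N := by
  have i1 : (N.subgroupOf (CongruenceSubgroup.Gamma 2)).FiniteIndex := inferInstance
  have i2 : (N.subgroupOf (CongruenceSubgroup.Gamma 2)).normalCore.FiniteIndex := inferInstance
  refine open_of_hom (by omega) N (N.subgroupOf (CongruenceSubgroup.Gamma 2)).normalCore
    (fun m hm => ?_) ?_
  · exact Subgroup.mem_subgroupOf.1 (Subgroup.normalCore_le _ hm)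
  · have i3 : Finite (CongruenceSubgroup.Gamma 2 ⧸
        (N.subgroupOf (CongruenceSubgroup.Gamma 2)).normalCore) := inferInstance
    refine solv_word r hr _ (derived_quot _ ?_) _
    refine Subgroup.normal_le_normalCore.2 fun m hm => ?_
    exact Subgroup.mem_subgroupOf.2 (hN m hm)

end Run7.h551
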