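import Pool.Agent.TH377.NC.Gen
import Pool.Agent.TH377.Dyn.Box

/-!
# Curves given by norm forms of a polynomial, over discretely valued fields

As `Pool.Agent.TH377.NC.Gen`, with the algebra `K[T]/(h)` in place of an extension field, where `h` need
be neither monic nor irreducible.
-/

set_option autoImplicit false
set_option maxHeartbeats 400000
set_option linter.unusedSectionVars false

namespace Pool.Agent.Run7.h551.NC

open Polynomial NumberField IsDedekindDomain Pool.Agent.TH377.LocG Pool.Agent.TH377.NC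
  Pool.Agent.TH120.Sec Pool.Agent.W620.SC
open scoped Matrix

universe u v w x y z

/-- transversality over any algebraically closed field -/
theorem nd_lift {K : Type u} [Field K] {B : Type w} [Field B] [Algebra K B] {R : Type v} [Field R]
    [Algebra K R] [Algebra R B] [IsScalarTower K R B]
    [IsAlgClosed B] (h : K[X]) (h0 : h ≠ 0) (P : Fin 3 → K[X]) (Q : MvPolynomial (Fin 3) K)
    (htr : ∀ ρ ρ' : AlgebraicClosure K, aeval ρ h = 0 → aeval ρ' h = 0 → ρ ≠ ρ' →
      MvPolynomial.aeval (crossProduct (fun j => aeval ρ (P j)) (fun j => aeval ρ' (P j))) Q ≠ 0)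
    (θ θ' : B) (hθ : aeval θ h = 0) (hθ' : aeval θ' h = 0) (hne : θ ≠ θ') :
    MvPolynomial.eval₂ (algebraMap R B) ((fun j => aeval θ ((P j).map (algebraMap K R))) ⨯₃
      (fun j => aeval θ' ((P j).map (algebraMap K R))))
      (MvPolynomial.map (algebraMap K R) Q) ≠ 0 := by
  classical
  let ι : AlgebraicClosure K →ₐ[K] B := IsAlgClosed.lift
  have hroot : ∀ t : B, aeval t h = 0 → ∃ r : AlgebraicClosure K, aeval r h = 0 ∧ ι r = t := by
    intro t ht
    have hsp : (h.map (algebraMap K (AlgebraicClosure K))).Splits := IsAlgClosed.splits _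
    have h1 : t ∈ (h.map (algebraMap K B)).roots := by
      rw [mem_roots (Polynomial.map_ne_zero h0), IsRoot.def, eval_map_algebraMap]
      exact ht
    have h2 : h.map (algebraMap K B) = (h.map (algebraMap K (AlgebraicClosure K))).map
          (ι : AlgebraicClosure K →+* B) := by
      rw [Polynomial.map_map, AlgHom.comp_algebraMap]
    rw [h2, hsp.roots_map, Multiset.mem_map] at h1
    obtain ⟨r, hr, hrt⟩ := h1
    refine ⟨r, ?_, hrt⟩
    rw [mem_roots (Polynomial.map_ne_zero h0), IsRoot.def, eval_map_algebraMap] at hr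
    exact hr
  obtain ⟨r, hr, hrθ⟩ := hroot θ hθ
  obtain ⟨r', hr', hrθ'⟩ := hroot θ' hθ'
  have hrr : r ≠ r' := by
    rintro rfl
    exact hne (hrθ.symm.trans hrθ')
  have h1 := htr r r' hr hr' hrr
  intro h2
  apply h1
  apply (ι : AlgebraicClosure K →+* B).injective
  rw [map_zero, MvPolynomial.aeval_def, MvPolynomial.hom_eval₂]
  rw [MvPolynomial.eval₂_map, ← IsScalarTower.algebraMap_eq K R B] at h2
  rw [AlgHom.comp_algebraMap]
  convert h2 using 2
  funext k
  have e1 := map_cross (ι : AlgebraicClosure K →+* B) (fun j => aeval r (P j))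
    (fun j => aeval r' (P j)) k
  have e2 : ∀ (r : AlgebraicClosure K) (s : B), ι r = s →
      (fun j => (ι : AlgebraicClosure K →+* B) (aeval r (P j))) =
        fun j => aeval s ((P j).map (algebraMap K R)) := by
    intro ρ s hs
    funext j
    change ι (aeval ρ (P j)) = _
    rw [aeval_map_algebraMap, ← aeval_algHom_apply, hs]
  rw [e2 r θ hrθ, e2 r' θ' hrθ'] at e1
  exact e1.symm

/-- the norm form of `h` at a vector -/
noncomputable def nrm {K : Type u} [Field K] {Ω : Type w} [Field Ω] [Algebra K Ω] (h : K[X])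
    (A : Fin 3 → K[X]) (x : Fin 3 → Ω) : Ω :=
  ((h.aroots Ω).map fun ρ => ∑ j, aeval ρ (A j) * x j).prod

lemma nrm_eq {K : Type u} {L : Type y} {Ω : Type w} [Field K] [Field L] [Algebra K L] [Field Ω]
    [Algebra L Ω] [Algebra K Ω] [IsScalarTower K L Ω] (h : K[X]) (c : K) (hc : c ≠ 0) (g : K[X])
    (hg : h = C c * g) (A : Fin 3 → K[X]) (x : Fin 3 → Ω) :
    nrm h A x = (((g.map (algebraMap K L)).map (algebraMap L Ω)).roots.map fun θ =>
        ∑ j, aeval θ ((A j).map (algebraMap K L)) * x j).prod := by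
  have hc' : algebraMap K Ω c ≠ 0 := (_root_.map_ne_zero _).2 hc
  have h1 : h.aroots Ω = g.aroots Ω := by
    rw [hg, aroots_def, Polynomial.map_mul, map_C, roots_C_mul _ hc']
  rw [nrm, h1, Polynomial.map_map, ← IsScalarTower.algebraMap_eq K L Ω]
  change _ = ((g.aroots Ω).map _).prod
  congr 1
  refine Multiset.map_congr rfl fun θ _ => Finset.sum_congr rfl fun j _ => ?_
  rw [aeval_map_algebraMap]

section

variable {R : Type z} {K : Type u} [CommRing R] [IsDomain R] [IsDiscreteValuationRing R] [Field K]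
  [Algebra R K] [IsFractionRing R K] [CharZero K] {L : Type y} [Field L] [Algebra K L]
  [FiniteDimensional K L]
  (D : ℕ) (hD : D ≠ 0) (h : K[X]) (c : K) (hc : c ≠ 0) (g : R[X]) (hg : g.Monic)
  (hgK : h = C c * g.map (algebraMap R K))
  (hs : (g.map (IsLocalRing.residue R)).Separable)
  (hσ : FactorDiv (Nat.gcd 2 D * D) (g.map (IsLocalRing.residue R)))
  (ϖ0 t0 : R) (hϖ0 : Irreducible ϖ0) (ht0 : IsUnit t0) (m : ℤ)
  (hm : ¬ (D : ℤ) ∣ m * Module.finrank K L) (a : K)
  (ha : a = algebraMap R K t0 * algebraMap R K ϖ0 ^ m) (n q : ℕ) (hDn : D ∣ n)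
  (hnq : n * q = h.natDegree) (hdeg : h.natDegree ≠ 0) (A : Fin 3 → K[X])
  (Q : MvPolynomial (Fin 3) K) (hQ : Q.IsHomogeneous q)
  (htr : ∀ ρ ρ' : AlgebraicClosure K, aeval ρ h = 0 → aeval ρ' h = 0 → ρ ≠ ρ' →
    MvPolynomial.aeval (crossProduct (fun j => aeval ρ (A j)) (fun j => aeval ρ' (A j))) Q ≠ 0)

include hD hc hg hgK hs hσ hϖ0 ht0 hm ha hDn hnq hdeg hQ htr

/-- no points and no sections -/
theorem alg_both :
    (∀ x : Fin 3 → L, x ≠ 0 → nrm h A (fun j => algebraMap L (AlgebraicClosure L) (x j)) ≠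
      algebraMap K (AlgebraicClosure L) a *
        MvPolynomial.aeval (fun j => algebraMap L (AlgebraicClosure L) (x j)) Q ^ n) ∧
    ∀ (F : Type v) (Ω : Type w) [Field F] [Field Ω] [Algebra L F] [Algebra F Ω] [Algebra L Ω]
      [Algebra K Ω] [IsScalarTower L F Ω] [IsScalarTower K L Ω] [IsAlgClosure F Ω]
      (x : Fin 3 → F) (U : Set (ValuationSubring F)), x ≠ 0 →
      nrm h A (fun j => algebraMap F Ω (x j)) =
        algebraMap K Ω a * MvPolynomial.aeval (fun j => algebraMap F Ω (x j)) Q ^ n →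
      (∀ O ∈ U, ∀ c : L, algebraMap L F c ∈ O) → IsEmpty (GSection L F Ω U) := by
  let _ : Algebra R L := ((algebraMap K L).comp (algebraMap R K)).toAlgebra
  have hstR : IsScalarTower R K L := IsScalarTower.of_algebraMap_eq (fun _ => rfl)
  obtain ⟨ℓ, hℓ0, hℓD, B, _, _, _, _, hfr, f, hf, hfK, hfs, hfd, ϖ, t, m', hϖ, ht, hm', hat⟩ :=
    dvr_data (k := K) (L := L) g hg hs D hD hσ ϖ0 t0 hϖ0 ht0 m hm
  have hczL : CharZero L := charZero_of_injective_algebraMap (algebraMap K L).injective
  obtain ⟨n', rfl⟩ := hℓD.trans hDn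
  have hn' : 0 < n' := by
    rcases Nat.eq_zero_or_pos n' with h1 | h1
    · rw [h1, mul_zero, zero_mul] at hnq
      exact absurd hnq.symm hdeg
    · exact h1
  have hh0 : h ≠ 0 := by
    rintro rfl
    exact hdeg natDegree_zero
  have hgK0 : g.map (algebraMap R K) ≠ 0 := by
    intro h1
    apply hh0
    rw [hgK, h1, mul_zero]
  have hfL : f.map (algebraMap B L) = (g.map (algebraMap R K)).map (algebraMap K L) := by
    rw [hfK, Polynomial.map_map, ← IsScalarTower.algebraMap_eq R K L]
  have hgd : g.natDegree = h.natDegree := by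
    rw [hgK, natDegree_C_mul hc, hg.natDegree_map]
  have hfdeg : f.natDegree = n' * ℓ * q := by
    have h1 : (f.map (algebraMap B L)).natDegree = f.natDegree := hf.natDegree_map _
    rw [← h1, hfK, hg.natDegree_map, hgd, ← hnq]
    ring
  have hQL : (MvPolynomial.map (algebraMap K L) Q).IsHomogeneous q := hQ.map _
  have haL : algebraMap K L a = algebraMap B L t * algebraMap B L ϖ ^ m' := by
    rw [← hat, ha, map_mul, map_zpow₀]
    rfl
  refine ⟨?_, ?_⟩
  · intro x hx hon
    have hst : IsScalarTower K L (AlgebraicClosure L) := inferInstance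
    refine local_point (A := B) (k := L) (kb := AlgebraicClosure L) ℓ hℓ0 f hf hfs hfd ϖ hϖ
      (algebraMap K L a) t ht m' hm' haL (fun j => (A j).map (algebraMap K L))
      (MvPolynomial.map (algebraMap K L) Q) q hQL ?_ x hx n' hn' ?_
    · intro θ θ' hθ hθ' hne
      rw [hfL, aeval_map_algebraMap] at hθ hθ'
      refine nd_lift h hh0 A Q htr θ θ' ?_ ?_ hne
      · rw [hgK, map_mul, hθ, mul_zero]
      · rw [hgK, map_mul, hθ', mul_zero]
    · rw [hfL, ← nrm_eq h c hc (g.map (algebraMap R K)) hgK A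
        (fun j => algebraMap L (AlgebraicClosure L) (x j))]
      rw [hon, ← IsScalarTower.algebraMap_apply, mul_comm n' ℓ]
      congr 2
      rw [MvPolynomial.aeval_def, MvPolynomial.eval₂_map, MvPolynomial.hom_eval₂,
        RingHom.id_comp, ← IsScalarTower.algebraMap_eq]
  · intro F Ω _ _ _ _ _ _ _ _ _ x U hx hon hU
    have hcl : IsAlgClosed Ω := IsAlgClosure.isAlgClosed F
    have halg : Algebra.IsAlgebraic F Ω := IsAlgClosure.isAlgebraic
    have hac : IsAlgClosure L (algebraicClosure L Ω) := inferInstance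
    have hkb : IsAlgClosed (algebraicClosure L Ω) := hac.1
    refine local_section (A := B) (k := L) ℓ hℓ0 f hf hfs hfd ϖ hϖ
      (algebraMap K L a) t ht m' hm' haL U hU (fun j => (A j).map (algebraMap K L))
      (MvPolynomial.map (algebraMap K L) Q) q hQL ?_ x hx n' hn' hfdeg ?_
    · intro θ θ' hθ hθ' hne
      rw [hfL, aeval_map_algebraMap] at hθ hθ'
      refine nd_lift h hh0 A Q htr θ θ' ?_ ?_ hne
      · rw [hgK, map_mul, hθ, mul_zero]
      · rw [hgK, map_mul, hθ', mul_zero]
    · rw [hfL, ← nrm_eq h c hc (g.map (algebraMap R K)) hgK A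
        (fun j => algebraMap F Ω (x j))]
      rw [hon, ← IsScalarTower.algebraMap_apply, mul_comm n' ℓ]
      congr 2
      rw [MvPolynomial.aeval_def, MvPolynomial.eval₂_map, MvPolynomial.hom_eval₂,
        ← RingHom.comp_assoc, ← IsScalarTower.algebraMap_eq L F Ω,
        ← IsScalarTower.algebraMap_eq K L Ω]

end

end Pool.Agent.Run7.h551.NC
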