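import Pool.Agent.Run7.h551.NC1

/-!
# The data at a place of a number field
-/

set_option autoImplicit false
set_option maxHeartbeats 400000
set_option linter.unusedSectionVars false

namespace Pool.Agent.Run7.h551.NC

open Polynomial NumberField IsDedekindDomain Pool.Agent.TH377.LocG Pool.Agent.TH377.NC
  Pool.Agent.TH120.Sec Pool.Agent.W620.SC Pool.Agent.TH377.Sup
open scoped Matrix

universe u v w x y z

/-- all irreducible factors modulo `v` have degrees divisible by `N` -/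
def FacV {K : Type u} [Field K] [NumberField K] (v : HeightOneSpectrum (𝓞 K)) (N : ℕ)
    (P : (𝓞 K)[X]) : Prop :=
  ∀ q : (𝓞 K ⧸ v.asIdeal)[X], Irreducible q → q ∣ P.map (Ideal.Quotient.mk v.asIdeal) →
    N ∣ q.natDegree

theorem nf_local {K : Type u} [Field K] [NumberField K] (v : HeightOneSpectrum (𝓞 K))
    (P : (𝓞 K)[X]) (hlc : P.leadingCoeff ∉ v.asIdeal)
    (hsep : (P.map (Ideal.Quotient.mk v.asIdeal)).Separable) (N : ℕ) (hN : FacV v N P) :
    ∃ (A : Type u) (_ : CommRing A) (_ : IsDomain A) (_ : IsDiscreteValuationRing A)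
      (_ : Algebra A K) (_ : IsFractionRing A K) (g : A[X]) (c : K), c ≠ 0 ∧ g.Monic ∧
      P.map (algebraMap (𝓞 K) K) = C c * g.map (algebraMap A K) ∧
      (g.map (IsLocalRing.residue A)).Separable ∧
      FactorDiv N (g.map (IsLocalRing.residue A)) ∧
      (Irreducible (P.map (Ideal.Quotient.mk v.asIdeal)) →
        Irreducible (P.map (algebraMap (𝓞 K) K))) ∧
      ∀ b : 𝓞 K, b ∈ v.asIdeal → b ∉ v.asIdeal ^ 2 → ∃ ϖ t : A, Irreducible ϖ ∧ IsUnit t ∧
          algebraMap (𝓞 K) K b = algebraMap A K t * algebraMap A K ϖ ^ (1 : ℤ) := by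
  classical
  obtain ⟨A, iA1, iA2, iA3, iA4, j, ε, hfin, hfr, hjK, hjr, hju, hbn⟩ := local_ring v
  have hmax : v.asIdeal.IsMaximal := v.isMaximal
  let _ : Field (𝓞 K ⧸ v.asIdeal) := Ideal.Quotient.field _
  obtain ⟨w, hw⟩ := hju _ hlc
  have hlc0 : P.leadingCoeff ≠ 0 := fun h0 => hlc (by rw [h0]; exact zero_mem _)
  have hjlc : j P.leadingCoeff ≠ 0 := by
    rw [← hw]
    exact w.ne_zero
  have hPj : (P.map j).leadingCoeff = (w : A) := by
    rw [leadingCoeff_map_of_leadingCoeff_ne_zero _ hjlc, hw]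
  have hg : (C ((w⁻¹ : Aˣ) : A) * P.map j).Monic := by
    apply monic_C_mul_of_mul_leadingCoeff_eq_one
    rw [hPj, Units.inv_mul]
  have hc : algebraMap (𝓞 K) K P.leadingCoeff ≠ 0 := by
    rwa [Ne, map_eq_zero_iff _ (IsFractionRing.injective (𝓞 K) K)]
  have hcw : algebraMap (𝓞 K) K P.leadingCoeff * algebraMap A K ((w⁻¹ : Aˣ) : A) = 1 := by
    rw [← hjK, RingHom.comp_apply, ← map_mul, ← hw, Units.mul_inv, map_one]
  have hmapK : P.map (algebraMap (𝓞 K) K) =
      C (algebraMap (𝓞 K) K P.leadingCoeff) *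
        (C ((w⁻¹ : Aˣ) : A) * P.map j).map (algebraMap A K) := by
    rw [Polynomial.map_mul, map_C, Polynomial.map_map, hjK, ← mul_assoc, ← C_mul, hcw, C_1,
      one_mul]
  have hmapR : (C ((w⁻¹ : Aˣ) : A) * P.map j).map (IsLocalRing.residue A) =
      C (IsLocalRing.residue A ((w⁻¹ : Aˣ) : A)) *
        (P.map (Ideal.Quotient.mk v.asIdeal)).map
          (ε : (𝓞 K ⧸ v.asIdeal) →+* IsLocalRing.ResidueField A) := by
    rw [Polynomial.map_mul, map_C, Polynomial.map_map, hjr, Polynomial.map_map]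
  have hunit : IsUnit (C (IsLocalRing.residue A ((w⁻¹ : Aˣ) : A))) :=
    ((Units.isUnit (w⁻¹ : Aˣ)).map (IsLocalRing.residue A)).map C
  have hdv : ∀ q : (IsLocalRing.ResidueField A)[X],
      q ∣ (C ((w⁻¹ : Aˣ) : A) * P.map j).map (IsLocalRing.residue A) ↔
      q ∣ (P.map (Ideal.Quotient.mk v.asIdeal)).map
          (ε : (𝓞 K ⧸ v.asIdeal) →+* IsLocalRing.ResidueField A) := by
    intro q
    rw [hmapR]
    exact hunit.dvd_mul_left
  refine ⟨A, iA1, iA2, iA3, iA4, hfr, C ((w⁻¹ : Aˣ) : A) * P.map j,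
    algebraMap (𝓞 K) K P.leadingCoeff, hc, hg, hmapK, ?_, ?_, ?_, ?_⟩
  · refine Separable.of_dvd (hsep.map (f := (ε : (𝓞 K ⧸ v.asIdeal) →+*
      IsLocalRing.ResidueField A))) ((hdv _).1 dvd_rfl)
  · intro q hq hqd
    have h1 : Irreducible (q.map (ε.symm : IsLocalRing.ResidueField A →+* (𝓞 K ⧸ v.asIdeal))) :=
      (MulEquiv.irreducible_iff (Polynomial.mapEquiv ε.symm)).2 hq
    have h2 : q.map (ε.symm : IsLocalRing.ResidueField A →+* (𝓞 K ⧸ v.asIdeal)) ∣
        P.map (Ideal.Quotient.mk v.asIdeal) := by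
      have h3 := Polynomial.map_dvd
        (ε.symm : IsLocalRing.ResidueField A →+* (𝓞 K ⧸ v.asIdeal)) ((hdv q).1 hqd)
      rw [Polynomial.map_map (ε : (𝓞 K ⧸ v.asIdeal) →+* IsLocalRing.ResidueField A)] at h3
      have h4 : (ε.symm : IsLocalRing.ResidueField A →+* (𝓞 K ⧸ v.asIdeal)).comp
          (ε : (𝓞 K ⧸ v.asIdeal) →+* IsLocalRing.ResidueField A) = RingHom.id _ := by
        ext z
        simp
      rwa [h4, Polynomial.map_id] at h3
    have h3 := hN _ h1 h2
    rwa [natDegree_map_eq_of_injective ε.symm.injective] at h3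
  · intro hirr
    rw [hmapK]
    have h1 : Irreducible ((C ((w⁻¹ : Aˣ) : A) * P.map j).map (IsLocalRing.residue A)) := by
      rw [hmapR, irreducible_isUnit_mul hunit]
      exact (MulEquiv.irreducible_iff (Polynomial.mapEquiv ε)).2 hirr
    have h2 : Irreducible (C ((w⁻¹ : Aˣ) : A) * P.map j) :=
      hg.irreducible_of_irreducible_map _ _ h1
    have h3 : Irreducible ((C ((w⁻¹ : Aˣ) : A) * P.map j).map (algebraMap A K)) :=
      (hg.irreducible_iff_irreducible_map_fraction_map (K := K)).1 h2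
    rw [irreducible_isUnit_mul]
    · exact h3
    · exact (isUnit_iff_ne_zero.2 hc).map C
  · intro b hb hb'
    have hb1 : b ∈ v.asIdeal ^ 1 := by rwa [pow_one]
    exact hbn b 1 hb1 hb'

/-- the factors of a polynomial with the property of `Loc` -/
lemma facV_of_loc {K : Type u} [Field K] [NumberField K] (v : HeightOneSpectrum (𝓞 K))
    (N : ℕ) (hN2 : N ≠ 2) (d : ℕ) (P : (𝓞 K)[X]) (h : Loc v N d P) : FacV v N P := by
  intro q hq hqd
  by_contra hn
  have hmax : v.asIdeal.IsMaximal := v.isMaximal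
  let _ : Field (𝓞 K ⧸ v.asIdeal) := Ideal.Quotient.field _
  have hfin : Finite (𝓞 K ⧸ v.asIdeal) := Ideal.finiteQuotientOfFreeOfNeBot _ v.ne_bot
  have h1 := h.2.2.2.2 hN2 _ hn
  have h2 : q ∣ X ^ Nat.card (𝓞 K ⧸ v.asIdeal) ^ q.natDegree - X :=
    hq.natDegree_dvd_iff_dvd_X_pow_card_pow_sub_X.1 dvd_rfl
  have h3 : Nat.card (𝓞 K ⧸ v.asIdeal) = Ideal.absNorm v.asIdeal := by
    rw [Ideal.absNorm_apply, Submodule.cardQuot_apply]
  rw [h3] at h2
  exact hq.not_isUnit (h1.isUnit_of_dvd' h2 hqd)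

/-- the factors of an irreducible polynomial -/
lemma facV_of_irr {K : Type u} [Field K] [NumberField K] (v : HeightOneSpectrum (𝓞 K))
    (N : ℕ) (P : (𝓞 K)[X]) (hlc : P.leadingCoeff ∉ v.asIdeal)
    (h : Irreducible (P.map (Ideal.Quotient.mk v.asIdeal))) (hN : N ∣ P.natDegree) :
    FacV v N P := by
  intro q hq hqd
  have hmax : v.asIdeal.IsMaximal := v.isMaximal
  let _ : Field (𝓞 K ⧸ v.asIdeal) := Ideal.Quotient.field _
  have h1 : Associated q (P.map (Ideal.Quotient.mk v.asIdeal)) :=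
    (hq.dvd_irreducible_iff_associated h).1 hqd
  have h2 := natDegree_eq_of_degree_eq (degree_eq_degree_of_associated h1)
  rw [h2, natDegree_map_of_leadingCoeff_ne_zero]
  · exact hN
  · intro h0
    exact hlc (Ideal.Quotient.eq_zero_iff_mem.1 h0)

end Pool.Agent.Run7.h551.NC
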