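import Pool.Agent.TH377.NC.Gal
import Mathlib.RingTheory.Nullstellensatz

/-!
# Conjugate forms of any degree at the places of a projective variety

As `Pool.Agent.TH377.NC.Vec`, for forms of any degree on a closed subset of a projective space instead
of linear forms on a plane.
-/

set_option autoImplicit false
set_option maxHeartbeats 400000

namespace Pool.Agent.Run7.h551.NF

open Pool.Agent.W620.SC Pool.Agent.W623.SecC Pool.Agent.TH120.Sec MvPolynomial

universe u v w

/-- values of a form at multiples of a vector -/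
lemma eval_smul {R S : Type*} [CommRing R] [CommRing S] {r : ℕ} (g : R →+* S)
    (Q : MvPolynomial (Fin r) R) (e : ℕ) (hQ : Q.IsHomogeneous e) (c : S) (P : Fin r → S) :
    eval₂ g (fun j => c * P j) Q = c ^ e * eval₂ g P Q := by
  rw [eval₂_eq', eval₂_eq', Finset.mul_sum]
  refine Finset.sum_congr rfl fun d hd => ?_
  have h1 : ∑ i, d i = e := by
    have h2 := hQ (mem_support_iff.1 hd)
    rw [← h2, Finsupp.weight_apply, Finsupp.sum_fintype _ _ (fun i => by simp)]
    exact Finset.sum_congr rfl fun i _ => by simp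
  simp only [mul_pow, Finset.prod_mul_distrib, Finset.prod_pow_eq_pow_sum, h1]
  ring

/-- homogeneous polynomials without a common zero except `0` over an algebraically closed field have
no common zero except `0` over larger fields -/
theorem no_common {A : Type u} [Field A] [IsAlgClosed A] {r : ℕ} (S : Set (MvPolynomial (Fin r) A))
    (h : ∀ u : Fin r → A, (∀ p ∈ S, eval u p = 0) → u = 0) {κ : Type v} [Field κ] (s : A →+* κ)
    (u : Fin r → κ) (hu : ∀ p ∈ S, eval₂ s u p = 0) : u = 0 := by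
  funext i
  have h1 : (X i : MvPolynomial (Fin r) A) ∈ (Ideal.span S).radical := by
    rw [← vanishingIdeal_zeroLocus_eq_radical (K := A), mem_vanishingIdeal_iff]
    intro x hx
    rw [mem_zeroLocus_iff] at hx
    have h2 : x = 0 := h x fun p hp => by
      have h3 := hx p (Ideal.subset_span hp)
      rwa [aeval_eq_eval] at h3
    rw [aeval_X, h2]
    rfl
  obtain ⟨n, hn⟩ := h1
  have h2 : Ideal.span S ≤ RingHom.ker (eval₂Hom s u) := by
    rw [Ideal.span_le]
    intro p hp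
    exact hu p hp
  have h3 := h2 hn
  rw [RingHom.mem_ker, map_pow, coe_eval₂Hom, eval₂_X] at h3
  by_contra h4
  exact pow_ne_zero n h4 h3

/-- the condition on two of the conjugate forms: no common zero with the equations `Z` and with `Q` -/
def ND {k : Type*} {A : Type*} [Field k] [Field A] [Algebra k A] {r : ℕ}
    (Z : Set (MvPolynomial (Fin r) k)) (Q : MvPolynomial (Fin r) k)
    (β β' : MvPolynomial (Fin r) A) : Prop :=
  ∀ (κ : Type w) [Field κ] (j : A →+* κ) (u : Fin r → κ), u ≠ 0 →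
    (∀ p ∈ Z, eval₂ (j.comp (algebraMap k A)) u p = 0) → eval₂ j u β = 0 → eval₂ j u β' = 0 →
    eval₂ (j.comp (algebraMap k A)) u Q ≠ 0

section place

variable {k : Type*} {A : Type*} {Ω : Type w} [Field k] [Field A] [Algebra k A] [Field Ω]
  (j : A →+* Ω) (W : ValuationSubring Ω) (hW : ∀ c, j c ∈ W) {r : ℕ}

include hW

/-- values at integral vectors are integral -/
lemma val_mem {R : Type*} [CommRing R] (g : R →+* A) (u : Fin r → Ω) (hu : ∀ i, u i ∈ W)
    (p : MvPolynomial (Fin r) R) : eval₂ (j.comp g) u p ∈ W := by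
  rw [eval₂_eq']
  exact sum_mem fun d _ => mul_mem (hW _) (prod_mem fun k _ => pow_mem (hu k) _)

/-- reduction at a place -/
lemma red_zero {R : Type*} [CommRing R] (g : R →+* A) (u : Fin r → Ω) (hu : ∀ i, u i ∈ W)
    (p : MvPolynomial (Fin r) R) (hp : eval₂ (j.comp g) u p ∈ W.nonunits) :
    eval₂ (((IsLocalRing.residue W).comp (j.codRestrict W.toSubring hW)).comp g)
      (fun i => IsLocalRing.residue W (⟨u i, hu i⟩ : W)) p = 0 := by
  have h3 : eval₂ (((IsLocalRing.residue W).comp (j.codRestrict W.toSubring hW)).comp g)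
      (fun i => IsLocalRing.residue W (⟨u i, hu i⟩ : W)) p = IsLocalRing.residue W
        (eval₂ ((j.codRestrict W.toSubring hW : A →+* W).comp g) (fun i => (⟨u i, hu i⟩ : W)) p) := by
    rw [hom_eval₂]
    rfl
  rw [h3]
  have h4 : ((eval₂ ((j.codRestrict W.toSubring hW : A →+* W).comp g)
      (fun i => (⟨u i, hu i⟩ : W)) p : W) : Ω) = eval₂ (j.comp g) u p := by
    have e1 : ((eval₂ ((j.codRestrict W.toSubring hW : A →+* W).comp g)
      (fun i => (⟨u i, hu i⟩ : W)) p : W) : Ω) = W.subtype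
        (eval₂ ((j.codRestrict W.toSubring hW : A →+* W).comp g)
      (fun i => (⟨u i, hu i⟩ : W)) p) := rfl
    rw [e1, hom_eval₂]
    rfl
  rw [← h4] at hp
  obtain ⟨hx1, hx2⟩ := (W.mem_nonunits_iff_exists_mem_maximalIdeal).1 hp
  exact (IsLocalRing.residue_eq_zero_iff _).2 hx2

/-- at a place, at most one of the conjugate forms vanishes -/
lemma two_units (Z : Set (MvPolynomial (Fin r) k)) (Q : MvPolynomial (Fin r) k)
    (β β' : MvPolynomial (Fin r) A) (hnd : ND.{w} Z Q β β') (u : Fin r → Ω)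
    (hu : ∀ i, u i ∈ W) (k0 : Fin r) (hk0 : u k0 = 1)
    (hZ : ∀ p ∈ Z, eval₂ (j.comp (algebraMap k A)) u p = 0)
    (hβ : eval₂ j u β ∈ W.nonunits) (hβ' : eval₂ j u β' ∈ W.nonunits) :
    eval₂ (j.comp (algebraMap k A)) u Q ∉ W.nonunits := by
  intro h0
  let jW : A →+* W := j.codRestrict W.toSubring hW
  let ρ : W →+* IsLocalRing.ResidueField W := IsLocalRing.residue W
  let û : Fin r → W := fun i => ⟨u i, hu i⟩
  have hu0 : (fun i => ρ (û i)) ≠ 0 := by
    intro h
    have h1 := congrFun h k0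
    have h2 : û k0 = 1 := Subtype.ext hk0
    simp only [h2, map_one, Pi.zero_apply] at h1
    exact one_ne_zero h1
  have hzero : (0 : Ω) ∈ W.nonunits := by
    rw [W.mem_nonunits_iff, map_zero]
    exact zero_lt_one
  refine hnd (IsLocalRing.ResidueField W) (ρ.comp jW) (fun i => ρ (û i)) hu0 ?_ ?_ ?_ ?_
  · intro p hp
    exact red_zero j W hW (algebraMap k A) u hu p (by rw [hZ p hp]; exact hzero)
  · have h1 := red_zero j W hW (RingHom.id A) u hu β (by rwa [RingHom.comp_id])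
    rwa [RingHom.comp_id] at h1
  · have h1 := red_zero j W hW (RingHom.id A) u hu β' (by rwa [RingHom.comp_id])
    rwa [RingHom.comp_id] at h1
  · exact red_zero j W hW (algebraMap k A) u hu Q h0

/-- ratios of the conjugate forms are `ℓ`-th powers up to units at all places -/
lemma ratio_form {X : Type*} [Fintype X] (Z : Set (MvPolynomial (Fin r) k))
    (hZh : ∀ p ∈ Z, ∃ m, p.IsHomogeneous m) (Q : MvPolynomial (Fin r) k) (q : ℕ)
    (hQ : Q.IsHomogeneous q) (β : X → MvPolynomial (Fin r) A) (e : ℕ)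
    (hβ : ∀ i, (β i).IsHomogeneous e) (hnd : ∀ i i', i ≠ i' → ND.{w} Z Q (β i) (β i'))
    (u : Fin r → Ω) (hu : u ≠ 0) (hZ : ∀ p ∈ Z, eval₂ (j.comp (algebraMap k A)) u p = 0)
    (ℓ n : ℕ) (hn : 0 < n) (hℓ : 0 < ℓ) (c : A) (hc : c ≠ 0)
    (hcard : e * Fintype.card X = n * ℓ * q)
    (hrel : j c * eval₂ (j.comp (algebraMap k A)) u Q ^ (n * ℓ) = ∏ i, eval₂ j u (β i))
    (i i' : X) (hi0 : eval₂ j u (β i) ≠ 0) (hi'0 : eval₂ j u (β i') ≠ 0) :
    ∃ (t : Ω) (k0 : Fin r) (a : ℤ), t = (eval₂ (j.comp (algebraMap k A)) u Q ^ n /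
        u k0 ^ (n * q)) ^ a ∧ t ≠ 0 ∧
      eval₂ j u (β i) / eval₂ j u (β i') / t ^ ℓ ∈ W ∧
      t ^ ℓ / (eval₂ j u (β i) / eval₂ j u (β i')) ∈ W := by
  classical
  have hconst : ∀ a : A, a ≠ 0 → IsU W (j a) := fun a ha =>
    ⟨(_root_.map_ne_zero j).2 ha, hW a, by rw [← map_inv₀]; exact hW _⟩
  -- the largest coordinate
  have hne : Nonempty (Fin r) := by
    obtain ⟨k0, -⟩ := Function.ne_iff.1 hu
    exact ⟨k0⟩
  obtain ⟨k0, hk0⟩ := Finite.exists_max (fun k => W.valuation (u k))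
  have huk0 : u k0 ≠ 0 := by
    intro h
    apply hu
    funext k
    have h1 := hk0 k
    simp only [h, map_zero, le_zero_iff, map_eq_zero] at h1
    exact h1
  set u' : Fin r → Ω := fun k => u k / u k0 with hu'
  have huW : ∀ k, u' k ∈ W := by
    intro k
    rw [← W.valuation_le_one_iff, hu', map_div₀]
    exact div_le_one_of_le₀ (hk0 k) zero_le
  have hu1 : u' k0 = 1 := div_self huk0
  have huu : u = fun k => u k0 * u' k := by
    funext k
    rw [hu']
    field_simp
  have hscale : ∀ (g : k →+* Ω) (p : MvPolynomial (Fin r) k) (m : ℕ),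
      p.IsHomogeneous m → eval₂ g u p = u k0 ^ m * eval₂ g u' p := by
    intro g p m hp
    rw [← eval_smul g p m hp, ← huu]
  set Λ : X → Ω := fun i => eval₂ j u (β i) with hΛ
  set Λ' : X → Ω := fun i => eval₂ j u' (β i) with hΛ'
  have hΛΛ : ∀ i, Λ i = u k0 ^ e * Λ' i := by
    intro i
    change eval₂ j u (β i) = u k0 ^ e * eval₂ j u' (β i)
    rw [← eval_smul j (β i) e (hβ i), ← huu]
  have hΛW : ∀ i, Λ' i ∈ W := by
    intro i
    have h1 := val_mem j W hW (RingHom.id A) u' huW (β i)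
    rwa [RingHom.comp_id] at h1
  have hZ' : ∀ p ∈ Z, eval₂ (j.comp (algebraMap k A)) u' p = 0 := by
    intro p hp
    obtain ⟨m, hm⟩ := hZh p hp
    have h1 := hZ p hp
    rw [hscale _ p m hm] at h1
    exact (mul_eq_zero.1 h1).resolve_left (pow_ne_zero _ huk0)
  set qq : Ω := eval₂ (j.comp (algebraMap k A)) u Q with hqdef
  set q' : Ω := eval₂ (j.comp (algebraMap k A)) u' Q with hq'
  have hqq : qq = u k0 ^ q * q' := hscale _ Q q hQ
  have hrel' : j c * q' ^ (n * ℓ) = ∏ i, Λ' i := by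
    have h1 : ∏ i, Λ i = u k0 ^ (n * ℓ * q) * ∏ i, Λ' i := by
      rw [Finset.prod_congr rfl fun i _ => hΛΛ i, Finset.prod_mul_distrib, Finset.prod_const,
        Finset.card_univ, ← pow_mul, hcard]
    have h2 : j c * (u k0 ^ q * q') ^ (n * ℓ) = u k0 ^ (n * ℓ * q) * ∏ i, Λ' i := by
      rw [← hqq, ← h1]
      exact hrel
    have h3 : (u k0 ^ (n * ℓ * q)) ≠ 0 := pow_ne_zero _ huk0
    apply mul_left_cancel₀ h3
    rw [← h2, mul_pow, ← pow_mul, mul_comm q (n * ℓ)]
    ring
  have htw : qq ^ n / u k0 ^ (n * q) = q' ^ n := by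
    rw [hqq, mul_pow, ← pow_mul, mul_comm q n, mul_div_cancel_left₀ _ (pow_ne_zero _ huk0)]
  have hΛ0 : ∀ i, Λ i ≠ 0 → Λ' i ≠ 0 := by
    intro i hi h
    apply hi
    rw [hΛΛ, h, mul_zero]
  have hrat : Λ i / Λ i' = Λ' i / Λ' i' := by
    rw [hΛΛ, hΛΛ i', mul_div_mul_left _ _ (pow_ne_zero _ huk0)]
  -- the product of the others
  have hother : ∀ l, Λ' l ∈ W.nonunits → ∀ l', l' ≠ l → IsU W (Λ' l') := by
    intro l hl l' hl'
    by_contra h
    have h1 : Λ' l' ∈ W.nonunits := by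
      by_contra h2
      exact h (isU_of_not_nonunit (hΛW l') h2)
    refine two_units j W hW Z Q (β l') (β l) (hnd l' l hl') u' huW k0 hu1 hZ' h1 hl ?_
    by_contra h2
    have h3 : q' ∈ W := val_mem j W hW _ u' huW Q
    have h4 : IsU W (j c * q' ^ (n * ℓ)) :=
      (hconst c hc).mul ((isU_of_not_nonunit h3 h2).pow _)
    rw [hrel', ← Finset.mul_prod_erase Finset.univ Λ' (Finset.mem_univ l)] at h4
    refine h4.not_nonunit ?_
    rw [mul_comm]
    exact nonunit_mul (prod_mem fun l _ => hΛW l) hl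
  have hkey : ∀ l, Λ' l ≠ 0 → Λ' l ∈ W.nonunits → q' ≠ 0 ∧ IsU W (Λ' l / (q' ^ n) ^ ℓ) := by
    intro l hl0 hl
    have hP : IsU W (∏ l' ∈ Finset.univ.erase l, Λ' l') :=
      IsU.prod _ _ fun l' hl' => hother l hl l' (Finset.ne_of_mem_erase hl')
    have h1 : j c * q' ^ (n * ℓ) = Λ' l * ∏ l' ∈ Finset.univ.erase l, Λ' l' := by
      rw [hrel', Finset.mul_prod_erase Finset.univ Λ' (Finset.mem_univ l)]
    have hq0 : q' ≠ 0 := by
      intro h
      rw [h, zero_pow (by positivity), mul_zero] at h1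
      exact mul_ne_zero hl0 hP.1 h1.symm
    refine ⟨hq0, ?_⟩
    have hjc : j c ≠ 0 := (_root_.map_ne_zero j).2 hc
    have h2 : Λ' l / (q' ^ n) ^ ℓ = j c / ∏ l' ∈ Finset.univ.erase l, Λ' l' := by
      rw [← pow_mul, div_eq_div_iff (pow_ne_zero _ hq0) hP.1]
      exact h1.symm
    rw [h2]
    exact (hconst c hc).div hP
  have hsuff : ∀ a : ℤ, (a = 0 ∨ q' ≠ 0) → IsU W (Λ' i / Λ' i' / ((q' ^ n) ^ a) ^ ℓ) →
      ∃ (t : Ω) (k0 : Fin r) (a : ℤ), t = (qq ^ n / u k0 ^ (n * q)) ^ a ∧ t ≠ 0 ∧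
      Λ i / Λ i' / t ^ ℓ ∈ W ∧ t ^ ℓ / (Λ i / Λ i') ∈ W := by
    intro a ha h
    refine ⟨(q' ^ n) ^ a, k0, a, by rw [htw], ?_, ?_, ?_⟩
    · rcases ha with rfl | ha
      · rw [zpow_zero]
        exact one_ne_zero
      · exact zpow_ne_zero _ (pow_ne_zero _ ha)
    · rw [hrat]
      exact h.2.1
    · rw [hrat]
      have := h.2.2
      rwa [inv_div] at this
  by_cases hii : i = i'
  · subst hii
    apply hsuff 0 (Or.inl rfl)
    rw [div_self (hΛ0 i hi0), zpow_zero, one_pow, div_one]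
    exact isU_one
  by_cases hni : Λ' i ∈ W.nonunits
  · obtain ⟨hq0, hab⟩ := hkey i (hΛ0 i hi0) hni
    apply hsuff 1 (Or.inr hq0)
    rw [zpow_one, div_right_comm]
    exact hab.div (hother i hni i' (Ne.symm hii))
  · by_cases hni' : Λ' i' ∈ W.nonunits
    · obtain ⟨hq0, hab⟩ := hkey i' (hΛ0 i' hi'0) hni'
      apply hsuff (-1) (Or.inr hq0)
      have h1 : Λ' i / Λ' i' / ((q' ^ n) ^ (-1 : ℤ)) ^ ℓ = Λ' i / (Λ' i' / (q' ^ n) ^ ℓ) := by
        rw [zpow_neg, zpow_one, inv_pow, div_inv_eq_mul, div_mul_eq_mul_div,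
          div_div_eq_mul_div]
      rw [h1]
      exact (hother i' hni' i hii).div hab
    · apply hsuff 0 (Or.inl rfl)
      rw [zpow_zero, one_pow, div_one]
      exact (isU_of_not_nonunit (hΛW i) hni).div (isU_of_not_nonunit (hΛW i') hni')

end place

end Pool.Agent.Run7.h551.NF
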