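import Pool.Agent.Run7.h551.NF1

/-!
# The Kummer argument for conjugate forms of any degree: sections and rational points
-/

set_option autoImplicit false
set_option maxHeartbeats 400000

namespace Pool.Agent.Run7.h551.NF

open Pool.Agent.W620.SC Pool.Agent.W623.SecC Pool.Agent.TH120.Sec IntermediateField
open Pool.Agent.TH377.LocG Pool.Agent.TH377.NC MvPolynomial

universe u v w

lemma eval_mem {A M : Type*} [Field A] [Field M] (ι : A →+* M) {r : ℕ} (RS : Subfield M)
    (x : Fin r → M) (hx : ∀ i, x i ∈ RS) (p : MvPolynomial (Fin r) A)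
    (hp : ∀ d, ι (p.coeff d) ∈ RS) : eval₂ ι x p ∈ RS := by
  rw [eval₂_eq']
  exact sum_mem fun d _ => mul_mem (hp d) (prod_mem fun k _ => pow_mem (hx k) _)

/-- no section over `F_U` -/
theorem galV {k : Type u} {F : Type v} {Ω : Type w} [Field k] [Field F] [Field Ω]
    [Algebra k F] [Algebra F Ω] [Algebra k Ω] [IsScalarTower k F Ω] [CharZero k] [IsAlgClosed Ω]
    [Algebra.IsAlgebraic F Ω]
    (U : Set (ValuationSubring F)) (hU : ∀ O ∈ U, ∀ c : k, algebraMap k F c ∈ O)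
    (G : GSection k F Ω U) (V : ValuationSubring (algebraicClosure k Ω))
    (S : IntermediateField k (algebraicClosure k Ω)) (ϖ : k) (ϖ0 : ϖ ≠ 0)
    (ϖn : algebraMap k (algebraicClosure k Ω) ϖ ∈ V.nonunits)
    (tame : ∀ c ∈ S, c ≠ 0 → ∃ j : ℤ, IsU V (c / algebraMap k (algebraicClosure k Ω) ϖ ^ j))
    (ℓ : ℕ) (hℓ0 : 0 < ℓ)
    {X : Type*} [Fintype X] (θ : X → algebraicClosure k Ω) (e : X → ℕ) {Y : Type*} (cl : X → Y)
    (htr : ∀ x x', cl x = cl x' → ∃ φ π, GoodAut θ e cl S V φ π ∧ π x = x')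
    (hcard : ∀ x, Nat.gcd 2 ℓ * ℓ ∣ Nat.card {x' // cl x' = cl x})
    {r : ℕ} (β : X → MvPolynomial (Fin r) (algebraicClosure k Ω)) (E : ℕ)
    (hβh : ∀ i, (β i).IsHomogeneous E) (hβS : ∀ i d, (β i).coeff d ∈ S)
    (hβG : ∀ φ π, GoodAut θ e cl S V φ π → ∀ i d, φ ((β i).coeff d) = (β (π i)).coeff d)
    (Z : Set (MvPolynomial (Fin r) k)) (hZh : ∀ p ∈ Z, ∃ m, p.IsHomogeneous m)
    (Q : MvPolynomial (Fin r) k) (q : ℕ) (hQ : Q.IsHomogeneous q)
    (hnd : ∀ i i', i ≠ i' → ND.{w} Z Q (β i) (β i'))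
    (x : Fin r → F) (hx : x ≠ 0) (hxZ : ∀ p ∈ Z, eval₂ (algebraMap k F) x p = 0)
    (n : ℕ) (hn : 0 < n) (hX : E * Fintype.card X = n * ℓ * q)
    (c : algebraicClosure k Ω) (hcS : c ∈ S) (m : ℤ)
    (hm : ¬ (ℓ : ℤ) ∣ m) (hc : IsU V (c / algebraMap k (algebraicClosure k Ω) ϖ ^ m))
    (hxy : (c : Ω) * algebraMap F Ω (eval₂ (algebraMap k F) x Q) ^ (n * ℓ) =
      ∏ i, eval₂ (algebraMap (algebraicClosure k Ω) Ω) (fun l => algebraMap F Ω (x l)) (β i)) :
    False := by
  have hℓ : ℓ ≠ 1 := by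
    rintro rfl
    exact hm (by simp)
  have hac : IsAlgClosure k (algebraicClosure k Ω) := inferInstance
  have hA : IsAlgClosed (algebraicClosure k Ω) := hac.1
  have hWk : ∀ W : ValuationSubring Ω, W.comap (algebraMap F Ω) ∈ U →
      ∀ c : k, algebraMap k Ω c ∈ W := by
    intro W hW c
    rw [IsScalarTower.algebraMap_apply k F Ω]
    exact hU _ hW c
  have hWA : ∀ W : ValuationSubring Ω, W.comap (algebraMap F Ω) ∈ U →
      ∀ c : algebraicClosure k Ω, algebraMap (algebraicClosure k Ω) Ω c ∈ W := by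
    intro W hW c
    exact const_mem (hWk W hW) c.2
  have hc0 : c ≠ 0 := by
    rintro rfl
    rw [zero_div] at hc
    exact hc.1 rfl
  set j : algebraicClosure k Ω →+* Ω := algebraMap (algebraicClosure k Ω) Ω with hj
  set g : k →+* algebraicClosure k Ω := algebraMap k (algebraicClosure k Ω) with hg
  have hjg : j.comp g = (algebraMap F Ω).comp (algebraMap k F) := by
    rw [← IsScalarTower.algebraMap_eq k F Ω]
    rfl
  set x' : Fin r → Ω := fun i => algebraMap F Ω (x i) with hx'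
  have hx'0 : x' ≠ 0 := by
    intro h
    apply hx
    funext i
    exact (_root_.map_eq_zero _).1 (congrFun h i)
  have hev : ∀ p : MvPolynomial (Fin r) k, algebraMap F Ω (eval₂ (algebraMap k F) x p) =
      eval₂ (j.comp g) x' p := by
    intro p
    rw [hom_eval₂, hjg]
  have hxZ' : ∀ p ∈ Z, eval₂ (j.comp g) x' p = 0 := by
    intro p hp
    rw [← hev, hxZ p hp, map_zero]
  rw [hev] at hxy
  -- the forms
  set D := mkT U hU G V S ϖ ϖ0 ϖn tame 1 (fun _ => Iff.rfl) (fun _ => Iff.rfl) with hD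
  set lam : X → unramified F Ω U := fun i =>
    eval₂ D.ι (fun l => algebraMap F (unramified F Ω U) (x l)) (β i) with hlam
  have hval : ∀ i, ((lam i : unramified F Ω U) : Ω) = eval₂ j x' (β i) := by
    intro i
    change algebraMap (unramified F Ω U) Ω (lam i) = _
    rw [hlam, hom_eval₂]
    rfl
  have hfix : ∀ (σ) (z : F), D.s σ (algebraMap F (unramified F Ω U) z) =
      algebraMap F (unramified F Ω U) z := fun σ z => (G.toHom σ).commutes z
  have hGood : ∀ φ π, GoodAut θ e cl S V φ π → ∀ i, D.s φ (lam i) = lam (π i) := by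
    intro φ π hφ i
    have h1 : (β i).map (φ : algebraicClosure k Ω →+* algebraicClosure k Ω) = β (π i) := by
      refine MvPolynomial.ext _ _ fun d => ?_
      rw [coeff_map]
      exact hβG φ π hφ i d
    rw [hlam]
    change D.s φ (eval₂ D.ι _ (β i)) = eval₂ D.ι _ (β (π i))
    rw [← h1, eval₂_map]
    have h2 := hom_eval₂ (β i) D.ι (D.s φ : unramified F Ω U →+* unramified F Ω U)
      (fun l => algebraMap F (unramified F Ω U) (x l))
    refine Eq.trans h2 ?_
    congr 1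
    · ext z
      exact congrArg _ (D.hι φ z)
    · funext l
      exact hfix φ (x l)
  have hmem : ∀ i, lam i ∈ D.RS := fun i => eval_mem D.ι D.RS _ (fun l σ _ => hfix σ _) (β i)
    fun d => D.ι_mem (hβS i d)
  have hne0 : ∀ i, lam i ≠ 0 := by
    intro i hi
    obtain ⟨i', hi', hcl⟩ := exists_other cl ℓ hℓ hcard i
    obtain ⟨φ, π, hφ, hπ⟩ := htr i i' hcl.symm
    have h1 := hGood φ π hφ i
    rw [hi, map_zero, hπ] at h1
    have h2 := hval i
    have h3 := hval i'
    rw [hi] at h2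
    rw [← h1] at h3
    refine hnd i' i hi' Ω j x' hx'0 hxZ' h3.symm h2.symm ?_
    have h4 : ∏ i, eval₂ j x' (β i) = 0 :=
      Finset.prod_eq_zero (Finset.mem_univ i) h2.symm
    rw [h4] at hxy
    have h5 : (c : Ω) ≠ 0 := by
      intro h
      exact hc0 (Subtype.ext h)
    exact pow_eq_zero_iff (by positivity) |>.1 ((mul_eq_zero.1 hxy).resolve_left h5)
  refine absL D ℓ hℓ0 θ e cl ⟨ϖ, rfl⟩ htr hcard lam hne0 hmem hGood
    (algebraMap F (unramified F Ω U) (eval₂ (algebraMap k F) x Q ^ n))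
    (fun σ => hfix σ _) c hcS m hm hc ?_ ?_
  · apply (algebraMap (unramified F Ω U) Ω).injective
    have hval' : ∀ i, algebraMap (unramified F Ω U) Ω (lam i) = eval₂ j x' (β i) := hval
    rw [map_mul, map_pow, map_prod]
    simp only [hval']
    change (c : Ω) * (algebraMap F Ω (eval₂ (algebraMap k F) x Q ^ n)) ^ ℓ = _
    rw [map_pow, hev, ← pow_mul]
    exact hxy
  · intro i i'
    refine exists_root_unramified (k := k) U hU hℓ0 _ ?_
    intro _ W hW
    have hv : ((lam i / lam i' : unramified F Ω U) : Ω) = eval₂ j x' (β i) / eval₂ j x' (β i') := by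
      rw [← hval, ← hval]
      exact map_div₀ (algebraMap (unramified F Ω U) Ω) _ _
    rw [hv]
    have hne' : ∀ i, eval₂ j x' (β i) ≠ 0 := by
      intro i h
      rw [← hval] at h
      exact hne0 i (Subtype.ext h)
    obtain ⟨t, k0, a, ht, ht0, h3, h4⟩ := ratio_form j W (hWA W hW) Z hZh Q q hQ β E hβh hnd x' hx'0
      hxZ' ℓ n hn hℓ0 c hc0 hX hxy i i' (hne' i) (hne' i')
    refine ⟨t, ?_, ht0, h3, h4⟩
    have h5 : t = algebraMap F Ω ((eval₂ (algebraMap k F) x Q ^ n /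
        x k0 ^ (n * q)) ^ a) := by
      rw [ht, map_zpow₀, map_div₀, map_pow, map_pow, hev]
    rw [h5]
    exact IntermediateField.algebraMap_mem _ _

/-- no rational point -/
theorem galVpt {k : Type u} {A : Type w} [Field k] [Field A] [Algebra k A] [CharZero k]
    [IsAlgClosed A] [Algebra.IsAlgebraic k A] (V : ValuationSubring A)
    (S : IntermediateField k A) (ϖ : k) (ϖ0 : ϖ ≠ 0)
    (ϖn : algebraMap k A ϖ ∈ V.nonunits)
    (tame : ∀ c ∈ S, c ≠ 0 → ∃ j : ℤ, IsU V (c / algebraMap k A ϖ ^ j))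
    (ℓ : ℕ) (hℓ0 : 0 < ℓ)
    {X : Type*} [Fintype X] (θ : X → A) (e : X → ℕ) {Y : Type*} (cl : X → Y)
    (htr : ∀ x x', cl x = cl x' → ∃ φ π, GoodAut θ e cl S V φ π ∧ π x = x')
    (hcard : ∀ x, Nat.gcd 2 ℓ * ℓ ∣ Nat.card {x' // cl x' = cl x})
    {r : ℕ} (β : X → MvPolynomial (Fin r) A)
    (hβS : ∀ i d, (β i).coeff d ∈ S)
    (hβG : ∀ φ π, GoodAut θ e cl S V φ π → ∀ i d, φ ((β i).coeff d) = (β (π i)).coeff d)
    (Z : Set (MvPolynomial (Fin r) k))
    (Q : MvPolynomial (Fin r) k)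
    (hnd : ∀ i i', i ≠ i' → ND.{w} Z Q (β i) (β i'))
    (x : Fin r → k) (hx : x ≠ 0) (hxZ : ∀ p ∈ Z, eval x p = 0) (n : ℕ) (hn : 0 < n)
    (c : A) (hcS : c ∈ S) (m : ℤ)
    (hm : ¬ (ℓ : ℤ) ∣ m) (hc : IsU V (c / algebraMap k A ϖ ^ m))
    (hxy : c * algebraMap k A (eval x Q) ^ (n * ℓ) =
      ∏ i, eval (fun l => algebraMap k A (x l)) (β i)) :
    False := by
  have hℓ : ℓ ≠ 1 := by
    rintro rfl
    exact hm (by simp)
  have hc0 : c ≠ 0 := by
    rintro rfl
    rw [zero_div] at hc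
    exact hc.1 rfl
  set x' : Fin r → A := fun i => algebraMap k A (x i) with hx'
  have hx'0 : x' ≠ 0 := by
    intro h
    apply hx
    funext i
    exact (_root_.map_eq_zero _).1 (congrFun h i)
  have hev : ∀ p : MvPolynomial (Fin r) k, algebraMap k A (eval x p) =
      eval₂ ((RingHom.id A).comp (algebraMap k A)) x' p := by
    intro p
    rw [← eval₂_id, hom_eval₂]
    rfl
  have hxZ' : ∀ p ∈ Z, eval₂ ((RingHom.id A).comp (algebraMap k A)) x' p = 0 := by
    intro p hp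
    rw [← hev, hxZ p hp, map_zero]
  set D := idT V S ϖ ϖ0 ϖn tame 1 (fun _ => Iff.rfl) (fun _ => Iff.rfl) with hD
  set lam : X → A := fun i => eval x' (β i) with hlam
  have hfix : ∀ (σ) (z : k), D.s σ (algebraMap k A z) = algebraMap k A z :=
    fun σ z => σ.commutes z
  have hGood : ∀ φ π, GoodAut θ e cl S V φ π → ∀ i, D.s φ (lam i) = lam (π i) := by
    intro φ π hφ i
    have h1 : (β i).map (φ : A →+* A) = β (π i) := by
      refine MvPolynomial.ext _ _ fun d => ?_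
      rw [coeff_map]
      exact hβG φ π hφ i d
    rw [hlam]
    change D.s φ (eval x' (β i)) = eval x' (β (π i))
    rw [← h1, eval_map, ← eval₂_id]
    have h2 := hom_eval₂ (β i) (RingHom.id A) (D.s φ : A →+* A) x'
    refine Eq.trans h2 ?_
    congr 1
    funext l
    exact hfix φ (x l)
  have hmem : ∀ i, lam i ∈ D.RS := fun i => by
    rw [hlam]
    change eval x' (β i) ∈ D.RS
    rw [← eval₂_id]
    exact eval_mem (RingHom.id A) D.RS x' (fun l σ _ => hfix σ _) (β i)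
      fun d => D.ι_mem (hβS i d)
  have hne0 : ∀ i, lam i ≠ 0 := by
    intro i hi
    obtain ⟨i', hi', hcl⟩ := exists_other cl ℓ hℓ hcard i
    obtain ⟨φ, π, hφ, hπ⟩ := htr i i' hcl.symm
    have h1 := hGood φ π hφ i
    rw [hi, map_zero, hπ] at h1
    have hi2 : eval₂ (RingHom.id A) x' (β i) = 0 := by
      rw [eval₂_id]
      exact hi
    have h12 : eval₂ (RingHom.id A) x' (β i') = 0 := by
      rw [eval₂_id]
      exact h1.symm
    refine hnd i' i hi' A (RingHom.id A) x' hx'0 hxZ' h12 hi2 ?_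
    have h4 : ∏ i, eval x' (β i) = 0 := Finset.prod_eq_zero (Finset.mem_univ i) hi
    rw [h4, hev] at hxy
    exact pow_eq_zero_iff (by positivity) |>.1 ((mul_eq_zero.1 hxy).resolve_left hc0)
  refine absL D ℓ hℓ0 θ e cl ⟨ϖ, rfl⟩ htr hcard lam hne0 hmem hGood
    (algebraMap k A (eval x Q ^ n)) (fun σ => hfix σ _) c hcS m hm hc ?_ ?_
  · rw [map_pow, ← pow_mul]
    exact hxy
  · intro i i'
    exact IsAlgClosed.exists_pow_nat_eq _ hℓ0

end Pool.Agent.Run7.h551.NF
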