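import Pool.Agent.Run7.h551.NF2
import Pool.Agent.TH377.NC.Gen

/-!
# The local theorem for norm forms of any degree on projective varieties
-/

set_option autoImplicit false
set_option maxHeartbeats 400000
set_option linter.unusedSectionVars false

namespace Pool.Agent.Run7.h551.NF

open Pool.Agent.W620.SC Pool.Agent.W623.SecC Pool.Agent.TH120.Sec IntermediateField
open Pool.Agent.TH377.LocG Pool.Agent.TH377.NC Pool.Agent.TH377.Loc

universe u v w x y z

/-- the value of a polynomial at `ρ` -/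
noncomputable def spec {k : Type*} {Ω : Type*} [Field k] [Field Ω] [Algebra k Ω] (ρ : Ω) :
    Polynomial k →+* Ω := (Polynomial.aeval ρ : Polynomial k →ₐ[k] Ω).toRingHom

lemma spec_apply {k : Type*} {Ω : Type*} [Field k] [Field Ω] [Algebra k Ω] (ρ : Ω)
    (p : Polynomial k) : spec ρ p = Polynomial.aeval ρ p := rfl

section

variable {A k : Type u} [CommRing A] [IsDomain A]
    [IsDiscreteValuationRing A] [Field k] [Algebra A k]
    [IsFractionRing A k] [CharZero k]
    (ℓ : ℕ) (hℓ : 0 < ℓ) (f : Polynomial A) (hf : f.Monic)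
    (hs : (f.map (IsLocalRing.residue A)).Separable)
    (hσ : FactorDiv (Nat.gcd 2 ℓ * ℓ) (f.map (IsLocalRing.residue A)))
    (ϖ : A) (hϖ : Irreducible ϖ) (a : k) (t : A) (ht : IsUnit t) (m : ℤ) (hm : ¬ (ℓ : ℤ) ∣ m)
    (ha : a = algebraMap A k t * algebraMap A k ϖ ^ m)
    {r : ℕ} (B : MvPolynomial (Fin r) (Polynomial k)) (E : ℕ) (hB : B.IsHomogeneous E)
    (Z : Set (MvPolynomial (Fin r) k)) (hZh : ∀ p ∈ Z, ∃ m, p.IsHomogeneous m)
    (Q : MvPolynomial (Fin r) k) (q : ℕ) (hQ : Q.IsHomogeneous q)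

include hf hs hσ hϖ ht ha hℓ hm hB hZh hQ

/-- **The local theorem**, sections. -/
theorem local_sectionV {F : Type v} {Ω : Type w} [Field F] [Field Ω] [Algebra k F] [Algebra F Ω]
    [Algebra k Ω] [IsScalarTower k F Ω] [IsAlgClosed Ω] [Algebra.IsAlgebraic F Ω]
    (U : Set (ValuationSubring F)) (hU : ∀ O ∈ U, ∀ c : k, algebraMap k F c ∈ O)
    (hnd : ∀ θ θ' : algebraicClosure k Ω, Polynomial.aeval θ (f.map (algebraMap A k)) = 0 →
      Polynomial.aeval θ' (f.map (algebraMap A k)) = 0 → θ ≠ θ' →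
      ND.{w} Z Q (B.map (spec θ)) (B.map (spec θ')))
    (x : Fin r → F) (hx : x ≠ 0) (hxZ : ∀ p ∈ Z, MvPolynomial.eval₂ (algebraMap k F) x p = 0)
    (n : ℕ) (hn : 0 < n) (hdeg : E * f.natDegree = n * ℓ * q)
    (hxy : algebraMap k Ω a * algebraMap F Ω (MvPolynomial.eval₂ (algebraMap k F) x Q) ^ (n * ℓ) =
      (((f.map (algebraMap A k)).map (algebraMap k Ω)).roots.map fun θ =>
        MvPolynomial.eval₂ (spec θ) (fun l => algebraMap F Ω (x l)) B).prod) :
    IsEmpty (GSection k F Ω U) := by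
  classical
  refine ⟨fun G => ?_⟩
  have hac : IsAlgClosure k (algebraicClosure k Ω) := inferInstance
  have hkb : IsAlgClosed (algebraicClosure k Ω) := hac.1
  let _ : Algebra A (algebraicClosure k Ω) :=
    ((algebraMap k (algebraicClosure k Ω)).comp (algebraMap A k)).toAlgebra
  have hst : IsScalarTower A k (algebraicClosure k Ω) :=
    IsScalarTower.of_algebraMap_eq (fun _ => rfl)
  have hcz : CharZero Ω := charZero_of_injective_algebraMap (algebraMap k Ω).injective
  obtain ⟨V, S, X, _, θ, e', cl, hϖ0, hpn, htame, hθS, hθinj, hθroot, htr, hcard, hcu, hroots⟩ :=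
    lin_data (kb := algebraicClosure k Ω) ℓ f hf hs hσ ϖ hϖ a t ht m ha
  have hr := hroots (algebraMap (algebraicClosure k Ω) Ω)
  rw [← IsScalarTower.algebraMap_eq k (algebraicClosure k Ω) Ω] at hr
  have hX : Fintype.card X = f.natDegree := by
    have h1 := congrArg Multiset.card hr
    rw [Multiset.card_map, Finset.card_val, Finset.card_univ,
      ← (IsAlgClosed.splits _).natDegree_eq_card_roots, Polynomial.natDegree_map,
      hf.natDegree_map] at h1
    exact h1.symm
  refine galV U hU G V S (algebraMap A k ϖ) hϖ0 hpn htame ℓ hℓ θ e' cl htr hcard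
    (fun i => B.map (spec (θ i))) E (fun i => hB.map _) ?_ ?_ Z hZh Q q hQ ?_ x hx hxZ n hn
    (by rw [hX, hdeg]) (algebraMap k (algebraicClosure k Ω) a) (S.algebraMap_mem _) m hm hcu ?_
  · intro i d
    rw [MvPolynomial.coeff_map, spec_apply]
    have h1 : Polynomial.aeval ((⟨θ i, hθS i⟩ : S) : algebraicClosure k Ω) (B.coeff d) =
        ((Polynomial.aeval (⟨θ i, hθS i⟩ : S) (B.coeff d) : S) : algebraicClosure k Ω) :=
      IntermediateField.aeval_coe S (⟨θ i, hθS i⟩ : S) (B.coeff d)
    change Polynomial.aeval ((⟨θ i, hθS i⟩ : S) : algebraicClosure k Ω) (B.coeff d) ∈ S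
    rw [h1]
    exact Subtype.mem _
  · intro φ π hφ i d
    rw [MvPolynomial.coeff_map, MvPolynomial.coeff_map, spec_apply, spec_apply]
    have h1 := Polynomial.aeval_algHom_apply
      (φ : algebraicClosure k Ω →ₐ[k] algebraicClosure k Ω) (θ i) (B.coeff d)
    have h2 : (φ : algebraicClosure k Ω →ₐ[k] algebraicClosure k Ω) (θ i) = θ (π i) := hφ.2.2.1 i
    rw [h2] at h1
    exact h1.symm
  · intro i i' hii
    exact hnd (θ i) (θ i') (hθroot i) (hθroot i') (fun h => hii (hθinj h))
  · change algebraMap k Ω a * _ = _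
    rw [hxy, hr, Multiset.map_map]
    change ∏ i, _ = _
    refine Finset.prod_congr rfl fun i _ => ?_
    rw [MvPolynomial.eval₂_map]
    change MvPolynomial.eval₂ (spec (algebraMap (algebraicClosure k Ω) Ω (θ i))) _ B = _
    congr 1
    refine RingHom.ext fun p => ?_
    change Polynomial.aeval (algebraMap (algebraicClosure k Ω) Ω (θ i)) p =
      algebraMap (algebraicClosure k Ω) Ω (Polynomial.aeval (θ i) p)
    exact Polynomial.aeval_algebraMap_apply Ω (θ i) p

/-- **The local theorem**, points. -/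
theorem local_pointV {kb : Type w} [Field kb] [Algebra k kb]
    [IsAlgClosed kb] [Algebra.IsAlgebraic k kb]
    (hnd : ∀ θ θ' : kb, Polynomial.aeval θ (f.map (algebraMap A k)) = 0 →
      Polynomial.aeval θ' (f.map (algebraMap A k)) = 0 → θ ≠ θ' →
      ND.{w} Z Q (B.map (spec θ)) (B.map (spec θ')))
    (x : Fin r → k) (hx : x ≠ 0) (hxZ : ∀ p ∈ Z, MvPolynomial.eval x p = 0) (n : ℕ) (hn : 0 < n)
    (hxy : algebraMap k kb a * algebraMap k kb (MvPolynomial.eval x Q) ^ (n * ℓ) =
      (((f.map (algebraMap A k)).map (algebraMap k kb)).roots.map fun θ =>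
        MvPolynomial.eval₂ (spec θ) (fun l => algebraMap k kb (x l)) B).prod) : False := by
  classical
  let _ : Algebra A kb := ((algebraMap k kb).comp (algebraMap A k)).toAlgebra
  have hst : IsScalarTower A k kb := IsScalarTower.of_algebraMap_eq (fun _ => rfl)
  have hcz : CharZero kb := charZero_of_injective_algebraMap (algebraMap k kb).injective
  obtain ⟨V, S, X, _, θ, e', cl, hϖ0, hpn, htame, hθS, hθinj, hθroot, htr, hcard, hcu, hroots⟩ :=
    lin_data (kb := kb) ℓ f hf hs hσ ϖ hϖ a t ht m ha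
  have hr := hroots (RingHom.id kb)
  rw [RingHom.id_comp] at hr
  refine galVpt V S (algebraMap A k ϖ) hϖ0 hpn htame ℓ hℓ θ e' cl htr hcard
    (fun i => B.map (spec (θ i))) ?_ ?_ Z Q ?_ x hx hxZ n hn
    (algebraMap k kb a) (S.algebraMap_mem _) m hm hcu ?_
  · intro i d
    rw [MvPolynomial.coeff_map, spec_apply]
    have h1 : Polynomial.aeval ((⟨θ i, hθS i⟩ : S) : kb) (B.coeff d) =
        ((Polynomial.aeval (⟨θ i, hθS i⟩ : S) (B.coeff d) : S) : kb) :=
      IntermediateField.aeval_coe S (⟨θ i, hθS i⟩ : S) (B.coeff d)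
    change Polynomial.aeval ((⟨θ i, hθS i⟩ : S) : kb) (B.coeff d) ∈ S
    rw [h1]
    exact Subtype.mem _
  · intro φ π hφ i d
    rw [MvPolynomial.coeff_map, MvPolynomial.coeff_map, spec_apply, spec_apply]
    have h1 := Polynomial.aeval_algHom_apply (φ : kb →ₐ[k] kb) (θ i) (B.coeff d)
    have h2 : (φ : kb →ₐ[k] kb) (θ i) = θ (π i) := hφ.2.2.1 i
    rw [h2] at h1
    exact h1.symm
  · intro i i' hii
    exact hnd (θ i) (θ i') (hθroot i) (hθroot i') (fun h => hii (hθinj h))
  · rw [hxy, hr, Multiset.map_map]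
    change ∏ i, _ = _
    refine Finset.prod_congr rfl fun i _ => ?_
    rw [MvPolynomial.eval_map]
    rfl

end

/-- transversality over any algebraically closed field -/
theorem nd_liftV {K : Type u} [Field K] {kb : Type w} [Field kb] [Algebra K kb] {R : Type v}
    [Field R] [Algebra K R] [Algebra R kb] [IsScalarTower K R kb]
    [IsAlgClosed kb] (h : Polynomial K) (h0 : h ≠ 0) {r : ℕ}
    (B : MvPolynomial (Fin r) (Polynomial K)) (Z : Set (MvPolynomial (Fin r) K))
    (Q : MvPolynomial (Fin r) K)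
    (htr : ∀ ρ ρ' : AlgebraicClosure K, Polynomial.aeval ρ h = 0 → Polynomial.aeval ρ' h = 0 →
      ρ ≠ ρ' → ∀ u : Fin r → AlgebraicClosure K, u ≠ 0 → (∀ p ∈ Z, MvPolynomial.aeval u p = 0) →
      MvPolynomial.eval₂ (spec ρ) u B = 0 → MvPolynomial.eval₂ (spec ρ') u B = 0 →
      MvPolynomial.aeval u Q ≠ 0)
    (θ θ' : kb) (hθ : Polynomial.aeval θ h = 0) (hθ' : Polynomial.aeval θ' h = 0) (hne : θ ≠ θ') :
    ND.{z} (MvPolynomial.map (algebraMap K R) '' Z) (MvPolynomial.map (algebraMap K R) Q)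
      ((B.map (Polynomial.mapRingHom (algebraMap K R))).map (spec θ))
      ((B.map (Polynomial.mapRingHom (algebraMap K R))).map (spec θ')) := by
  classical
  let ι : AlgebraicClosure K →ₐ[K] kb := IsAlgClosed.lift
  have hroot : ∀ t : kb, Polynomial.aeval t h = 0 → ∃ r : AlgebraicClosure K,
      Polynomial.aeval r h = 0 ∧ ι r = t := by
    intro t ht
    have hsp : (h.map (algebraMap K (AlgebraicClosure K))).Splits := IsAlgClosed.splits _
    have h1 : t ∈ (h.map (algebraMap K kb)).roots := by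
      rw [Polynomial.mem_roots (Polynomial.map_ne_zero h0), Polynomial.IsRoot.def,
        Polynomial.eval_map_algebraMap]
      exact ht
    have h2 : h.map (algebraMap K kb) = (h.map (algebraMap K (AlgebraicClosure K))).map
          (ι : AlgebraicClosure K →+* kb) := by
      rw [Polynomial.map_map, AlgHom.comp_algebraMap]
    rw [h2, hsp.roots_map, Multiset.mem_map] at h1
    obtain ⟨r, hr, hrt⟩ := h1
    refine ⟨r, ?_, hrt⟩
    rw [Polynomial.mem_roots (Polynomial.map_ne_zero h0), Polynomial.IsRoot.def,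
      Polynomial.eval_map_algebraMap] at hr
    exact hr
  obtain ⟨s, hs, hsθ⟩ := hroot θ hθ
  obtain ⟨s', hs', hsθ'⟩ := hroot θ' hθ'
  have hss : s ≠ s' := by
    rintro rfl
    exact hne (hsθ.symm.trans hsθ')
  have h1 := htr s s' hs hs' hss
  intro κ _ j u hu hZ hβ hβ' hQ
  apply hu
  have hcK : ((j.comp (ι : AlgebraicClosure K →+* kb)).comp (algebraMap K (AlgebraicClosure K))) =
      (j.comp (algebraMap R kb)).comp (algebraMap K R) := by
    rw [RingHom.comp_assoc, AlgHom.comp_algebraMap, RingHom.comp_assoc,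
      ← IsScalarTower.algebraMap_eq K R kb]
  have hcB : ∀ (a : AlgebraicClosure K) (b : kb), ι a = b →
      ((j.comp (ι : AlgebraicClosure K →+* kb)).comp (spec a) : Polynomial K →+* κ) =
        j.comp ((spec b : Polynomial R →+* kb).comp
          (Polynomial.mapRingHom (algebraMap K R))) := by
    intro a b hab
    apply Polynomial.ringHom_ext
    · intro c
      change j (ι (Polynomial.aeval a (Polynomial.C c))) =
        j (Polynomial.aeval b ((Polynomial.C c : Polynomial K).map (algebraMap K R)))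
      rw [Polynomial.aeval_C, AlgHom.commutes, Polynomial.map_C, Polynomial.aeval_C,
        ← IsScalarTower.algebraMap_apply]
    · change j (ι (Polynomial.aeval a Polynomial.X)) =
        j (Polynomial.aeval b ((Polynomial.X : Polynomial K).map (algebraMap K R)))
      rw [Polynomial.aeval_X, Polynomial.map_X, Polynomial.aeval_X, hab]
  refine no_common (A := AlgebraicClosure K)
    ((MvPolynomial.map (algebraMap K (AlgebraicClosure K)) '' Z) ∪
      {MvPolynomial.map (algebraMap K (AlgebraicClosure K)) Q, B.map (spec s), B.map (spec s')})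
    ?_ (j.comp (ι : AlgebraicClosure K →+* kb)) u ?_
  · intro t ht
    by_contra ht0
    refine h1 t ht0 ?_ ?_ ?_ ?_
    · intro p hp
      have h2 := ht _ (Or.inl ⟨p, hp, rfl⟩)
      rw [MvPolynomial.eval_map] at h2
      exact h2
    · have h2 := ht (B.map (spec s)) (Or.inr (by simp))
      rwa [MvPolynomial.eval_map] at h2
    · have h2 := ht (B.map (spec s')) (Or.inr (by simp))
      rwa [MvPolynomial.eval_map] at h2
    · have h2 := ht (MvPolynomial.map (algebraMap K (AlgebraicClosure K)) Q) (Or.inr (by simp))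
      rw [MvPolynomial.eval_map] at h2
      exact h2
  · rintro p (⟨p, hp, rfl⟩ | hp)
    · have h2 := hZ _ ⟨p, hp, rfl⟩
      rw [MvPolynomial.eval₂_map] at h2 ⊢
      rw [hcK]
      exact h2
    · simp only [Set.mem_insert_iff, Set.mem_singleton_iff] at hp
      rcases hp with rfl | rfl | rfl
      · rw [MvPolynomial.eval₂_map] at hQ ⊢
        rw [hcK]
        exact hQ
      · rw [MvPolynomial.map_map, MvPolynomial.eval₂_map] at hβ
        rw [MvPolynomial.eval₂_map, hcB s θ hsθ]
        exact hβ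
      · rw [MvPolynomial.map_map, MvPolynomial.eval₂_map] at hβ'
        rw [MvPolynomial.eval₂_map, hcB s' θ' hsθ']
        exact hβ'

/-- the norm form of `B` for `h` at a vector -/
noncomputable def nrmV {K : Type u} [Field K] {Ω : Type w} [Field Ω] [Algebra K Ω]
    (h : Polynomial K) {r : ℕ} (B : MvPolynomial (Fin r) (Polynomial K)) (x : Fin r → Ω) : Ω :=
  ((h.aroots Ω).map fun ρ => MvPolynomial.eval₂ (spec ρ) x B).prod

lemma nrmV_eq {K : Type u} {L : Type y} {Ω : Type w} [Field K] [Field L] [Algebra K L] [Field Ω]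
    [Algebra L Ω] [Algebra K Ω] [IsScalarTower K L Ω] (h : Polynomial K) (c : K) (hc : c ≠ 0)
    (g : Polynomial K) (hg : h = Polynomial.C c * g) {r : ℕ}
    (B : MvPolynomial (Fin r) (Polynomial K)) (x : Fin r → Ω) :
    nrmV h B x = (((g.map (algebraMap K L)).map (algebraMap L Ω)).roots.map fun θ =>
        MvPolynomial.eval₂ (spec θ) x (B.map (Polynomial.mapRingHom (algebraMap K L)))).prod := by
  have hc' : algebraMap K Ω c ≠ 0 := (_root_.map_ne_zero _).2 hc
  have h1 : h.aroots Ω = g.aroots Ω := by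
    rw [hg, Polynomial.aroots_def, Polynomial.map_mul, Polynomial.map_C,
      Polynomial.roots_C_mul _ hc']
  rw [nrmV, h1, Polynomial.map_map, ← IsScalarTower.algebraMap_eq K L Ω]
  change _ = ((g.aroots Ω).map _).prod
  congr 1
  refine Multiset.map_congr rfl fun θ _ => ?_
  rw [MvPolynomial.eval₂_map]
  congr 1
  refine RingHom.ext fun p => ?_
  change Polynomial.aeval θ p = Polynomial.aeval θ (p.map (algebraMap K L))
  rw [Polynomial.aeval_map_algebraMap]

section

variable {R : Type z} {K : Type u} [CommRing R] [IsDomain R] [IsDiscreteValuationRing R] [Field K]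
  [Algebra R K] [IsFractionRing R K] [CharZero K] {L : Type y} [Field L] [Algebra K L]
  [FiniteDimensional K L]
  (D : ℕ) (hD : D ≠ 0) (h : Polynomial K) (c : K) (hc : c ≠ 0) (g : Polynomial R) (hg : g.Monic)
  (hgK : h = Polynomial.C c * g.map (algebraMap R K))
  (hs : (g.map (IsLocalRing.residue R)).Separable)
  (hσ : FactorDiv (Nat.gcd 2 D * D) (g.map (IsLocalRing.residue R)))
  (ϖ0 t0 : R) (hϖ0 : Irreducible ϖ0) (ht0 : IsUnit t0) (m : ℤ)
  (hm : ¬ (D : ℤ) ∣ m * Module.finrank K L) (a : K)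
  (ha : a = algebraMap R K t0 * algebraMap R K ϖ0 ^ m) {r : ℕ} (n q E : ℕ) (hDn : D ∣ n)
  (hnq : n * q = E * h.natDegree) (hn0 : n ≠ 0) (hdeg : h.natDegree ≠ 0)
  (B : MvPolynomial (Fin r) (Polynomial K)) (hB : B.IsHomogeneous E)
  (Z : Set (MvPolynomial (Fin r) K)) (hZh : ∀ p ∈ Z, ∃ m, p.IsHomogeneous m)
  (Q : MvPolynomial (Fin r) K) (hQ : Q.IsHomogeneous q)
  (htr : ∀ ρ ρ' : AlgebraicClosure K, Polynomial.aeval ρ h = 0 → Polynomial.aeval ρ' h = 0 →
      ρ ≠ ρ' → ∀ u : Fin r → AlgebraicClosure K, u ≠ 0 → (∀ p ∈ Z, MvPolynomial.aeval u p = 0) →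
      MvPolynomial.eval₂ (spec ρ) u B = 0 → MvPolynomial.eval₂ (spec ρ') u B = 0 →
      MvPolynomial.aeval u Q ≠ 0)

include hD hc hg hgK hs hσ hϖ0 ht0 hm ha hDn hnq hn0 hdeg hB hZh hQ htr

/-- no points and no sections -/
theorem alg_bothV :
    (∀ x : Fin r → L, x ≠ 0 → (∀ p ∈ Z, MvPolynomial.aeval x p = 0) →
      nrmV h B (fun j => algebraMap L (AlgebraicClosure L) (x j)) ≠
      algebraMap K (AlgebraicClosure L) a *
        MvPolynomial.aeval (fun j => algebraMap L (AlgebraicClosure L) (x j)) Q ^ n) ∧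
    ∀ (F : Type v) (Ω : Type w) [Field F] [Field Ω] [Algebra L F] [Algebra F Ω] [Algebra L Ω]
      [Algebra K F] [Algebra K Ω] [IsScalarTower L F Ω] [IsScalarTower K L F]
      [IsScalarTower K L Ω] [IsAlgClosure F Ω]
      (x : Fin r → F) (U : Set (ValuationSubring F)), x ≠ 0 →
      (∀ p ∈ Z, MvPolynomial.aeval x p = 0) →
      nrmV h B (fun j => algebraMap F Ω (x j)) =
        algebraMap K Ω a * MvPolynomial.aeval (fun j => algebraMap F Ω (x j)) Q ^ n →
      (∀ O ∈ U, ∀ c : L, algebraMap L F c ∈ O) → IsEmpty (GSection L F Ω U) := by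
  let _ : Algebra R L := ((algebraMap K L).comp (algebraMap R K)).toAlgebra
  have hstR : IsScalarTower R K L := IsScalarTower.of_algebraMap_eq (fun _ => rfl)
  obtain ⟨ℓ, hℓ0, hℓD, B', _, _, _, _, hfr, f, hf, hfK, hfs, hfd, ϖ, t, m', hϖ, ht, hm', hat⟩ :=
    dvr_data (k := K) (L := L) g hg hs D hD hσ ϖ0 t0 hϖ0 ht0 m hm
  have hczL : CharZero L := charZero_of_injective_algebraMap (algebraMap K L).injective
  obtain ⟨n', rfl⟩ := hℓD.trans hDn
  have hn' : 0 < n' := by
    rcases Nat.eq_zero_or_pos n' with h1 | h1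
    · rw [h1, mul_zero] at hn0
      exact absurd rfl hn0
    · exact h1
  have hh0 : h ≠ 0 := by
    rintro rfl
    exact hdeg Polynomial.natDegree_zero
  have hfL : f.map (algebraMap B' L) = (g.map (algebraMap R K)).map (algebraMap K L) := by
    rw [hfK, Polynomial.map_map, ← IsScalarTower.algebraMap_eq R K L]
  have hgd : g.natDegree = h.natDegree := by
    rw [hgK, Polynomial.natDegree_C_mul hc, hg.natDegree_map]
  have hfdeg : E * f.natDegree = n' * ℓ * q := by
    have h1 : (f.map (algebraMap B' L)).natDegree = f.natDegree := hf.natDegree_map _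
    rw [← h1, hfK, hg.natDegree_map, hgd, ← hnq]
    ring
  have haL : algebraMap K L a = algebraMap B' L t * algebraMap B' L ϖ ^ m' := by
    rw [← hat, ha, map_mul, map_zpow₀]
    rfl
  have hZh' : ∀ p ∈ (MvPolynomial.map (algebraMap K L) '' Z : Set (MvPolynomial (Fin r) L)),
      ∃ m, p.IsHomogeneous m := by
    rintro _ ⟨p, hp, rfl⟩
    obtain ⟨m, hm⟩ := hZh p hp
    exact ⟨m, hm.map _⟩
  refine ⟨?_, ?_⟩
  · intro x hx hxZ hon
    have hst : IsScalarTower K L (AlgebraicClosure L) := inferInstance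
    refine local_pointV (A := B') (k := L) (kb := AlgebraicClosure L) ℓ hℓ0 f hf hfs hfd ϖ hϖ
      (algebraMap K L a) t ht m' hm' haL (B.map (Polynomial.mapRingHom (algebraMap K L))) E
      (hB.map _) (MvPolynomial.map (algebraMap K L) '' Z) hZh' (MvPolynomial.map (algebraMap K L) Q)
      q (hQ.map _) ?_ x hx ?_ n' hn' ?_
    · intro θ θ' hθ hθ' hne
      rw [hfL, Polynomial.aeval_map_algebraMap] at hθ hθ'
      refine nd_liftV h hh0 B Z Q htr θ θ' ?_ ?_ hne
      · rw [hgK, map_mul, hθ, mul_zero]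
      · rw [hgK, map_mul, hθ', mul_zero]
    · rintro _ ⟨p, hp, rfl⟩
      rw [MvPolynomial.eval_map]
      exact hxZ p hp
    · rw [hfL, ← nrmV_eq h c hc (g.map (algebraMap R K)) hgK B
        (fun j => algebraMap L (AlgebraicClosure L) (x j))]
      rw [hon, ← IsScalarTower.algebraMap_apply, mul_comm n' ℓ]
      congr 2
      rw [MvPolynomial.aeval_def, MvPolynomial.eval_map, MvPolynomial.hom_eval₂,
        ← IsScalarTower.algebraMap_eq]
  · intro F Ω _ _ _ _ _ _ _ _ _ _ _ x U hx hxZ hon hU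
    have hcl : IsAlgClosed Ω := IsAlgClosure.isAlgClosed F
    have halg : Algebra.IsAlgebraic F Ω := IsAlgClosure.isAlgebraic
    have hac : IsAlgClosure L (algebraicClosure L Ω) := inferInstance
    have hkb : IsAlgClosed (algebraicClosure L Ω) := hac.1
    refine local_sectionV (A := B') (k := L) ℓ hℓ0 f hf hfs hfd ϖ hϖ
      (algebraMap K L a) t ht m' hm' haL (B.map (Polynomial.mapRingHom (algebraMap K L))) E
      (hB.map _) (MvPolynomial.map (algebraMap K L) '' Z) hZh' (MvPolynomial.map (algebraMap K L) Q)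
      q (hQ.map _) U hU ?_ x hx ?_ n' hn' hfdeg ?_
    · intro θ θ' hθ hθ' hne
      rw [hfL, Polynomial.aeval_map_algebraMap] at hθ hθ'
      refine nd_liftV h hh0 B Z Q htr θ θ' ?_ ?_ hne
      · rw [hgK, map_mul, hθ, mul_zero]
      · rw [hgK, map_mul, hθ', mul_zero]
    · rintro _ ⟨p, hp, rfl⟩
      rw [MvPolynomial.eval₂_map, ← IsScalarTower.algebraMap_eq K L F]
      exact hxZ p hp
    · rw [hfL, ← nrmV_eq h c hc (g.map (algebraMap R K)) hgK B
        (fun j => algebraMap F Ω (x j))]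
      rw [hon, ← IsScalarTower.algebraMap_apply, mul_comm n' ℓ]
      congr 2
      rw [MvPolynomial.aeval_def, MvPolynomial.eval₂_map, MvPolynomial.hom_eval₂,
        ← RingHom.comp_assoc, ← IsScalarTower.algebraMap_eq L F Ω,
        ← IsScalarTower.algebraMap_eq K L Ω]

end

end Pool.Agent.Run7.h551.NF
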