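import Pool.Agent.TH377.Sup.SetR

/-!
# Discrete valuations of finitely generated fields at which a random polynomial is irreducible

Adapted from `Pool.Agent.TH377.Sup` (Val, EmbR, DensR, SetR), where the conclusion is a statement about
superelliptic curves; here it is the existence of a discrete valuation ring with the good properties.
-/

set_option autoImplicit false
set_option maxHeartbeats 400000

namespace Pool.Agent.Run7.h551.NF

open Polynomial WithZero NumberField IsDedekindDomain Pool.Agent.W858.SF Pool.Agent.W858.SG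
open Pool.Agent.TH120.Sec (red)
open Pool.Agent.TH377.Sup

universe u v w x y

/-- a discrete valuation ring of `k` at which `a` has valuation one up to sign and `g` is irreducible
of the same degree -/
def DvrData {k : Type u} [Field k] (a : k) (g : k[X]) : Prop :=
  ∃ (A : Type u) (_ : CommRing A) (_ : IsDomain A) (_ : IsDiscreteValuationRing A)
    (_ : Algebra A k) (_ : IsFractionRing A k) (f : A[X]) (ϖ t : A) (n : ℤ),
    f.map (algebraMap A k) = g ∧ IsUnit f.leadingCoeff ∧
    Irreducible (f.map (IsLocalRing.residue A)) ∧ (f.map (IsLocalRing.residue A)).Separable ∧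
    Irreducible ϖ ∧ IsUnit t ∧ (n = 1 ∨ n = -1) ∧
    a = algebraMap A k t * algebraMap A k ϖ ^ n

theorem data_val {k : Type u} {E : Type x} [Field k] [CharZero k] [Field E]
    (V : Valuation E ℤᵐ⁰) [Finite (IsLocalRing.ResidueField V.valuationSubring)] (ψ : k →+* E)
    (g : k[X]) (gB : V.valuationSubring[X])
    (hg : gB.map (algebraMap V.valuationSubring E) = g.map ψ) (hlc : IsUnit gB.leadingCoeff)
    (hirr : Irreducible (gB.map (IsLocalRing.residue V.valuationSubring)))
    (a : k) (ha : V (ψ a) = exp (-1)) : DvrData a g := by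
  classical
  obtain ⟨hdvr, ϖ, t, n, hϖ, ht, hn, hat⟩ := Pool.Agent.W858.SF.exists_unif (V.comap ψ) a (-1)
    (by decide) ha
  let i : (V.comap ψ).valuationSubring →+* V.valuationSubring :=
    { toFun := fun y => ⟨ψ y, y.2⟩
      map_one' := Subtype.ext (map_one ψ)
      map_mul' := fun y z => Subtype.ext (map_mul ψ _ _)
      map_zero' := Subtype.ext (map_zero ψ)
      map_add' := fun y z => Subtype.ext (map_add ψ _ _) }
  have hcoe : ∀ y, ((i y : V.valuationSubring) : E) = ψ (y : k) := fun _ => rfl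
  have hinj : Function.Injective i := by
    intro y z hyz
    apply Subtype.ext
    apply ψ.injective
    have := congrArg Subtype.val hyz
    exact this
  have hloc : IsLocalHom i := by
    refine ⟨fun y hy => ?_⟩
    have h1 := (Valuation.Integers.isUnit_iff_valuation_eq_one
      (Valuation.valuationSubring.integers V)).1 hy
    exact (Valuation.Integers.isUnit_iff_valuation_eq_one
      (Valuation.valuationSubring.integers (V.comap ψ))).2 h1
  have hfin : Finite (IsLocalRing.ResidueField (V.comap ψ).valuationSubring) :=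
    Finite.of_injective _ (IsLocalRing.ResidueField.map i).injective
  obtain ⟨f, hf⟩ : ∃ f : (V.comap ψ).valuationSubring[X],
      f.map (algebraMap (V.comap ψ).valuationSubring k) = g := by
    have h1 : g ∈ Polynomial.lifts (algebraMap (V.comap ψ).valuationSubring k) := by
      rw [Polynomial.lifts_iff_coeff_lifts]
      intro j
      have h3 : ψ (g.coeff j) = (gB.coeff j : E) := by
        have := congrArg (fun q => q.coeff j) hg
        simp only [coeff_map] at this
        exact this.symm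
      exact ⟨⟨g.coeff j, by
        change V (ψ (g.coeff j)) ≤ 1
        rw [h3]
        exact (gB.coeff j).2⟩, rfl⟩
    obtain ⟨f, hf⟩ := (Polynomial.mem_lifts _).1 h1
    exact ⟨f, hf⟩
  have hfB : f.map i = gB := by
    apply Polynomial.map_injective (algebraMap V.valuationSubring E) Subtype.val_injective
    rw [hg, ← hf, Polynomial.map_map, Polynomial.map_map]
    rfl
  have hdeg : f.natDegree = g.natDegree := by
    rw [← hf]
    exact (natDegree_map_eq_of_injective Subtype.val_injective f).symm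
  have hlcf : IsUnit f.leadingCoeff := by
    have h1 : i f.leadingCoeff = gB.leadingCoeff := by
      rw [← hfB]
      exact (leadingCoeff_map_of_injective hinj f).symm
    rw [← h1] at hlc
    exact hloc.map_nonunit _ hlc
  have hfi : Irreducible (f.map (IsLocalRing.residue (V.comap ψ).valuationSubring)) := by
    refine irr_of_map (IsLocalRing.ResidueField.map i) _ ?_
    rw [Polynomial.map_map, IsLocalRing.ResidueField.map_comp_residue, ← Polynomial.map_map, hfB]
    exact hirr
  have hdegr : (f.map (IsLocalRing.residue (V.comap ψ).valuationSubring)).natDegree =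
      g.natDegree := by
    rw [← hdeg]
    exact natDegree_map_of_leadingCoeff_ne_zero _ (hlcf.map _).ne_zero
  have hsf : (f.map (IsLocalRing.residue (V.comap ψ).valuationSubring)).Separable := by
    have hperf : PerfectField (IsLocalRing.ResidueField (V.comap ψ).valuationSubring) :=
      inferInstance
    exact PerfectField.separable_of_irreducible hfi
  have hak : a = algebraMap (V.comap ψ).valuationSubring k t *
      algebraMap (V.comap ψ).valuationSubring k ϖ ^ n := hat
  have hn1 : n = 1 ∨ n = -1 := by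
    have e1 : V (ψ (t : k)) = 1 := (Valuation.Integers.isUnit_iff_valuation_eq_one
      (Valuation.valuationSubring.integers (V.comap ψ))).1 ht
    have e2 : ψ (ϖ : k) ≠ 0 := by
      rw [Ne, map_eq_zero]
      intro h
      exact hϖ.ne_zero (Subtype.ext h)
    have e3 : V (ψ (ϖ : k)) = exp (log (V (ψ (ϖ : k)))) :=
      (exp_log ((Valuation.ne_zero_iff V).2 e2)).symm
    have e4 : V (ψ a) = exp (n * log (V (ψ (ϖ : k)))) := by
      rw [hat, map_mul, map_mul, map_zpow₀, map_zpow₀, e1, one_mul]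
      conv_lhs => rw [e3]
      rw [← exp_zsmul, smul_eq_mul]
    rw [ha, exp_inj] at e4
    have e5 : IsUnit n := by
      refine IsUnit.of_mul_eq_one (-log (V (ψ (ϖ : k)))) ?_
      rw [mul_neg, ← e4]
      norm_num
    exact Int.isUnit_iff.1 e5
  exact ⟨(V.comap ψ).valuationSubring, inferInstance, inferInstance, hdvr, inferInstance,
    inferInstance, f, ϖ, t, n, hf, hlcf, hfi, hsf, hϖ, ht, hn1, hak⟩

theorem data_embR {L : Type x} [Field L] [NumberField L] (v : HeightOneSpectrum (𝓞 L))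
    {R : Type y} [CommRing R] {k : Type u} [Field k] [CharZero k] [Algebra R k]
    (P : R →+* L) (ψ : k →+* v.adicCompletion L)
    (hPint : ∀ r, v.valuation L (P r) ≤ 1)
    (hψ : ∀ r, vv v (ψ (algebraMap R k r) - algebraMap L (v.adicCompletion L) (P r)) ≤ exp (-2))
    {d : ℕ} (c : Fin (d + 2) → R)
    (y : Fin (d + 2) → 𝓞 L)
    (hcy : ∀ i, v.valuation L (P (c i) - algebraMap (𝓞 L) L (y i)) ≤ exp (-2))
    (hy : y 0 ∈ v.asIdeal) (hy' : y 0 ∉ v.asIdeal ^ 2) (hirr : IrrMod v d fun i => y i.succ)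
    : algebraMap R k (c (Fin.last d).succ) ≠ 0 ∧
    DvrData (algebraMap R k (c 0)) (pol fun i : Fin (d + 1) => algebraMap R k (c i.succ)) := by
  classical
  have hfinres := finite_residue v
  have hmax : v.asIdeal.IsMaximal := v.isMaximal
  let _ := Ideal.Quotient.field v.asIdeal
  obtain ⟨θ, hθ, hθr⟩ := exists_residue_map v
  have hθinj : Function.Injective θ := θ.injective
  have hγ2 : (exp (-2) : ℤᵐ⁰) < 1 := by
    rw [← exp_zero, exp_lt_exp]
    omega
  have hPv : ∀ r, vv v (algebraMap L (v.adicCompletion L) (P r)) ≤ 1 := fun r => by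
    rw [vv_algebraMap]
    exact hPint r
  have hψ1 : ∀ r, vv v (ψ (algebraMap R k r)) ≤ 1 := by
    intro r
    have h1 : ψ (algebraMap R k r) = (ψ (algebraMap R k r) -
      algebraMap L (v.adicCompletion L) (P r)) + algebraMap L (v.adicCompletion L) (P r) := by ring
    rw [h1]
    exact (Valuation.map_add _ _ _).trans (max_le ((hψ r).trans hγ2.le) (hPv r))
  have hnear : ∀ i, vv v (ψ (algebraMap R k (c i)) -
      algebraMap L (v.adicCompletion L) (algebraMap (𝓞 L) L (y i))) ≤ exp (-2) := by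
    intro i
    have h1 : ψ (algebraMap R k (c i)) -
        algebraMap L (v.adicCompletion L) (algebraMap (𝓞 L) L (y i)) =
        (ψ (algebraMap R k (c i)) - algebraMap L (v.adicCompletion L) (P (c i))) +
        algebraMap L (v.adicCompletion L) (P (c i) - algebraMap (𝓞 L) L (y i)) := by
      rw [map_sub]
      ring
    rw [h1]
    refine (Valuation.map_add _ _ _).trans (max_le (hψ _) ?_)
    rw [vv_algebraMap]
    exact hcy i
  let cB : Fin (d + 1) → (vv v).valuationSubring := fun i => ⟨ψ (algebraMap R k (c i.succ)), hψ1 _⟩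
  have hres : ∀ i, IsLocalRing.residue _ (cB i) = θ (Ideal.Quotient.mk v.asIdeal (y i.succ)) := by
    intro i
    exact hθr _ _ ((hnear i.succ).trans_lt hγ2)
  have hlast : IsUnit (cB (Fin.last d)) := by
    have h5 : cB (Fin.last d) ∉ IsLocalRing.maximalIdeal (vv v).valuationSubring := by
      intro h6
      have h7 : IsLocalRing.residue _ (cB (Fin.last d)) = 0 :=
        (IsLocalRing.residue_eq_zero_iff _).2 h6
      rw [hres, map_eq_zero_iff _ hθinj, Ideal.Quotient.eq_zero_iff_mem] at h7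
      exact hirr.1 h7
    by_contra h6
    exact h5 ((IsLocalRing.mem_maximalIdeal _).2 h6)
  have hlast0 : cB (Fin.last d) ≠ 0 := hlast.ne_zero
  have hck : algebraMap R k (c (Fin.last d).succ) ≠ 0 := by
    intro h0
    apply hlast0
    apply Subtype.ext
    change ψ (algebraMap R k (c (Fin.last d).succ)) = 0
    rw [h0, map_zero]
  have ha : vv v (ψ (algebraMap R k (c 0))) = exp (-1) := by
    have h5 : ψ (algebraMap R k (c 0)) = (ψ (algebraMap R k (c 0)) -
      algebraMap L (v.adicCompletion L) (algebraMap (𝓞 L) L (y 0))) +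
      algebraMap L (v.adicCompletion L) (algebraMap (𝓞 L) L (y 0)) := by ring
    have h7 := val_eq_of v (y 0) hy hy'
    have h6 : vv v (ψ (algebraMap R k (c 0)) - algebraMap L (v.adicCompletion L)
        (algebraMap (𝓞 L) L (y 0))) <
        vv v (algebraMap L (v.adicCompletion L) (algebraMap (𝓞 L) L (y 0))) := by
      rw [vv_algebraMap, h7]
      refine (hnear 0).trans_lt ?_
      rw [exp_lt_exp]
      omega
    rw [h5, Valuation.map_add_eq_of_lt_right _ h6, vv_algebraMap, h7]
  refine ⟨hck, ?_⟩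
  refine data_val (vv v) ψ _ (pol cB) ?_ ?_ ?_ _ ha
  · rw [pol_map, pol_map]
    rfl
  · rw [pol_leadingCoeff _ hlast0]
    exact hlast
  · have h4 : (pol cB).map (IsLocalRing.residue (vv v).valuationSubring) =
        (pol fun i : Fin (d + 1) => Ideal.Quotient.mk v.asIdeal (y i.succ)).map θ := by
      rw [pol_map, pol_map]
      simp only [hres]
    rw [h4]
    exact (MulEquiv.irreducible_iff (Polynomial.mapEquiv
      (RingEquiv.ofBijective θ ⟨hθinj, hθ⟩)).toMulEquiv).2 hirr.2

theorem density_vecG {R k : Type} [CommRing R] [Field k] [CharZero k] [Algebra R k]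
    {L : Type} [Field L] [NumberField L] (P : R →+* L)
    (hemb : AE fun v : HeightOneSpectrum (𝓞 L) => (∀ r, v.valuation L (P r) ≤ 1) ∧
      ∃ ψ : k →+* v.adicCompletion L,
        ∀ r, vv v (ψ (algebraMap R k r) - algebraMap L (v.adicCompletion L) (P r)) ≤ exp (-2))
    (hM : ∃ M : ℤ, M ≠ 0 ∧ ∀ y : 𝓞 L, ∃ r : R, (M : L) * algebraMap (𝓞 L) L y = P r)
    (d : ℕ) (hd : 3 ≤ d) (P0 : (Fin (d + 2) → R) → Prop)
    (hP0 : ∀ c, algebraMap R k (c (Fin.last d).succ) ≠ 0 → DvrData (algebraMap R k (c 0))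
      (pol fun i : Fin (d + 1) => algebraMap R k (c i.succ)) → P0 c) (ε : ℝ) (hε : 0 < ε) :
    ∃ I : Ideal R, Finite (R ⧸ I) ∧
      (Set.ncard ((fun (c : Fin (d + 2) → R) i => Ideal.Quotient.mk I (c i)) ''
        {c | ¬ P0 c}) : ℝ) ≤ ε * (Nat.card (R ⧸ I) : ℝ) ^ (d + 2) := by
  classical
  obtain ⟨M, hM0, hM⟩ := hM
  obtain ⟨N1, hN1, hemb⟩ := hemb
  have hMO : (M : 𝓞 L) ≠ 0 := by exact_mod_cast hM0
  have hdr : (0 : ℝ) < d := by
    have : 0 < d := by omega
    exact_mod_cast this
  have hδ1 : (1 / (4 * d) : ℝ) ≤ 1 := by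
    rw [div_le_one (by positivity)]
    have : (3 : ℝ) ≤ d := by exact_mod_cast hd
    linarith
  obtain ⟨T, hT, hTε⟩ := Pool.Agent.TH120.Sec.supply_split 2 Nat.prime_two
    (N1 * (M : 𝓞 L) * 2) (mul_ne_zero (mul_ne_zero hN1 hMO) two_ne_zero) (1 / (4 * d) : ℝ)
    (by positivity) hδ1 ε hε
  have hTN1 : ∀ v ∈ T, N1 ∉ v.asIdeal := fun v hv h => (hT v hv).1
    (Ideal.mul_mem_right _ _ (Ideal.mul_mem_right _ _ h))
  have hTM : ∀ v ∈ T, (M : 𝓞 L) ∉ v.asIdeal := fun v hv h => (hT v hv).1
    (Ideal.mul_mem_right _ _ (Ideal.mul_mem_left _ _ h))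
  have hT2 : ∀ v ∈ T, (2 : 𝓞 L) ∉ v.asIdeal := fun v hv h => (hT v hv).1
    (Ideal.mul_mem_left _ _ h)
  have hPint : ∀ v ∈ T, ∀ r, v.valuation L (P r) ≤ 1 := fun v hv => (hemb v (hTN1 v hv)).1
  -- the good coefficients
  have hfine : ∀ v ∈ T, ∀ (c : Fin (d + 2) → R) (y : Fin (d + 2) → 𝓞 L),
      (∀ i, v.valuation L (P (c i) - algebraMap (𝓞 L) L (y i)) ≤ exp (-2)) →
      red (v.asIdeal ^ 2) (d + 2) y ∈ GoodV v d → P0 c := by
    intro v hv c y hcy hy
    obtain ⟨hint, ψ, hψ⟩ := hemb v (hTN1 v hv)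
    obtain ⟨g1, g2, g3⟩ := good_iff v d y hy
    obtain ⟨e1, e2⟩ := data_embR v P ψ hint hψ c y hcy g1 g2 g3
    exact hP0 c e1 e2
  set E : Set (Fin (d + 2) → R) := {c | ¬ P0 c} with hE
  set J := ∏ v ∈ T, v.asIdeal ^ 2 with hJ
  have hJ0 : J ≠ ⊥ := Finset.prod_ne_zero_iff.2 fun v _ => pow_ne_zero _ v.ne_bot
  have hfinJ : Finite (𝓞 L ⧸ J) := Ideal.finiteQuotientOfFreeOfNeBot _ hJ0
  -- the ideal
  let I : Ideal R :=
    { carrier := {r | ∀ v ∈ T, v.valuation L (P r) ≤ exp (-2)}
      add_mem' := by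
        intro r s hr hs v hv
        rw [map_add]
        exact (Valuation.map_add _ _ _).trans (max_le (hr v hv) (hs v hv))
      zero_mem' := by
        intro v hv
        rw [map_zero, map_zero]
        exact zero_le
      smul_mem' := by
        intro r s hs v hv
        rw [smul_eq_mul, map_mul, map_mul, mul_comm]
        exact mul_le_of_le_of_le_one (hs v hv) (hPint v hv r) }
  have hImem : ∀ r, r ∈ I ↔ ∀ v ∈ T, v.valuation L (P r) ≤ exp (-2) := fun r => Iff.rfl
  have hcl : ∀ r r' : R, ∀ y y' : 𝓞 L,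
      (∀ v ∈ T, v.valuation L (P r - algebraMap (𝓞 L) L y) ≤ exp (-2)) →
      (∀ v ∈ T, v.valuation L (P r' - algebraMap (𝓞 L) L y') ≤ exp (-2)) →
      (r - r' ∈ I ↔ y - y' ∈ J) := by
    intro r r' y y' h1 h2
    rw [hImem, hJ, mem_prod_iff]
    refine forall₂_congr fun v hv => ?_
    rw [← val_le_iff]
    constructor
    · intro h3
      have h5 : algebraMap (𝓞 L) L (y - y') = P (r - r') - ((P r - algebraMap (𝓞 L) L y) -
        (P r' - algebraMap (𝓞 L) L y')) := by
        rw [map_sub, map_sub]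
        ring
      rw [h5]
      exact (Valuation.map_sub _ _ _).trans (max_le h3
        ((Valuation.map_sub _ _ _).trans (max_le (h1 v hv) (h2 v hv))))
    · intro h3
      have h5 : P (r - r') = algebraMap (𝓞 L) L (y - y') + ((P r - algebraMap (𝓞 L) L y) -
        (P r' - algebraMap (𝓞 L) L y')) := by
        rw [map_sub, map_sub]
        ring
      rw [h5]
      exact (Valuation.map_add _ _ _).trans (max_le h3
        ((Valuation.map_sub _ _ _).trans (max_le (h1 v hv) (h2 v hv))))
  have hex : ∀ r : R, ∃ y : 𝓞 L,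
      ∀ v ∈ T, v.valuation L (P r - algebraMap (𝓞 L) L y) ≤ exp (-2) := fun r =>
    exists_int_near T (P r) fun v hv => hPint v hv r
  choose Y hY using hex
  have hsurj : ∀ y : 𝓞 L, ∃ r : R,
      ∀ v ∈ T, v.valuation L (P r - algebraMap (𝓞 L) L y) ≤ exp (-2) := by
    intro y
    obtain ⟨r0, hr0⟩ := hM y
    obtain ⟨j, hj⟩ := exists_pow_one T (M : 𝓞 L) hTM
    refine ⟨(M : R) ^ j * r0, fun v hv => ?_⟩
    have h1 : P ((M : R) ^ j * r0) - algebraMap (𝓞 L) L y =
        algebraMap (𝓞 L) L (((M : 𝓞 L) ^ (j + 1) - 1) * y) := by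
      rw [map_mul, ← hr0, map_pow, map_intCast]
      simp only [map_mul, map_sub, map_pow, map_intCast, map_one]
      ring
    rw [h1, val_le_iff]
    exact Ideal.mul_mem_right _ _ ((mem_prod_iff T _).1 hj v hv)
  let b : R ⧸ I → 𝓞 L ⧸ J := fun q => Ideal.Quotient.mk J (Y (Quotient.out q))
  have hout : ∀ q : R ⧸ I, Ideal.Quotient.mk I (Quotient.out q) = q := fun q =>
    Quotient.out_eq q
  have hbmk : ∀ (r : R) (y : 𝓞 L),
      (∀ v ∈ T, v.valuation L (P r - algebraMap (𝓞 L) L y) ≤ exp (-2)) →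
      b (Ideal.Quotient.mk I r) = Ideal.Quotient.mk J y := by
    intro r y hry
    change Ideal.Quotient.mk J _ = _
    rw [Ideal.Quotient.eq]
    refine (hcl _ r _ y (hY _) hry).1 ?_
    rw [← Ideal.Quotient.eq]
    exact hout _
  have hbinj : Function.Injective b := by
    intro q q' hqq
    have h1 := Ideal.Quotient.eq.1 hqq
    rw [← hcl (Quotient.out q) (Quotient.out q') _ _ (hY _) (hY _), ← Ideal.Quotient.eq, hout,
      hout] at h1
    exact h1
  have hbsurj : Function.Surjective b := by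
    intro z
    obtain ⟨y, rfl⟩ := Ideal.Quotient.mk_surjective z
    obtain ⟨r, hr⟩ := hsurj y
    exact ⟨Ideal.Quotient.mk I r, hbmk r y hr⟩
  have hfinI : Finite (R ⧸ I) := Finite.of_injective b hbinj
  have hcard : Nat.card (R ⧸ I) = Nat.card (𝓞 L ⧸ J) :=
    Nat.card_congr (Equiv.ofBijective b ⟨hbinj, hbsurj⟩)
  refine ⟨I, hfinI, ?_⟩
  -- counting in the number field
  set E' : Set (Fin (d + 2) → 𝓞 L) := {y | ∃ c ∈ E, ∀ v ∈ T, ∀ i,
    v.valuation L (P (c i) - algebraMap (𝓞 L) L (y i)) ≤ exp (-2)} with hE'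
  obtain ⟨e, he⟩ := Pool.Agent.W417.SecC.D2.crt T
  have hfinv : ∀ v : T, Finite (𝓞 L ⧸ v.1.asIdeal ^ 2) := fun v =>
    Pool.Agent.TH120.Sec.finite_sq v.1
  have hcardJ : (Nat.card (𝓞 L ⧸ J) : ℝ) = ∏ v ∈ T, (Ideal.absNorm v.asIdeal : ℝ) ^ 2 := by
    rw [hJ, Nat.card_congr e.toEquiv, Nat.card_pi, ← Finset.prod_coe_sort T]
    push_cast
    refine Finset.prod_congr rfl fun v _ => ?_
    rw [Pool.Agent.W417.SecC.D2.card_sq]
    push_cast
    rfl
  have hbad : ∀ y ∈ E', ∀ v : T, red (v.1.asIdeal ^ 2) (d + 2) y ∈ (GoodV v.1 d)ᶜ := by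
    rintro y ⟨c, hc, hcy⟩ v hy
    exact hc (hfine v.1 v.2 c y (hcy v.1 v.2) hy)
  have h1 := Pool.Agent.TH120.Sec.countd J T (fun v => v.1.asIdeal ^ 2) e he hfinv (d + 2) E'
    (fun v => (GoodV v.1 d)ᶜ) hbad
  have h1' : ((red J (d + 2) '' E').ncard : ℝ) ≤ ∏ v : T, (((GoodV v.1 d)ᶜ).ncard : ℝ) := by
    exact_mod_cast h1
  have h2 := Pool.Agent.TH120.Sec.prod_bound T (fun v : T => (((GoodV v.1 d)ᶜ).ncard : ℝ))
    (fun v => (1 - (1 / (4 * d)) * (1 / (Ideal.absNorm v.asIdeal : ℝ) -
        1 / (Ideal.absNorm v.asIdeal : ℝ) ^ 2)))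
    (fun v => ((Ideal.absNorm v.asIdeal : ℝ) ^ 2) ^ (d + 2)) (fun _ => Nat.cast_nonneg _)
    (fun v => badV_card v.1 d hd)
  have h3 : ((red J (d + 2) '' E').ncard : ℝ) ≤ ε * (Nat.card (𝓞 L ⧸ J) : ℝ) ^ (d + 2) := by
    refine (h1'.trans h2).trans ?_
    rw [Finset.prod_pow, hcardJ]
    exact mul_le_mul_of_nonneg_right hTε.le
      (pow_nonneg (Finset.prod_nonneg fun _ _ => sq_nonneg _) _)
  have hle : Set.ncard ((fun (c : Fin (d + 2) → R) i => Ideal.Quotient.mk I (c i)) '' E) ≤
      Set.ncard (red J (d + 2) '' E') := by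
    have hfr : Finite (Fin (d + 2) → 𝓞 L ⧸ J) := inferInstance
    refine Set.ncard_le_ncard_of_injOn (fun q i => b (q i)) ?_ ?_ (Set.toFinite _)
    · rintro _ ⟨c, hc, rfl⟩
      refine ⟨fun i => Y (c i), ⟨c, hc, fun v hv i => hY (c i) v hv⟩, ?_⟩
      funext i
      exact (hbmk (c i) _ (hY (c i))).symm
    · intro q _ q' _ h
      funext i
      exact hbinj (congrFun h i)
  rw [hcard]
  exact le_trans (by exact_mod_cast hle) h3

theorem density_auxG {R k : Type} [CommRing R] [IsDomain R] [Field k] [CharZero k]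
    [Algebra R k] [IsFractionRing R k] (G : Finset R) (hG : Algebra.adjoin ℤ (G : Set R) = ⊤)
    {m : ℕ} {Q : Type} [Field Q] [Algebra (MvPolynomial (Fin m) ℚ) Q]
    [IsFractionRing (MvPolynomial (Fin m) ℚ) Q] [Algebra Q k]
    [Algebra (MvPolynomial (Fin m) ℚ) k] [IsScalarTower (MvPolynomial (Fin m) ℚ) Q k]
    [Algebra.IsAlgebraic Q k] [Algebra.EssFiniteType ℤ k] (d : ℕ) (hd : 3 ≤ d)
    (P0 : (Fin (d + 2) → R) → Prop)
    (hP0 : ∀ c, algebraMap R k (c (Fin.last d).succ) ≠ 0 → DvrData (algebraMap R k (c 0))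
      (pol fun i : Fin (d + 1) => algebraMap R k (c i.succ)) → P0 c) (ε : ℝ)
    (hε : 0 < ε) :
    ∃ I : Ideal R, Finite (R ⧸ I) ∧
      (Set.ncard ((fun (c : Fin (d + 2) → R) i => Ideal.Quotient.mk I (c i)) ''
        {c | ¬ P0 c}) : ℝ) ≤ ε * (Nat.card (R ⧸ I) : ℝ) ^ (d + 2) := by
  classical
  have e4 : Algebra.EssFiniteType Q k := Algebra.EssFiniteType.of_comp ℤ Q k
  have hfin : FiniteDimensional Q k := Algebra.finite_of_essFiniteType_of_isAlgebraic
  have hinjk : Function.Injective (algebraMap R k) := IsFractionRing.injective R k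
  have hczQ : CharZero Q := charZero_of_injective_algebraMap
    (IsFractionRing.injective (MvPolynomial (Fin m) ℚ) Q)
  obtain ⟨α, hgen, hα⟩ := Pool.Agent.H298R2.Kuyk.exists_prim (MvPolynomial (Fin m) ℚ) Q k
  have hDNex : ∀ r : R, ∃ (D : MvPolynomial (Fin m) ℚ) (N : (MvPolynomial (Fin m) ℚ)[X]),
      D ≠ 0 ∧ algebraMap _ k D * algebraMap R k r = aeval α N := by
    intro r
    obtain ⟨p, -, hp⟩ := H33.V4.exists_rep (Q := Q) α hgen (algebraMap R k r)
    obtain ⟨D, hD, hDp⟩ := IsLocalization.integerNormalization_spec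
      (nonZeroDivisors (MvPolynomial (Fin m) ℚ)) p
    refine ⟨D, IsLocalization.integerNormalization (nonZeroDivisors (MvPolynomial (Fin m) ℚ)) p,
      nonZeroDivisors.ne_zero hD, ?_⟩
    rw [← aeval_map_algebraMap Q, hDp, Algebra.smul_def, map_mul, hp]
    congr 1
    rw [IsScalarTower.algebraMap_apply (MvPolynomial (Fin m) ℚ) Q k,
      IsScalarTower.algebraMap_apply (MvPolynomial (Fin m) ℚ) Q Q[X]]
    simp
  choose D N hD hDN using hDNex
  obtain ⟨r0, s0, hs0, hα0⟩ := IsFractionRing.div_surjective (A := R) α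
  have hs00 : s0 ≠ 0 := nonZeroDivisors.ne_zero hs0
  have hs0k : algebraMap R k s0 ≠ 0 := by
    rw [Ne, map_eq_zero_iff _ hinjk]
    exact hs00
  have hα1 : algebraMap R k s0 * α = algebraMap R k r0 := by
    rw [← hα0]
    field_simp
  obtain ⟨L, _, _, P, c, β, hβtop, hβ, hβ', hDP, hPα, hU, -, -⟩ :=
    exists_spec (Q := Q) hinjk α hα hgen G hG D N (fun r _ => hDN r) (fun r _ => hD r)
      {s0} (by
        intro u hu
        simp only [Finset.mem_singleton] at hu
        rw [hu]
        exact hs00) (1 : R[X]) (by rw [Polynomial.map_one]; exact separable_one)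
        AlgEquiv.refl (fun θ hθ => by
          rw [Polynomial.map_one, map_one] at hθ
          exact absurd hθ one_ne_zero)
  have hemb := exists_emb (Q := Q) α hα hgen P G hG D N (fun r _ => hDN r) c β hβ hβ' hDP
  have hM := exists_mult P β hβtop r0 s0 (hU s0 (by simp)) (hPα r0 s0 hα1)
  exact density_vecG P hemb hM d hd P0 hP0 ε hε

theorem density_allG {R k : Type} [CommRing R] [IsDomain R] [CharZero R] [Algebra.FiniteType ℤ R]
    [Field k] [Algebra R k] [IsFractionRing R k] (d : ℕ) (hd : 3 ≤ d)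
    (P0 : (Fin (d + 2) → R) → Prop)
    (hP0 : ∀ c, algebraMap R k (c (Fin.last d).succ) ≠ 0 → DvrData (algebraMap R k (c 0))
      (pol fun i : Fin (d + 1) => algebraMap R k (c i.succ)) → P0 c) (ε : ℝ) (hε : 0 < ε) :
    ∃ I : Ideal R, Finite (R ⧸ I) ∧
      (Set.ncard ((fun (c : Fin (d + 2) → R) i => Ideal.Quotient.mk I (c i)) ''
        {c | ¬ P0 c}) : ℝ) ≤ ε * (Nat.card (R ⧸ I) : ℝ) ^ (d + 2) := by
  classical
  have hcz : CharZero k := charZero_of_injective_algebraMap (IsFractionRing.injective R k)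
  obtain ⟨G, hG⟩ := (inferInstance : Algebra.FiniteType ℤ R).out
  have e1 : Algebra.EssFiniteType R k := Algebra.EssFiniteType.of_isLocalization k (nonZeroDivisors R)
  have e2 : Algebra.EssFiniteType ℤ k := Algebra.EssFiniteType.comp ℤ R k
  have e3 : Algebra.EssFiniteType ℚ k := Algebra.EssFiniteType.of_comp ℤ ℚ k
  obtain ⟨s, hs⟩ := IntermediateField.fg_top ℚ k
  have halg0 : Algebra.IsAlgebraic (Algebra.adjoin ℚ (s : Set k)) k := by
    rw [← IntermediateField.isAlgebraic_adjoin_iff_top, hs, Algebra.isAlgebraic_iff_isIntegral]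
    exact Algebra.isIntegral_of_surjective IntermediateField.topEquiv.surjective
  obtain ⟨t, hts, ht⟩ := exists_isTranscendenceBasis_subset (R := ℚ) (s : Set k)
  lift t to Finset k using s.finite_toSet.subset hts
  let m := t.card
  let e : Fin m ≃ t := t.equivFin.symm
  let x : Fin m → k := fun i => (e i : k)
  have hx : IsTranscendenceBasis ℚ x := (isTranscendenceBasis_equiv e).2 ht
  let _ : Algebra (MvPolynomial (Fin m) ℚ) k := (MvPolynomial.aeval x).toRingHom.toAlgebra
  have hinj : Function.Injective (algebraMap (MvPolynomial (Fin m) ℚ) k) := hx.1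
  let _ : Algebra (FractionRing (MvPolynomial (Fin m) ℚ)) k :=
    (IsFractionRing.lift (K := FractionRing (MvPolynomial (Fin m) ℚ)) hinj).toAlgebra
  have htow : IsScalarTower (MvPolynomial (Fin m) ℚ) (FractionRing (MvPolynomial (Fin m) ℚ)) k :=
    IsScalarTower.of_algebraMap_eq fun p => (IsFractionRing.lift_algebraMap hinj p).symm
  have hta : Algebra.IsAlgebraic (FractionRing (MvPolynomial (Fin m) ℚ)) k := by
    refine ⟨fun y => ?_⟩
    obtain ⟨p, hp, hpy⟩ := hx.isAlgebraic.isAlgebraic y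
    have h1 : IsAlgebraic (MvPolynomial (Fin m) ℚ) y := by
      refine ⟨p.map hx.1.aevalEquiv.symm.toRingEquiv.toRingHom, ?_, ?_⟩
      · exact (Polynomial.map_ne_zero_iff
          hx.1.aevalEquiv.symm.toRingEquiv.injective).2 hp
      · rw [aeval_def, eval₂_map]
        rw [aeval_def] at hpy
        have h2 : (algebraMap (MvPolynomial (Fin m) ℚ) k).comp
            hx.1.aevalEquiv.symm.toRingEquiv.toRingHom =
            algebraMap (Algebra.adjoin ℚ (Set.range x)) k := by
          ext1 z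
          obtain ⟨p, rfl⟩ := hx.1.aevalEquiv.surjective z
          rw [hx.1.algebraMap_aevalEquiv]
          change MvPolynomial.aeval x (hx.1.aevalEquiv.symm (hx.1.aevalEquiv p)) = _
          rw [AlgEquiv.symm_apply_apply]
        rw [h2]
        exact hpy
    exact h1.extendScalars (IsFractionRing.injective _ _)
  exact density_auxG (m := m) (Q := FractionRing (MvPolynomial (Fin m) ℚ)) G hG d hd P0 hP0 ε hε


end Pool.Agent.Run7.h551.NF
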