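import Pool.Agent.Run7.h551.NF3
import Pool.Agent.Run7.h551.NF4

/-!
# From discrete valuation rings to the data of the local theorem
-/

set_option autoImplicit false
set_option maxHeartbeats 400000

namespace Pool.Agent.Run7.h551.NF

open Polynomial Pool.Agent.TH377.LocG Pool.Agent.TH377.Sup

universe u v w z

/-- polynomials with a unit as leading coefficient -/
theorem unit_data {A : Type z} {K : Type u} [CommRing A] [IsDomain A] [IsDiscreteValuationRing A]
    [Field K] [Algebra A K] [IsFractionRing A K] (f : A[X]) (hf : IsUnit f.leadingCoeff)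
    (hs : (f.map (IsLocalRing.residue A)).Separable) (N : ℕ)
    (hN : FactorDiv N (f.map (IsLocalRing.residue A))) :
    ∃ (g : A[X]) (c : K), c ≠ 0 ∧ g.Monic ∧ f.map (algebraMap A K) = C c * g.map (algebraMap A K) ∧
      (g.map (IsLocalRing.residue A)).Separable ∧ FactorDiv N (g.map (IsLocalRing.residue A)) ∧
      (Irreducible (f.map (IsLocalRing.residue A)) → Irreducible (f.map (algebraMap A K))) := by
  obtain ⟨w, hw⟩ := hf
  have hg : (C ((w⁻¹ : Aˣ) : A) * f).Monic := by
    apply monic_C_mul_of_mul_leadingCoeff_eq_one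
    rw [← hw, Units.inv_mul]
  have hc : algebraMap A K f.leadingCoeff ≠ 0 := by
    rw [Ne, map_eq_zero_iff _ (IsFractionRing.injective A K), ← hw]
    exact w.ne_zero
  have hcw : algebraMap A K f.leadingCoeff * algebraMap A K ((w⁻¹ : Aˣ) : A) = 1 := by
    rw [← map_mul, ← hw, Units.mul_inv, map_one]
  have hmapK : f.map (algebraMap A K) =
      C (algebraMap A K f.leadingCoeff) * (C ((w⁻¹ : Aˣ) : A) * f).map (algebraMap A K) := by
    rw [Polynomial.map_mul, map_C, ← mul_assoc, ← C_mul, hcw, C_1, one_mul]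
  have hmapR : (C ((w⁻¹ : Aˣ) : A) * f).map (IsLocalRing.residue A) =
      C (IsLocalRing.residue A ((w⁻¹ : Aˣ) : A)) * f.map (IsLocalRing.residue A) := by
    rw [Polynomial.map_mul, map_C]
  have hunit : IsUnit (C (IsLocalRing.residue A ((w⁻¹ : Aˣ) : A))) :=
    ((Units.isUnit (w⁻¹ : Aˣ)).map (IsLocalRing.residue A)).map C
  have hdv : ∀ q : (IsLocalRing.ResidueField A)[X],
      q ∣ (C ((w⁻¹ : Aˣ) : A) * f).map (IsLocalRing.residue A) ↔
      q ∣ f.map (IsLocalRing.residue A) := by
    intro q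
    rw [hmapR]
    exact hunit.dvd_mul_left
  refine ⟨C ((w⁻¹ : Aˣ) : A) * f, algebraMap A K f.leadingCoeff, hc, hg, hmapK,
    Separable.of_dvd hs ((hdv _).1 dvd_rfl), fun q hq hqd => hN q hq ((hdv q).1 hqd), ?_⟩
  intro hirr
  rw [hmapK]
  have h1 : Irreducible ((C ((w⁻¹ : Aˣ) : A) * f).map (IsLocalRing.residue A)) := by
    rw [hmapR, irreducible_isUnit_mul hunit]
    exact hirr
  have h2 : Irreducible (C ((w⁻¹ : Aˣ) : A) * f) := hg.irreducible_of_irreducible_map _ _ h1
  have h3 : Irreducible ((C ((w⁻¹ : Aˣ) : A) * f).map (algebraMap A K)) :=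
    (hg.irreducible_iff_irreducible_map_fraction_map (K := K)).1 h2
  rw [irreducible_isUnit_mul]
  · exact h3
  · exact (isUnit_iff_ne_zero.2 hc).map C

/-- the factors of an irreducible polynomial -/
lemma factorDiv_irr {κ : Type*} [Field κ] (N : ℕ) (P : κ[X]) (h : Irreducible P)
    (hN : N ∣ P.natDegree) : FactorDiv N P := by
  intro q hq hqd
  have h1 : Associated q P := (hq.dvd_irreducible_iff_associated h).1 hqd
  rw [natDegree_eq_of_degree_eq (degree_eq_degree_of_associated h1)]
  exact hN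

end Pool.Agent.Run7.h551.NF
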